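import Mathlib

/-!
# The ideal of relations between the matrices of representations of a locally free group
-/

set_option autoImplicit false

namespace Pool.Agent.H91.FP

open MvPolynomial Matrix MatrixGroups

/-- The coordinates of a sequence of matrices: the `4 l + 2 i + j`-th coordinate is the
`(i, j)`-entry of the `l`-th matrix. -/
def coords {C : Type} [CommRing C] (g : ℕ → SL(2, C)) (m : ℕ) : C :=
  (g (m / 4) : Matrix (Fin 2) (Fin 2) C) ⟨m % 4 / 2, by omega⟩ ⟨m % 2, by omega⟩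

open Classical in
/-- The sequence of matrices attached to a representation `ρ` of a subgroup `B`. -/
noncomputable def pt {p : ℕ} [Fact p.Prime] {K : Type*} [Group K] (h : ℕ → K) (B : Subgroup K)
    (ρ : B →* SL(2, AlgebraicClosure (ZMod p))) (l : ℕ) : SL(2, AlgebraicClosure (ZMod p)) :=
  if hl : h l ∈ B then ρ ⟨h l, hl⟩ else 1

/-- The ideal of all polynomials which vanish on the representations of all sufficiently large
finitely generated subgroups. -/
def relIdeal (p : ℕ) [Fact p.Prime] {K : Type*} [Group K] (h : ℕ → K) :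
    Ideal (MvPolynomial ℕ (ZMod p)) where
  carrier := {F | ∃ B₀ : Subgroup K, B₀.FG ∧ ∀ B : Subgroup K, B.FG → B₀ ≤ B →
    ∀ ρ : B →* SL(2, AlgebraicClosure (ZMod p)), aeval (coords (pt h B ρ)) F = 0}
  zero_mem' := ⟨⊥, Subgroup.FG.bot, fun B _ _ ρ => map_zero _⟩
  add_mem' := by
    rintro F G ⟨B₁, h1, H1⟩ ⟨B₂, h2, H2⟩
    refine ⟨B₁ ⊔ B₂, h1.sup h2, fun B hB hle ρ => ?_⟩
    rw [map_add, H1 B hB (le_sup_left.trans hle), H2 B hB (le_sup_right.trans hle), add_zero]
  smul_mem' := by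
    rintro c F ⟨B₁, h1, H1⟩
    refine ⟨B₁, h1, fun B hB hle ρ => ?_⟩
    rw [smul_eq_mul, map_mul, H1 B hB hle, mul_zero]

theorem mem_relIdeal {p : ℕ} [Fact p.Prime] {K : Type*} [Group K] {h : ℕ → K}
    {F : MvPolynomial ℕ (ZMod p)} : F ∈ relIdeal p h ↔
      ∃ B₀ : Subgroup K, B₀.FG ∧ ∀ B : Subgroup K, B.FG → B₀ ≤ B →
        ∀ ρ : B →* SL(2, AlgebraicClosure (ZMod p)), aeval (coords (pt h B ρ)) F = 0 :=
  Iff.rfl

end Pool.Agent.H91.FP
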