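import Mathlib

/-!
# Dimension bound for R / (X_i^Q - b_i)

Let S be a polynomial ring over a field k in finitely many variables and R a commutative
S-algebra which is finite as a module.  For all large Q the quotient of R by the ideal generated
by the elements X_i^Q - b_i has dimension at most M * Q^(number of variables) over k.
-/

set_option autoImplicit false

open MvPolynomial

namespace Pool.Agent.H91.FP

/-- FP3.  Dimension bound. -/
theorem dim_bound {k ι R : Type} [Field k] [Fintype ι] [CommRing R] [Algebra k R]
    [Algebra (MvPolynomial ι k) R] [IsScalarTower k (MvPolynomial ι k) R]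
    [Module.Finite (MvPolynomial ι k) R] (b : ι → R) :
    ∃ M C : ℕ, ∀ Q : ℕ, C ≤ Q →
      Module.Finite k (R ⧸ Ideal.span (Set.range fun i =>
        algebraMap (MvPolynomial ι k) R (X i) ^ Q - b i)) ∧
      Module.finrank k (R ⧸ Ideal.span (Set.range fun i =>
        algebraMap (MvPolynomial ι k) R (X i) ^ Q - b i)) ≤ M * Q ^ Fintype.card ι := by
  classical
  obtain ⟨M, f, hf⟩ := Module.Finite.exists_fin (R := MvPolynomial ι k) (M := R)
  have hex : ∀ x : R, ∃ c : Fin M → MvPolynomial ι k, ∑ l, c l • f l = x := by
    intro x
    have hx : x ∈ Submodule.span (MvPolynomial ι k) (Set.range f) := by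
      rw [hf]; trivial
    exact (Submodule.mem_span_range_iff_exists_fun _).1 hx
  choose c hc using fun (p : ι × Fin M) => hex (b p.1 * f p.2)
  refine ⟨M, (Finset.univ.sup fun q : (ι × Fin M) × Fin M => (c q.1 q.2).totalDegree) + 1,
    fun Q hQ => ?_⟩
  set I : Ideal R := Ideal.span (Set.range fun i =>
    algebraMap (MvPolynomial ι k) R (X i) ^ Q - b i) with hI
  have hcd : ∀ (i : ι) (j l : Fin M), (c (i, j) l).totalDegree < Q := by
    intro i j l
    have h1 : (c (i, j) l).totalDegree ≤
        Finset.univ.sup fun q : (ι × Fin M) × Fin M => (c q.1 q.2).totalDegree :=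
      Finset.le_sup (f := fun q : (ι × Fin M) × Fin M => (c q.1 q.2).totalDegree)
        (Finset.mem_univ ((i, j), l))
    omega
  let g : (ι → Fin Q) × Fin M → R ⧸ I := fun p =>
    Ideal.Quotient.mkₐ k I (algebraMap (MvPolynomial ι k) R
      (monomial (Finsupp.equivFunOnFinite.symm fun i => (p.1 i : ℕ)) 1) * f p.2)
  let T : Submodule k (R ⧸ I) := Submodule.span k (Set.range g)
  let T' : Submodule k R := T.comap (Ideal.Quotient.mkₐ k I).toLinearMap
  -- polynomials all of whose monomials are fine
  have hB : ∀ (s : MvPolynomial ι k) (j : Fin M),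
      (∀ m ∈ s.support, algebraMap (MvPolynomial ι k) R (monomial m 1) * f j ∈ T') →
      algebraMap (MvPolynomial ι k) R s * f j ∈ T' := by
    intro s j h
    have hs : algebraMap (MvPolynomial ι k) R s * f j =
        ∑ m ∈ s.support, (coeff m s) • (algebraMap (MvPolynomial ι k) R (monomial m 1) * f j) := by
      conv_lhs => rw [s.as_sum, map_sum, Finset.sum_mul]
      refine Finset.sum_congr rfl fun m _ => ?_
      have h1 : (monomial m (coeff m s) : MvPolynomial ι k) = coeff m s • monomial m 1 := by
        rw [smul_monomial, smul_eq_mul, mul_one]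
      rw [h1, Algebra.algebraMap_eq_smul_one, smul_assoc, ← Algebra.algebraMap_eq_smul_one,
        smul_mul_assoc]
    rw [hs]
    exact Submodule.sum_mem _ fun m hm => Submodule.smul_mem _ _ (h m hm)
  -- all monomials are fine
  have hA : ∀ (n : ℕ) (u : ι →₀ ℕ), u.degree = n → ∀ j : Fin M,
      algebraMap (MvPolynomial ι k) R (monomial u 1) * f j ∈ T' := by
    intro n
    induction n using Nat.strong_induction_on with
    | _ n ih =>
    intro u hu j
    by_cases hall : ∀ i, u i < Q
    · refine Submodule.subset_span ⟨(fun i => ⟨u i, hall i⟩, j), ?_⟩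
      have : (Finsupp.equivFunOnFinite.symm fun i => ((⟨u i, hall i⟩ : Fin Q) : ℕ)) = u := by
        ext i; simp
      simp only [g, this]
      rfl
    · push Not at hall
      obtain ⟨i, hi⟩ := hall
      let u' : ι →₀ ℕ := u - Finsupp.single i Q
      have huu : u = u' + Finsupp.single i Q := by
        ext a
        by_cases ha : a = i
        · subst ha; simp [u']; omega
        · simp [u', Ne.symm ha]
      have hdeg : u'.degree + Q = n := by
        rw [← hu]
        conv_rhs => rw [huu]
        simp [Finsupp.degree_single]
      have hmon : (monomial u 1 : MvPolynomial ι k) = monomial u' 1 * X i ^ Q := by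
        rw [huu, X_pow_eq_monomial, monomial_mul, one_mul]
      have hmk : Ideal.Quotient.mkₐ k I (algebraMap (MvPolynomial ι k) R (X i) ^ Q) =
          Ideal.Quotient.mkₐ k I (b i) := by
        rw [← sub_eq_zero, ← map_sub]
        exact Ideal.Quotient.eq_zero_iff_mem.2 (Ideal.subset_span ⟨i, rfl⟩)
      have key : algebraMap (MvPolynomial ι k) R (monomial u' 1) * (b i * f j) ∈ T' := by
        rw [← hc (i, j), Finset.mul_sum]
        refine Submodule.sum_mem _ fun l _ => ?_
        have h2 : algebraMap (MvPolynomial ι k) R (monomial u' 1) * (c (i, j) l • f l) =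
            algebraMap (MvPolynomial ι k) R (monomial u' 1 * c (i, j) l) * f l := by
          rw [map_mul, Algebra.smul_def]; ring
        rw [h2]
        refine hB _ _ fun m hm => ?_
        obtain ⟨a, ha, rfl⟩ : ∃ a ∈ (c (i, j) l).support, u' + a = m := by
          have h3 := support_mul _ _ hm
          rw [Finset.mem_add] at h3
          obtain ⟨y, hy, z, hz, rfl⟩ := h3
          have hy' : y = u' := by
            have := support_monomial_subset hy
            simpa using this
          exact ⟨z, hz, by rw [hy']⟩
        have ha' : a.degree ≤ (c (i, j) l).totalDegree := by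
          have := le_totalDegree ha
          simpa [Finsupp.degree, Finsupp.sum] using this
        have h4 := hcd i j l
        refine ih (u' + a).degree ?_ _ rfl l
        rw [map_add]
        omega
      have h5 : Ideal.Quotient.mkₐ k I (algebraMap (MvPolynomial ι k) R (monomial u 1) * f j) =
          Ideal.Quotient.mkₐ k I (algebraMap (MvPolynomial ι k) R (monomial u' 1) *
            (b i * f j)) := by
        rw [hmon, map_mul (algebraMap (MvPolynomial ι k) R), map_pow]
        simp only [map_mul]
        rw [hmk]
        ring
      change Ideal.Quotient.mkₐ k I (algebraMap (MvPolynomial ι k) R (monomial u 1) * f j) ∈ T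
      rw [h5]
      exact key
  have htop : Submodule.span k (Set.range g) = ⊤ := by
    rw [eq_top_iff]
    rintro x -
    obtain ⟨y, rfl⟩ := Ideal.Quotient.mkₐ_surjective k I x
    obtain ⟨d, hd⟩ := hex y
    have : y ∈ T' := by
      rw [← hd]
      refine Submodule.sum_mem _ fun l _ => ?_
      rw [Algebra.smul_def]
      exact hB _ _ fun m _ => hA _ m rfl l
    exact this
  refine ⟨⟨?_⟩, ?_⟩
  · rw [← htop]
    exact Submodule.fg_span (Set.finite_range g)
  · have h6 := finrank_range_le_card (R := k) g
    have h7 : (Set.range g).finrank k = Module.finrank k (R ⧸ I) := by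
      rw [Set.finrank, htop, finrank_top]
    rw [h7] at h6
    refine h6.trans (le_of_eq ?_)
    rw [Fintype.card_prod, Fintype.card_fun, Fintype.card_fin, Fintype.card_fin, mul_comm]

end Pool.Agent.H91.FP
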