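import Mathlib

/-!
# Extension of a correspondence to an algebraically closed field
-/

set_option autoImplicit false

open MvPolynomial

namespace Pool.Agent.H91.FP

/-- Auxiliary form of `exists_extend`: two fields over a domain `B`. -/
theorem exists_extend_aux {k B K L : Type} [Field k] [CommRing B] [IsDomain B] [Field K] [Field L]
    [Algebra k B] [Algebra k K] [Algebra k L] [Algebra B K] [Algebra B L]
    [IsScalarTower k B K] [IsScalarTower k B L] [FaithfulSMul B K] [FaithfulSMul B L]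
    [IsAlgClosed L] (heq : Algebra.trdeg k K = Algebra.trdeg k L)
    (hfin : Algebra.trdeg k K < Cardinal.aleph0) : Nonempty (K →ₐ[B] L) := by
  have h1 := trdeg_add_eq k B (A := K)
  have h2 := trdeg_add_eq k B (A := L)
  have htr : Algebra.trdeg B K = Algebra.trdeg B L := by
    refine Cardinal.eq_of_add_eq_add_left (h1.trans (heq.trans h2.symm)) ?_
    refine lt_of_le_of_lt ?_ hfin
    rw [← h1]
    exact self_le_add_right _ _
  obtain ⟨ι, v, hv⟩ := exists_isTranscendenceBasis' B K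
  obtain ⟨κ, w, hw⟩ := exists_isTranscendenceBasis' B L
  have hc : Cardinal.mk ι = Cardinal.mk κ := by
    rw [hv.cardinalMk_eq_trdeg, hw.cardinalMk_eq_trdeg, htr]
  obtain ⟨e⟩ := Cardinal.eq.1 hc
  let aK : Algebra (MvPolynomial ι B) K := (aeval v : MvPolynomial ι B →ₐ[B] K).toRingHom.toAlgebra
  let aL : Algebra (MvPolynomial ι B) L :=
    (aeval (w ∘ e) : MvPolynomial ι B →ₐ[B] L).toRingHom.toAlgebra
  have hK : ∀ f : MvPolynomial ι B, algebraMap (MvPolynomial ι B) K f = aeval v f := fun f => rfl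
  have hL : ∀ f : MvPolynomial ι B, algebraMap (MvPolynomial ι B) L f = aeval (w ∘ e) f :=
    fun f => rfl
  have injK : Function.Injective (algebraMap (MvPolynomial ι B) K) := hv.1
  have injL : Function.Injective (algebraMap (MvPolynomial ι B) L) :=
    (hw.1.comp e e.injective : AlgebraicIndependent B (w ∘ e))
  have tK : IsScalarTower B (MvPolynomial ι B) K :=
    IsScalarTower.of_algebraMap_eq fun b => by
      rw [hK, MvPolynomial.algebraMap_eq, aeval_C]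
  have tL : IsScalarTower B (MvPolynomial ι B) L :=
    IsScalarTower.of_algebraMap_eq fun b => by
      rw [hL, MvPolynomial.algebraMap_eq, aeval_C]
  have fK : FaithfulSMul (MvPolynomial ι B) K := (faithfulSMul_iff_algebraMap_injective _ _).2 injK
  have fL : FaithfulSMul (MvPolynomial ι B) L := (faithfulSMul_iff_algebraMap_injective _ _).2 injL
  have algK : Algebra.IsAlgebraic (MvPolynomial ι B) K := by
    have := hv.isAlgebraic
    refine Algebra.IsAlgebraic.of_ringHom_of_comp_eq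
      (f := (hv.1.aevalEquiv : MvPolynomial ι B ≃ₐ[B] Algebra.adjoin B (Set.range v)))
      (g := RingHom.id K) hv.1.aevalEquiv.surjective Function.injective_id ?_
    ext x
    · simp [hK]
    · simp [hK]
  exact ⟨(IsAlgClosed.lift : K →ₐ[MvPolynomial ι B] L).restrictScalars B⟩

/-- FP6.  Extension of a correspondence. -/
theorem exists_extend {k Ω P : Type} [Field k] [Field Ω] [Algebra k Ω] [IsAlgClosed Ω]
    (htr : Algebra.trdeg k Ω < Cardinal.aleph0) [CommRing P] [Algebra k P] (φ₁ φ₂ : P →ₐ[k] Ω)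
    (hker : ∀ x, φ₁ x = 0 ↔ φ₂ x = 0) : ∃ τ : Ω →ₐ[k] Ω, ∀ x, τ (φ₁ x) = φ₂ x := by
  have hp : (RingHom.ker φ₁).IsPrime := RingHom.ker_isPrime φ₁
  have hmem : ∀ x, x ∈ RingHom.ker φ₁ ↔ φ₁ x = 0 := fun x => RingHom.mem_ker
  let j₁ : (P ⧸ RingHom.ker φ₁) →ₐ[k] Ω :=
    Ideal.Quotient.liftₐ (RingHom.ker φ₁) φ₁ fun x hx => (hmem x).1 hx
  let j₂ : (P ⧸ RingHom.ker φ₁) →ₐ[k] Ω :=
    Ideal.Quotient.liftₐ (RingHom.ker φ₁) φ₂ fun x hx => (hker x).1 ((hmem x).1 hx)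
  have e₁ : ∀ x, j₁ (Ideal.Quotient.mk _ x) = φ₁ x := fun x => rfl
  have e₂ : ∀ x, j₂ (Ideal.Quotient.mk _ x) = φ₂ x := fun x => rfl
  have i₁ : Function.Injective j₁ := by
    refine (injective_iff_map_eq_zero j₁).2 fun a ha => ?_
    obtain ⟨x, rfl⟩ := Ideal.Quotient.mk_surjective a
    rw [e₁] at ha
    exact Ideal.Quotient.eq_zero_iff_mem.2 ((hmem x).2 ha)
  have i₂ : Function.Injective j₂ := by
    refine (injective_iff_map_eq_zero j₂).2 fun a ha => ?_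
    obtain ⟨x, rfl⟩ := Ideal.Quotient.mk_surjective a
    rw [e₂] at ha
    exact Ideal.Quotient.eq_zero_iff_mem.2 ((hmem x).2 ((hker x).2 ha))
  let a₁ : Algebra (P ⧸ RingHom.ker φ₁) Ω := j₁.toRingHom.toAlgebra
  let a₂ : Algebra (P ⧸ RingHom.ker φ₁) Ω := j₂.toRingHom.toAlgebra
  have t₁ : @IsScalarTower k (P ⧸ RingHom.ker φ₁) Ω _ a₁.toSMul _ :=
    @IsScalarTower.of_algebraMap_eq k (P ⧸ RingHom.ker φ₁) Ω _ _ _ _ a₁ _
      fun c => (j₁.commutes c).symm
  have t₂ : @IsScalarTower k (P ⧸ RingHom.ker φ₁) Ω _ a₂.toSMul _ :=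
    @IsScalarTower.of_algebraMap_eq k (P ⧸ RingHom.ker φ₁) Ω _ _ _ _ a₂ _
      fun c => (j₂.commutes c).symm
  have f₁ : @FaithfulSMul (P ⧸ RingHom.ker φ₁) Ω a₁.toSMul :=
    (@faithfulSMul_iff_algebraMap_injective (P ⧸ RingHom.ker φ₁) Ω _ _ a₁).2 i₁
  have f₂ : @FaithfulSMul (P ⧸ RingHom.ker φ₁) Ω a₂.toSMul :=
    (@faithfulSMul_iff_algebraMap_injective (P ⧸ RingHom.ker φ₁) Ω _ _ a₂).2 i₂
  obtain ⟨τ⟩ := @exists_extend_aux k (P ⧸ RingHom.ker φ₁) Ω Ω _ _ _ _ _ _ _ _ a₁ a₂ t₁ t₂ f₁ f₂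
    _ rfl htr
  let σ : Ω →+* Ω := @AlgHom.toRingHom (P ⧸ RingHom.ker φ₁) Ω Ω _ _ _ a₁ a₂ τ
  have hτ : ∀ b, σ (j₁ b) = j₂ b := fun b =>
    @AlgHom.commutes (P ⧸ RingHom.ker φ₁) Ω Ω _ _ _ a₁ a₂ τ b
  refine ⟨{ σ with commutes' := fun c => ?_ }, fun x => ?_⟩
  · have h := hτ (algebraMap k (P ⧸ RingHom.ker φ₁) c)
    rw [j₁.commutes, j₂.commutes] at h
    exact h
  · exact hτ (Ideal.Quotient.mk _ x)

end Pool.Agent.H91.FP
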