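import Pool.Agent.H91.FP.Defs

/-!
# Invariant subgroups of finite index
-/

set_option autoImplicit false

open MvPolynomial Matrix MatrixGroups

namespace Pool.Agent.H91.FP

namespace Iv

section
variable {p : ℕ} [Fact p.Prime]

/-- The automorphism of `SL₂` given by the `s`-th power of the Frobenius automorphism. -/
noncomputable def frob (p : ℕ) [Fact p.Prime] (s : ℕ) :
    MulAut SL(2, AlgebraicClosure (ZMod p)) :=
  MulEquiv.ofBijective
    (Matrix.SpecialLinearGroup.map
      (iterateFrobeniusEquiv (AlgebraicClosure (ZMod p)) p s).toRingHom) <| by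
    constructor
    · intro A B hAB
      ext i j
      have h1 := congrArg (fun M : SL(2, AlgebraicClosure (ZMod p)) =>
        (M : Matrix (Fin 2) (Fin 2) (AlgebraicClosure (ZMod p))) i j) hAB
      simp only [Matrix.SpecialLinearGroup.map_apply_coe, RingHom.mapMatrix_apply,
        Matrix.map_apply] at h1
      exact (iterateFrobeniusEquiv (AlgebraicClosure (ZMod p)) p s).injective h1
    · intro B
      refine ⟨Matrix.SpecialLinearGroup.map
        (iterateFrobeniusEquiv (AlgebraicClosure (ZMod p)) p s).symm.toRingHom B, ?_⟩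
      ext i j
      simp only [Matrix.SpecialLinearGroup.map_apply_coe, RingHom.mapMatrix_apply,
        Matrix.map_apply]
      exact (iterateFrobeniusEquiv (AlgebraicClosure (ZMod p)) p s).apply_symm_apply _

theorem frob_apply (s : ℕ) (A : SL(2, AlgebraicClosure (ZMod p))) (i j : Fin 2) :
    (frob p s A : Matrix (Fin 2) (Fin 2) (AlgebraicClosure (ZMod p))) i j =
      (A : Matrix (Fin 2) (Fin 2) (AlgebraicClosure (ZMod p))) i j ^ p ^ s := rfl

/-- A finite subgroup stable under Frobenius. -/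
theorem exists_finite {n : ℕ} (A : Fin n → SL(2, AlgebraicClosure (ZMod p))) (s : ℕ) :
    ∃ M : Subgroup SL(2, AlgebraicClosure (ZMod p)), Finite M ∧ (∀ i, A i ∈ M) ∧
      ∀ x ∈ M, frob p s x ∈ M := by
  set S : Set (AlgebraicClosure (ZMod p)) := Set.range fun q : Fin n × Fin 2 × Fin 2 =>
    (A q.1 : Matrix (Fin 2) (Fin 2) (AlgebraicClosure (ZMod p))) q.2.1 q.2.2 with hS
  have : Finite S := Set.finite_range _
  set F := IntermediateField.adjoin (ZMod p) S with hF
  have : FiniteDimensional (ZMod p) F :=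
    IntermediateField.finiteDimensional_adjoin fun x _ => Algebra.IsIntegral.isIntegral x
  have : Finite F := Module.finite_of_finite (ZMod p)
  have : Finite SL(2, F) := by
    apply Finite.of_injective (fun A : SL(2, F) => (A : Matrix (Fin 2) (Fin 2) F))
    intro A B h
    exact Subtype.ext h
  refine ⟨(Matrix.SpecialLinearGroup.map (algebraMap F (AlgebraicClosure (ZMod p)))).range,
    Finite.of_surjective _ (MonoidHom.rangeRestrict_surjective _), ?_, ?_⟩
  · intro i
    have hmem : ∀ a b, (A i : Matrix (Fin 2) (Fin 2) (AlgebraicClosure (ZMod p))) a b ∈ F :=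
      fun a b => IntermediateField.subset_adjoin (ZMod p) S ⟨(i, a, b), rfl⟩
    refine ⟨⟨Matrix.of fun a b => ⟨_, hmem a b⟩, ?_⟩, ?_⟩
    · apply (algebraMap F (AlgebraicClosure (ZMod p))).injective
      rw [RingHom.map_det, map_one]
      have h1 : (algebraMap F (AlgebraicClosure (ZMod p))).mapMatrix
          (Matrix.of fun a b => (⟨_, hmem a b⟩ : F)) =
          (A i : Matrix (Fin 2) (Fin 2) (AlgebraicClosure (ZMod p))) := by
        ext a b
        rfl
      rw [h1]
      exact (A i).2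
    · ext a b
      rfl
  · rintro _ ⟨B, rfl⟩
    refine ⟨Matrix.SpecialLinearGroup.map (iterateFrobenius F p s) B, ?_⟩
    ext a b
    rw [frob_apply]
    simp only [Matrix.SpecialLinearGroup.map_apply_coe, RingHom.mapMatrix_apply,
      Matrix.map_apply, iterateFrobenius_def, map_pow]

theorem symm_mem {L : Type*} [Group L] (M : Subgroup L) [Finite M] (Φ : MulAut L)
    (h : ∀ x ∈ M, Φ x ∈ M) (x : L) (hx : x ∈ M) : Φ⁻¹ x ∈ M := by
  have hinj : Function.Injective (fun y : M => (⟨Φ y, h y y.2⟩ : M)) := by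
    intro a b hab
    apply Subtype.ext
    exact Φ.injective (congrArg Subtype.val hab)
  obtain ⟨y, hy⟩ := (Finite.injective_iff_surjective.1 hinj) ⟨x, hx⟩
  have h1 : Φ y = x := congrArg Subtype.val hy
  rw [← h1, MulAut.inv_apply_self]
  exact y.2

theorem zpow_mem {L : Type*} [Group L] (M : Subgroup L) [Finite M] (Φ : MulAut L)
    (h : ∀ x ∈ M, Φ x ∈ M) (j : ℤ) (x : L) (hx : x ∈ M) : (Φ ^ j) x ∈ M := by
  have h1 : ∀ (k : ℕ) (Ψ : MulAut L), (∀ x ∈ M, Ψ x ∈ M) → ∀ x ∈ M, (Ψ ^ k) x ∈ M := by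
    intro k Ψ hΨ
    induction k with
    | zero => intro x hx; exact hx
    | succ k ih => intro x hx; rw [pow_succ']; exact hΨ _ (ih x hx)
  rcases Int.eq_nat_or_neg j with ⟨k, rfl | rfl⟩
  · rw [zpow_natCast]; exact h1 k Φ h x hx
  · rw [_root_.zpow_neg, zpow_natCast, ← inv_pow]
    exact h1 k Φ⁻¹ (symm_mem M Φ h) x hx

/-- Extension of a representation along a shift. -/
theorem exists_rep {K L : Type*} [Group K] [Group L] (t : MulAut K) (Φ : MulAut L) (n : ℕ)
    (h : ℕ → K) (g' : ℕ → L) (ht : ∀ l, h (l + n) = t (h l)) (hΦ : ∀ l, g' (l + n) = Φ (g' l))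
    (hrel : ∀ w : FreeGroup ℕ, FreeGroup.lift h w = 1 → FreeGroup.lift g' w = 1)
    (hex : ∀ x : K, ∃ (m : ℕ) (w : FreeGroup ℕ), FreeGroup.lift h w = (t ^ m) x) :
    ∃ ρ : K →* L, (∀ x, ρ (t x) = Φ (ρ x)) ∧
      ∀ (x : K) (m : ℕ) (w : FreeGroup ℕ), FreeGroup.lift h w = (t ^ m) x →
        (Φ ^ m) (ρ x) = FreeGroup.lift g' w := by
  set σ : FreeGroup ℕ →* FreeGroup ℕ := FreeGroup.map fun l => l + n with hσ
  have hs1 : ∀ w, FreeGroup.lift h (σ w) = t (FreeGroup.lift h w) := by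
    have h1 : (FreeGroup.lift h).comp σ = t.toMonoidHom.comp (FreeGroup.lift h) := by
      apply FreeGroup.ext_hom
      intro l
      simp [hσ, ht]
    exact fun w => DFunLike.congr_fun h1 w
  have hs2 : ∀ w, FreeGroup.lift g' (σ w) = Φ (FreeGroup.lift g' w) := by
    have h1 : (FreeGroup.lift g').comp σ = Φ.toMonoidHom.comp (FreeGroup.lift g') := by
      apply FreeGroup.ext_hom
      intro l
      simp [hσ, hΦ]
    exact fun w => DFunLike.congr_fun h1 w
  have hm1 : ∀ (m : ℕ) w, FreeGroup.lift h (σ^[m] w) = (t ^ m) (FreeGroup.lift h w) := by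
    intro m
    induction m with
    | zero => intro w; rfl
    | succ m ih =>
      intro w
      rw [Function.iterate_succ_apply', hs1, ih, pow_succ']
      rfl
  have hm2 : ∀ (m : ℕ) w, FreeGroup.lift g' (σ^[m] w) = (Φ ^ m) (FreeGroup.lift g' w) := by
    intro m
    induction m with
    | zero => intro w; rfl
    | succ m ih =>
      intro w
      rw [Function.iterate_succ_apply', hs2, ih, pow_succ']
      rfl
  choose m w hw using hex
  have key : ∀ (x : K) (m' : ℕ) (w' : FreeGroup ℕ), FreeGroup.lift h w' = (t ^ m') x →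
      (Φ ^ m') ((Φ ^ m x)⁻¹ (FreeGroup.lift g' (w x))) = FreeGroup.lift g' w' := by
    intro x m' w' hw'
    have h1 : FreeGroup.lift h (σ^[m'] (w x) * (σ^[m x] w')⁻¹) = 1 := by
      rw [map_mul, map_inv, hm1, hm1, hw, hw', ← MulAut.mul_apply, ← MulAut.mul_apply, ← pow_add,
        ← pow_add, Nat.add_comm m' (m x), mul_inv_cancel]
    have h2 := hrel _ h1
    rw [map_mul, map_inv, hm2, hm2, mul_inv_eq_one] at h2
    have h3 : (Φ ^ m') ((Φ ^ m x)⁻¹ (FreeGroup.lift g' (w x))) =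
        (Φ ^ m x)⁻¹ ((Φ ^ m') (FreeGroup.lift g' (w x))) := by
      rw [← MulAut.mul_apply, ← MulAut.mul_apply]
      have h4 : Commute (Φ ^ m') (Φ ^ m x)⁻¹ := (Commute.pow_pow_self Φ m' (m x)).inv_right
      rw [h4.eq]
    rw [h3, h2, MulAut.inv_apply_self]
  have uniq : ∀ (m' : ℕ) (ξ ζ : L), (Φ ^ m') ξ = (Φ ^ m') ζ → ξ = ζ :=
    fun m' ξ ζ h1 => (Φ ^ m').injective h1
  refine ⟨MonoidHom.mk' (fun x => (Φ ^ m x)⁻¹ (FreeGroup.lift g' (w x))) ?_, ?_, ?_⟩
  · intro x y
    apply uniq (m x + m y)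
    have h1 : FreeGroup.lift h (σ^[m y] (w x) * σ^[m x] (w y)) = (t ^ (m x + m y)) (x * y) := by
      rw [map_mul, hm1, hm1, hw, hw, map_mul, ← MulAut.mul_apply, ← MulAut.mul_apply, ← pow_add,
        ← pow_add, Nat.add_comm (m y) (m x)]
    rw [key _ _ _ h1, map_mul, map_mul, hm2, hm2]
    have h2 : (Φ ^ (m x + m y)) ((Φ ^ m x)⁻¹ (FreeGroup.lift g' (w x))) =
        (Φ ^ m y) (FreeGroup.lift g' (w x)) := by
      rw [Nat.add_comm, pow_add, MulAut.mul_apply, MulAut.apply_inv_self]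
    have h3 : (Φ ^ (m x + m y)) ((Φ ^ m y)⁻¹ (FreeGroup.lift g' (w y))) =
        (Φ ^ m x) (FreeGroup.lift g' (w y)) := by
      rw [pow_add, MulAut.mul_apply, MulAut.apply_inv_self]
    rw [h2, h3]
  · intro x
    apply uniq (m x)
    have h1 : FreeGroup.lift h (σ (w x)) = (t ^ m x) (t x) := by
      rw [hs1, hw, ← MulAut.mul_apply, ← MulAut.mul_apply, ← pow_succ, ← pow_succ']
    change (Φ ^ m x) ((Φ ^ m (t x))⁻¹ (FreeGroup.lift g' (w (t x)))) = _
    rw [key _ _ _ h1, hs2]
    change _ = (Φ ^ m x) (Φ ((Φ ^ m x)⁻¹ (FreeGroup.lift g' (w x))))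
    have h2 : ∀ ξ, (Φ ^ m x) (Φ ξ) = Φ ((Φ ^ m x) ξ) := by
      intro ξ
      rw [← MulAut.mul_apply, ← MulAut.mul_apply, ← pow_succ, ← pow_succ']
    rw [h2, MulAut.apply_inv_self]
  · intro x m' w' hw'
    exact key x m' w' hw'

end

end Iv

open Iv in
/-- The theorem from its ingredients. -/
theorem exists_invariant_of (p : ℕ) [Fact p.Prime] {K : Type*} [Group K]
    (partC : ∀ (J : Ideal (MvPolynomial ℕ (ZMod p))) (n : ℕ), 0 < n →
      (∀ F, F ∈ J ↔ rename (fun l => l + n) F ∈ J) →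
      (∀ N : ℕ, ∃ (c : ℕ)
        (φ : MvPolynomial ℕ (ZMod p) →ₐ[ZMod p] MvPolynomial (Fin c) (ZMod p)),
        ∀ F ∈ supported (ZMod p) {l | l < N}, F ∈ J ↔ φ F = 0) →
      ∀ F₀ : MvPolynomial ℕ (ZMod p), F₀ ∉ J →
      ∃ Q₀ : ℕ, ∀ s : ℕ, Q₀ ≤ p ^ s → ∃ y : ℕ → AlgebraicClosure (ZMod p),
        (∀ l, y (l + n) = y l ^ p ^ s) ∧ (∀ F ∈ J, aeval y F = 0) ∧ aeval y F₀ ≠ 0)
    (shift : ∀ (h : ℕ → K) (t : K ≃* K) (n : ℕ), (∀ l, h (l + n) = t (h l)) →
      ∀ F : MvPolynomial ℕ (ZMod p),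
        F ∈ relIdeal p h ↔ rename (fun l => l + 4 * n) F ∈ relIdeal p h)
    (unir : (∀ B : Subgroup K, B.FG → IsFreeGroup B) → ∀ (h : ℕ → K) (N : ℕ),
      ∃ (c : ℕ) (φ : MvPolynomial ℕ (ZMod p) →ₐ[ZMod p] MvPolynomial (Fin c) (ZMod p)),
        ∀ F ∈ supported (ZMod p) {l | l < N}, F ∈ relIdeal p h ↔ φ F = 0)
    (homz : ∀ (h : ℕ → K) (y : ℕ → AlgebraicClosure (ZMod p)),
      (∀ F ∈ relIdeal p h, aeval y F = 0) →
      ∃ g : ℕ → SL(2, AlgebraicClosure (ZMod p)), coords g = y ∧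
        ∀ w : FreeGroup ℕ, FreeGroup.lift h w = 1 → FreeGroup.lift g w = 1)
    (notMem : (∀ B : Subgroup K, B.FG → IsFreeGroup B) → ∀ (h : ℕ → K) (w : FreeGroup ℕ),
      FreeGroup.lift h w ≠ 1 → ∃ F : MvPolynomial ℕ (ZMod p), F ∉ relIdeal p h ∧
        ∀ g : ℕ → SL(2, AlgebraicClosure (ZMod p)), aeval (coords g) F ≠ 0 →
          FreeGroup.lift g w ≠ 1)
    (hfree : ∀ B : Subgroup K, B.FG → IsFreeGroup B)
    (t : MulAut K) (n : ℕ) (a : Fin n → K)
    (hgen : Subgroup.closure {x | ∃ (i : Fin n) (j : ℤ), x = (t ^ j) (a i)} = ⊤)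
    (g : K) (hg : g ≠ 1) :
    ∃ N : Subgroup K, N.Normal ∧ N.FiniteIndex ∧ (∀ x, t x ∈ N ↔ x ∈ N) ∧ g ∉ N := by
  rcases Nat.eq_zero_or_pos n with hn | hn
  · exfalso
    subst hn
    have h1 : {x | ∃ (i : Fin 0) (j : ℤ), x = (t ^ j) (a i)} = (∅ : Set K) := by
      rw [Set.eq_empty_iff_forall_notMem]
      rintro x ⟨i, _⟩
      exact i.elim0
    rw [h1, Subgroup.closure_empty] at hgen
    have h2 : g ∈ (⊥ : Subgroup K) := by rw [hgen]; trivial
    exact hg (Subgroup.mem_bot.1 h2)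
  · obtain ⟨h, hh⟩ : ∃ h : ℕ → K, ∀ l, h l = (t ^ (l / n)) (a ⟨l % n, Nat.mod_lt l hn⟩) :=
      ⟨_, fun _ => rfl⟩
    have ht : ∀ l, h (l + n) = t (h l) := by
      intro l
      rw [hh, hh]
      have h1 : (l + n) / n = l / n + 1 := Nat.add_div_right l hn
      have h2 : (⟨(l + n) % n, Nat.mod_lt (l + n) hn⟩ : Fin n) = ⟨l % n, Nat.mod_lt l hn⟩ := by
        apply Fin.ext
        exact Nat.add_mod_right l n
      rw [h1, h2, pow_succ', MulAut.mul_apply]
    have hblock : ∀ (m : ℕ) (i : Fin n), h (n * m + i) = (t ^ m) (a i) := by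
      intro m i
      rw [hh]
      have h1 : (n * m + i) / n = m := by
        rw [Nat.mul_add_div hn, Nat.div_eq_of_lt i.2, Nat.add_zero]
      have h2 : (⟨(n * m + i) % n, Nat.mod_lt _ hn⟩ : Fin n) = i := by
        apply Fin.ext
        change (n * m + i) % n = i
        rw [Nat.mul_add_mod, Nat.mod_eq_of_lt i.2]
      rw [h1, h2]
    -- every element is moved into the range
    set σ : FreeGroup ℕ →* FreeGroup ℕ := FreeGroup.map fun l => l + n with hσ
    have hs1 : ∀ w, FreeGroup.lift h (σ w) = t (FreeGroup.lift h w) := by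
      have h1 : (FreeGroup.lift h).comp σ = t.toMonoidHom.comp (FreeGroup.lift h) := by
        apply FreeGroup.ext_hom
        intro l
        simp [hσ, ht]
      exact fun w => DFunLike.congr_fun h1 w
    have hm1 : ∀ (m : ℕ) w, FreeGroup.lift h (σ^[m] w) = (t ^ m) (FreeGroup.lift h w) := by
      intro m
      induction m with
      | zero => intro w; rfl
      | succ m ih =>
        intro w
        rw [Function.iterate_succ_apply', hs1, ih, pow_succ']
        rfl
    have hex : ∀ x : K, ∃ (m : ℕ) (w : FreeGroup ℕ), FreeGroup.lift h w = (t ^ m) x := by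
      intro x
      have hx : x ∈ Subgroup.closure {x | ∃ (i : Fin n) (j : ℤ), x = (t ^ j) (a i)} := by
        rw [hgen]; trivial
      induction hx using Subgroup.closure_induction with
      | mem x hx =>
        obtain ⟨i, j, rfl⟩ := hx
        obtain ⟨k, hk⟩ : ∃ k : ℕ, (k : ℤ) = (j.natAbs : ℤ) + j :=
          ⟨((j.natAbs : ℤ) + j).toNat, by omega⟩
        refine ⟨j.natAbs, FreeGroup.of (n * k + i), ?_⟩
        rw [FreeGroup.lift_apply_of, hblock, ← MulAut.mul_apply, ← zpow_natCast t j.natAbs,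
          ← _root_.zpow_add, ← hk, zpow_natCast]
      | one => exact ⟨0, 1, by simp⟩
      | mul x y _ _ hx hy =>
        obtain ⟨m, w, hw⟩ := hx
        obtain ⟨m', w', hw'⟩ := hy
        refine ⟨m + m', σ^[m'] w * σ^[m] w', ?_⟩
        rw [map_mul, hm1, hm1, hw, hw', map_mul, ← MulAut.mul_apply, ← MulAut.mul_apply,
          ← pow_add, ← pow_add, Nat.add_comm m' m]
      | inv x _ hx =>
        obtain ⟨m, w, hw⟩ := hx
        exact ⟨m, w⁻¹, by rw [map_inv, hw, map_inv]⟩
    obtain ⟨m, w, hw⟩ := hex g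
    have hw1 : FreeGroup.lift h w ≠ 1 := by
      rw [hw]
      intro h1
      apply hg
      apply (t ^ m).injective
      rw [h1, map_one]
    obtain ⟨F₀, hF₀, hF₁⟩ := notMem hfree h w hw1
    obtain ⟨Q₀, hQ₀⟩ := partC (relIdeal p h) (4 * n) (by omega) (shift h t n ht) (unir hfree h)
      F₀ hF₀
    obtain ⟨y, hy1, hy2, hy3⟩ := hQ₀ Q₀ (Nat.lt_pow_self (Fact.out (p := p.Prime)).one_lt).le
    obtain ⟨g', hg', hrel⟩ := homz h y hy2
    have hΦ : ∀ l, g' (l + n) = frob p Q₀ (g' l) := by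
      intro l
      have hentry : ∀ (l : ℕ) (i j : Fin 2),
          (g' l : Matrix (Fin 2) (Fin 2) (AlgebraicClosure (ZMod p))) i j =
            y (4 * l + (2 * i + j)) := by
        intro l i j
        rw [← hg']
        unfold coords
        have e1 : (4 * l + (2 * (i : ℕ) + j)) / 4 = l := by omega
        have e2 : (⟨(4 * l + (2 * (i : ℕ) + j)) % 4 / 2, by omega⟩ : Fin 2) = i := by
          apply Fin.ext
          change (4 * l + (2 * (i : ℕ) + j)) % 4 / 2 = i
          omega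
        have e3 : (⟨(4 * l + (2 * (i : ℕ) + j)) % 2, by omega⟩ : Fin 2) = j := by
          apply Fin.ext
          change (4 * l + (2 * (i : ℕ) + j)) % 2 = j
          omega
        rw [e1, e2, e3]
      ext i j
      rw [frob_apply, hentry, hentry, ← hy1]
      congr 1
      ring
    obtain ⟨ρ, hρ1, hρ2⟩ := exists_rep t (frob p Q₀) n h g' ht hΦ hrel hex
    obtain ⟨M, hM, hA, hMs⟩ := exists_finite (fun i : Fin n => g' i) Q₀
    have hai : ∀ i : Fin n, ρ (a i) = g' i := by
      intro i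
      have h1 := hρ2 (a i) 0 (FreeGroup.of (n * 0 + i)) (by rw [FreeGroup.lift_apply_of, hblock])
      rw [FreeGroup.lift_apply_of] at h1
      simpa using h1
    have hz : ∀ (j : ℤ) (x : K), ρ ((t ^ j) x) = ((frob p Q₀) ^ j) (ρ x) := by
      have h1 : ∀ (k : ℕ) (x : K), ρ ((t ^ k) x) = ((frob p Q₀) ^ k) (ρ x) := by
        intro k
        induction k with
        | zero => intro x; rfl
        | succ k ih =>
          intro x
          rw [pow_succ', pow_succ', MulAut.mul_apply, MulAut.mul_apply, hρ1, ih]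
      intro j x
      rcases Int.eq_nat_or_neg j with ⟨k, rfl | rfl⟩
      · rw [zpow_natCast, zpow_natCast]; exact h1 k x
      · rw [_root_.zpow_neg, _root_.zpow_neg, zpow_natCast, zpow_natCast]
        have h2 := h1 k (((t ^ k)⁻¹) x)
        rw [MulAut.apply_inv_self] at h2
        rw [h2, MulAut.inv_apply_self]
    have hrange : ∀ x, ρ x ∈ M := by
      intro x
      have hx : x ∈ Subgroup.closure {x | ∃ (i : Fin n) (j : ℤ), x = (t ^ j) (a i)} := by
        rw [hgen]; trivial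
      have h1 : Subgroup.closure {x | ∃ (i : Fin n) (j : ℤ), x = (t ^ j) (a i)} ≤
          M.comap ρ := by
        rw [Subgroup.closure_le]
        rintro _ ⟨i, j, rfl⟩
        change ρ ((t ^ j) (a i)) ∈ M
        rw [hz, hai]
        exact zpow_mem M _ hMs j _ (hA i)
      exact h1 hx
    have hfin : Finite ρ.range := by
      have h1 : ρ.range ≤ M := by
        rintro _ ⟨x, rfl⟩
        exact hrange x
      exact Finite.of_injective (Subgroup.inclusion h1) (Subgroup.inclusion_injective h1)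
    refine ⟨ρ.ker, inferInstance, inferInstance, ?_, ?_⟩
    · intro x
      rw [MonoidHom.mem_ker, MonoidHom.mem_ker, hρ1]
      exact map_eq_one_iff _ (frob p Q₀).injective
    · intro h1
      rw [MonoidHom.mem_ker] at h1
      have h2 := hρ2 g m w hw
      rw [h1, map_one] at h2
      apply hF₁ g' _ h2.symm
      rw [hg']
      exact hy3

end Pool.Agent.H91.FP
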