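import Pool.Agent.H91.FP.Defs

/-!
FP-10c, FP-10d: zeros of the ideal of relations give representations, and nontrivial elements
are seen by polynomials outside the ideal.
-/

set_option autoImplicit false

namespace Pool.Agent.H91.FP

open MvPolynomial Matrix MatrixGroups

section words

variable {p : ℕ}

/-- the generic matrix -/
noncomputable def Xm (p : ℕ) (l : ℕ) : Matrix (Fin 2) (Fin 2) (MvPolynomial ℕ (ZMod p)) :=
  !![X (4 * l), X (4 * l + 1); X (4 * l + 2), X (4 * l + 3)]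

/-- the value of a word at the generic matrices -/
noncomputable def Wd (p : ℕ) : List (ℕ × Bool) → Matrix (Fin 2) (Fin 2) (MvPolynomial ℕ (ZMod p))
  | [] => 1
  | x :: L => (bif x.2 then Xm p x.1 else adjugate (Xm p x.1)) * Wd p L

variable {C : Type} [CommRing C] [Algebra (ZMod p) C]

theorem coords_four (g : ℕ → SL(2, C)) (l : ℕ) :
    coords g (4 * l) = (g l : Matrix (Fin 2) (Fin 2) C) 0 0 ∧
    coords g (4 * l + 1) = (g l : Matrix (Fin 2) (Fin 2) C) 0 1 ∧
    coords g (4 * l + 2) = (g l : Matrix (Fin 2) (Fin 2) C) 1 0 ∧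
    coords g (4 * l + 3) = (g l : Matrix (Fin 2) (Fin 2) C) 1 1 := by
  have key : ∀ (m : ℕ) (a b : Fin 2), m / 4 = l → m % 4 / 2 = a.1 → m % 2 = b.1 →
      coords g m = (g l : Matrix (Fin 2) (Fin 2) C) a b := by
    intro m a b h1 h2 h3
    unfold coords
    subst h1
    exact congrArg₂ _ (Fin.ext h2) (Fin.ext h3)
  refine ⟨key _ 0 0 (by omega) ?_ ?_, key _ 0 1 (by omega) ?_ ?_,
    key _ 1 0 (by omega) ?_ ?_, key _ 1 1 (by omega) ?_ ?_⟩ <;>
    simp only [Fin.isValue, Fin.val_zero, Fin.val_one] <;> omega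

theorem map_Xm (g : ℕ → SL(2, C)) (l : ℕ) :
    (Xm p l).map (aeval (coords g)) = (g l : Matrix (Fin 2) (Fin 2) C) := by
  obtain ⟨h1, h2, h3, h4⟩ := coords_four g l
  ext i j
  fin_cases i <;> fin_cases j <;> simp [Xm, h1, h2, h3, h4]

theorem lift_cons {G : Type*} [Group G] (g : ℕ → G) (l : ℕ) (b : Bool) (L : List (ℕ × Bool)) :
    FreeGroup.lift g (FreeGroup.mk ((l, b) :: L)) =
      (bif b then g l else (g l)⁻¹) * FreeGroup.lift g (FreeGroup.mk L) := by
  simp only [FreeGroup.lift_mk, List.map_cons, List.prod_cons]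

theorem coe_mul' (A B : SL(2, C)) : ((A * B : SL(2, C)) : Matrix (Fin 2) (Fin 2) C) =
    (A : Matrix (Fin 2) (Fin 2) C) * (B : Matrix (Fin 2) (Fin 2) C) := rfl

theorem coe_inv' (A : SL(2, C)) : ((A⁻¹ : SL(2, C)) : Matrix (Fin 2) (Fin 2) C) =
    adjugate (A : Matrix (Fin 2) (Fin 2) C) := rfl

theorem map_Wd (g : ℕ → SL(2, C)) (L : List (ℕ × Bool)) :
    (Wd p L).map (aeval (coords g)) =
      ((FreeGroup.lift g (FreeGroup.mk L) : SL(2, C)) : Matrix (Fin 2) (Fin 2) C) := by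
  induction L with
  | nil =>
    have h1 : FreeGroup.lift g (FreeGroup.mk []) = 1 := rfl
    rw [h1]
    simp [Wd]
  | cons x L ih =>
    obtain ⟨l, b⟩ := x
    rw [lift_cons]
    generalize FreeGroup.lift g (FreeGroup.mk L) = z at ih ⊢
    cases b
    · simp only [cond_false, Wd]
      rw [Matrix.map_mul, ih, coe_mul', coe_inv', ← map_Xm (p := p) g l]
      congr 1
      exact RingHom.map_adjugate
        (aeval (coords g) : MvPolynomial ℕ (ZMod p) →ₐ[ZMod p] C).toRingHom (Xm p l)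
    · simp only [cond_true, Wd]
      rw [Matrix.map_mul, ih, coe_mul', map_Xm g l]

end words

section reps

variable {p : ℕ} [Fact p.Prime] {K : Type*} [Group K]

/-- the value of a word at the matrices of a representation -/
theorem lift_pt (h : ℕ → K) (B : Subgroup K) (ρ : B →* SL(2, AlgebraicClosure (ZMod p)))
    (L : List (ℕ × Bool)) (hL : ∀ x ∈ L, h x.1 ∈ B) :
    ∃ z : B, (z : K) = FreeGroup.lift h (FreeGroup.mk L) ∧
      FreeGroup.lift (pt h B ρ) (FreeGroup.mk L) = ρ z := by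
  induction L with
  | nil => exact ⟨1, rfl, (map_one ρ).symm⟩
  | cons x L ih =>
    obtain ⟨l, b⟩ := x
    obtain ⟨z, hz1, hz2⟩ := ih fun x hx => hL x (List.mem_cons_of_mem _ hx)
    have hl : h l ∈ B := hL (l, b) List.mem_cons_self
    have hpt : pt h B ρ l = ρ ⟨h l, hl⟩ := dif_pos hl
    cases b
    · refine ⟨⟨h l, hl⟩⁻¹ * z, ?_, ?_⟩
      · rw [lift_cons, ← hz1]
        rfl
      · rw [lift_cons, hz2, hpt, map_mul, map_inv]
        rfl
    · refine ⟨⟨h l, hl⟩ * z, ?_, ?_⟩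
      · rw [lift_cons, ← hz1]
        rfl
      · rw [lift_cons, hz2, hpt, map_mul]
        rfl

theorem det_mem (h : ℕ → K) (l : ℕ) : (Xm p l).det - 1 ∈ relIdeal p h := by
  refine mem_relIdeal.2 ⟨⊥, Subgroup.FG.bot, fun B _ _ ρ => ?_⟩
  have h1 : aeval (coords (pt h B ρ)) (Xm p l).det =
      ((Xm p l).map (aeval (coords (pt h B ρ)))).det :=
    RingHom.map_det (aeval (coords (pt h B ρ)) :
      MvPolynomial ℕ (ZMod p) →ₐ[ZMod p] AlgebraicClosure (ZMod p)).toRingHom (Xm p l)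
  rw [map_sub, h1, map_Xm, map_one, (pt h B ρ l).2, sub_self]

/-- the subgroup of the letters of a word -/
theorem letters_fg (h : ℕ → K) (L : List (ℕ × Bool)) :
    ∃ B₀ : Subgroup K, B₀.FG ∧ ∀ x ∈ L, h x.1 ∈ B₀ := by
  classical
  refine ⟨Subgroup.closure ((L.map fun x => h x.1).toFinset : Set K), ⟨_, rfl⟩, fun x hx => ?_⟩
  apply Subgroup.subset_closure
  rw [Finset.mem_coe, List.mem_toFinset]
  exact List.mem_map_of_mem hx

theorem word_mem (h : ℕ → K) (L : List (ℕ × Bool))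
    (hw : FreeGroup.lift h (FreeGroup.mk L) = 1) (i j : Fin 2) :
    Wd p L i j - C ((1 : Matrix (Fin 2) (Fin 2) (ZMod p)) i j) ∈ relIdeal p h := by
  obtain ⟨B₀, hB₀, hL⟩ := letters_fg h L
  refine mem_relIdeal.2 ⟨B₀, hB₀, fun B _ hle ρ => ?_⟩
  obtain ⟨z, hz1, hz2⟩ := lift_pt h B ρ L fun x hx => hle (hL x hx)
  have hz : z = 1 := Subtype.ext (hz1.trans hw)
  rw [hz, map_one] at hz2
  have h1 := congrFun (congrFun (map_Wd (p := p) (pt h B ρ) L) i) j
  rw [hz2, Matrix.map_apply] at h1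
  rw [map_sub, h1]
  fin_cases i <;> fin_cases j <;> simp

theorem hom_of_zero (p : ℕ) [Fact p.Prime] {K : Type*} [Group K] (h : ℕ → K)
    (y : ℕ → AlgebraicClosure (ZMod p)) (hy : ∀ F ∈ relIdeal p h, aeval y F = 0) :
    ∃ g : ℕ → SL(2, AlgebraicClosure (ZMod p)), coords g = y ∧
      ∀ w : FreeGroup ℕ, FreeGroup.lift h w = 1 → FreeGroup.lift g w = 1 := by
  have hmap : ∀ l, (Xm p l).map (aeval y) =
      !![y (4 * l), y (4 * l + 1); y (4 * l + 2), y (4 * l + 3)] := by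
    intro l
    ext i j
    fin_cases i <;> fin_cases j <;> simp [Xm]
  have hdet : ∀ l, (!![y (4 * l), y (4 * l + 1); y (4 * l + 2), y (4 * l + 3)] :
      Matrix (Fin 2) (Fin 2) (AlgebraicClosure (ZMod p))).det = 1 := by
    intro l
    rw [← hmap l]
    have h1 : aeval y (Xm p l).det = ((Xm p l).map (aeval y)).det :=
      RingHom.map_det (aeval y :
        MvPolynomial ℕ (ZMod p) →ₐ[ZMod p] AlgebraicClosure (ZMod p)).toRingHom (Xm p l)
    rw [← h1]
    have h2 := hy _ (det_mem h l)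
    rw [map_sub, map_one] at h2
    exact sub_eq_zero.1 h2
  have hc : coords (C := AlgebraicClosure (ZMod p)) (fun l => ⟨_, hdet l⟩) = y := by
    funext m
    have hm : m = 4 * (m / 4) + m % 4 := by omega
    generalize m / 4 = l at hm
    have hr : m % 4 < 4 := Nat.mod_lt _ (by omega)
    obtain ⟨h1, h2, h3, h4⟩ := coords_four (C := AlgebraicClosure (ZMod p))
      (fun l => ⟨_, hdet l⟩) l
    generalize m % 4 = r at hm hr
    subst hm
    interval_cases r
    · exact h1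
    · exact h2
    · exact h3
    · exact h4
  refine ⟨fun l => ⟨_, hdet l⟩, hc, fun w hw => ?_⟩
  have hw' : FreeGroup.lift h (FreeGroup.mk w.toWord) = 1 := by
    rw [FreeGroup.mk_toWord]
    exact hw
  have h1 := map_Wd (p := p) (C := AlgebraicClosure (ZMod p)) (fun l => ⟨_, hdet l⟩) w.toWord
  rw [FreeGroup.mk_toWord, hc] at h1
  apply Subtype.ext
  rw [← h1]
  ext i j
  have h2 := hy _ (word_mem h w.toWord hw' i j)
  rw [map_sub] at h2
  rw [Matrix.map_apply, sub_eq_zero.1 h2]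
  fin_cases i <;> fin_cases j <;> simp

/-- The statement about nontrivial elements, from the residual property of free groups. -/
theorem exists_notMem_of (p : ℕ) [Fact p.Prime] {K : Type*} [Group K]
    (hhom : ∀ (B : Subgroup K) [IsFreeGroup B] (w : FreeGroup (IsFreeGroup.Generators B)), w ≠ 1 →
      ∃ f : FreeGroup (IsFreeGroup.Generators B) →* SL(2, AlgebraicClosure (ZMod p)), f w ≠ 1)
    (hfree : ∀ B : Subgroup K, B.FG → IsFreeGroup B) (h : ℕ → K) (w : FreeGroup ℕ)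
    (hw : FreeGroup.lift h w ≠ 1) :
    ∃ F : MvPolynomial ℕ (ZMod p), F ∉ relIdeal p h ∧
      ∀ g : ℕ → SL(2, AlgebraicClosure (ZMod p)), aeval (coords g) F ≠ 0 →
        FreeGroup.lift g w ≠ 1 := by
  by_cases hall : ∀ i j : Fin 2,
      Wd p w.toWord i j - C ((1 : Matrix (Fin 2) (Fin 2) (ZMod p)) i j) ∈ relIdeal p h
  · exfalso
    obtain ⟨B₀, hB₀, hL⟩ := letters_fg h w.toWord
    choose B₁ hB₁ H using fun i j => mem_relIdeal.1 (hall i j)
    have hfg : (B₀ ⊔ ((B₁ 0 0 ⊔ B₁ 0 1) ⊔ (B₁ 1 0 ⊔ B₁ 1 1))).FG :=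
      hB₀.sup (((hB₁ 0 0).sup (hB₁ 0 1)).sup ((hB₁ 1 0).sup (hB₁ 1 1)))
    obtain ⟨B, hBdef⟩ : ∃ B, B = B₀ ⊔ ((B₁ 0 0 ⊔ B₁ 0 1) ⊔ (B₁ 1 0 ⊔ B₁ 1 1)) := ⟨_, rfl⟩
    rw [← hBdef] at hfg
    have hle0 : B₀ ≤ B := hBdef ▸ le_sup_left
    have hle1 : ∀ i j, B₁ i j ≤ B := by
      have a1 : (B₁ 0 0 ⊔ B₁ 0 1) ⊔ (B₁ 1 0 ⊔ B₁ 1 1) ≤ B := hBdef ▸ le_sup_right
      intro i j
      fin_cases i <;> fin_cases j
      · exact (le_sup_left.trans le_sup_left).trans a1
      · exact (le_sup_right.trans le_sup_left).trans a1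
      · exact (le_sup_left.trans le_sup_right).trans a1
      · exact (le_sup_right.trans le_sup_right).trans a1
    have hfB : IsFreeGroup B := hfree B hfg
    obtain ⟨z, hz1, -⟩ := lift_pt (p := p) h B 1 w.toWord fun x hx => hle0 (hL x hx)
    rw [FreeGroup.mk_toWord] at hz1
    have hz : z ≠ 1 := by
      intro hz
      apply hw
      rw [← hz1, hz]
      rfl
    obtain ⟨f, hf⟩ := hhom B ((IsFreeGroup.mulEquiv B).symm z)
      (fun he => hz ((map_eq_one_iff _ (IsFreeGroup.mulEquiv B).symm.injective).1 he))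
    obtain ⟨z', hz1', hz2⟩ := lift_pt h B
      (f.comp (IsFreeGroup.mulEquiv B).symm.toMonoidHom) w.toWord fun x hx => hle0 (hL x hx)
    have hzz : z' = z := by
      apply Subtype.ext
      rw [hz1', hz1, FreeGroup.mk_toWord]
    subst hzz
    apply hf
    have hz3 : FreeGroup.lift (pt h B (f.comp (IsFreeGroup.mulEquiv B).symm.toMonoidHom))
        (FreeGroup.mk w.toWord) = f ((IsFreeGroup.mulEquiv B).symm z') := hz2
    rw [← hz3]
    apply Subtype.ext
    rw [← map_Wd (p := p)]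
    ext i j
    have h2 := H i j B hfg (hle1 i j) (f.comp (IsFreeGroup.mulEquiv B).symm.toMonoidHom)
    rw [map_sub] at h2
    rw [Matrix.map_apply, sub_eq_zero.1 h2]
    fin_cases i <;> fin_cases j <;> simp
  · push Not at hall
    obtain ⟨i, j, hij⟩ := hall
    refine ⟨_, hij, fun g hg hgw => hg ?_⟩
    have h1 := congrFun (congrFun (map_Wd (p := p) g w.toWord) i) j
    rw [FreeGroup.mk_toWord, hgw, Matrix.map_apply] at h1
    rw [map_sub, h1]
    fin_cases i <;> fin_cases j <;> simp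

end reps

end Pool.Agent.H91.FP
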