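import Mathlib

/-!
# Elementary facts on SL(2) and free groups

* every matrix of `SL(2, F)`, `F` a field, is a product of four elementary matrices;
* nontrivial elements of free groups are seen by representations into `SL(2)` of the algebraic
  closure of a finite field (ping-pong over the polynomial ring and specialisation);
* a finitely generated free group has a finite basis.
-/

set_option autoImplicit false

namespace Pool.Agent.H91.FP

open Matrix MatrixGroups Polynomial

/-! ### Products of four elementary matrices -/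

theorem exists_EFEF {F : Type} [Field F] (g : SL(2, F)) : ∃ x y z w : F,
    (g : Matrix (Fin 2) (Fin 2) F) =
      !![1, x; 0, 1] * !![1, 0; y, 1] * !![1, z; 0, 1] * !![1, 0; w, 1] := by
  have hdet : g 0 0 * g 1 1 - g 0 1 * g 1 0 = 1 := by
    rw [← Matrix.det_fin_two]; exact g.2
  by_cases hc : g 1 0 = 0
  · have hd : g 1 1 ≠ 0 := by
      intro hd
      rw [hc, hd] at hdet
      simp at hdet
    rw [hc, mul_zero, sub_zero] at hdet
    refine ⟨(g 0 0 - g 0 1 - 1) / (-g 1 1), -g 1 1, (g 1 1 - 1) / (-g 1 1), 1, ?_⟩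
    ext i j
    fin_cases i <;> fin_cases j
    · simp [Matrix.mul_apply, Fin.sum_univ_two]
      field_simp
      linear_combination hdet
    · simp [Matrix.mul_apply, Fin.sum_univ_two]
      field_simp
      linear_combination hdet
    · simp [Matrix.mul_apply, Fin.sum_univ_two]
      rw [hc]
      field_simp
      ring
    · simp [Matrix.mul_apply, Fin.sum_univ_two]
      field_simp
      ring
  · refine ⟨(g 0 0 - 1) / g 1 0, g 1 0, (g 1 1 - 1) / g 1 0, 0, ?_⟩
    ext i j
    fin_cases i <;> fin_cases j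
    · simp [Matrix.mul_apply, Fin.sum_univ_two]
      field_simp
      try ring
    · simp [Matrix.mul_apply, Fin.sum_univ_two]
      field_simp
      linear_combination (-1 : F) * hdet
    · simp [Matrix.mul_apply, Fin.sum_univ_two]
    · simp [Matrix.mul_apply, Fin.sum_univ_two]
      field_simp
      try ring

/-! ### Ping-pong -/

section PingPong

variable {K : Type} [Field K]

/-- The degree computation: a column `(a, b)` with `deg b ≠ deg a + n` is mapped to a column
`(a + p (b + p a), b + p a)` of degree difference exactly `n`. -/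
theorem key_degree {a b p : K[X]} {n : ℕ} (hp : p.natDegree = n) (hn : 0 < n)
    (hab : ¬ (a = 0 ∧ b = 0)) (hY : ¬ (a ≠ 0 ∧ b ≠ 0 ∧ b.natDegree = a.natDegree + n)) :
    a + p * (b + p * a) ≠ 0 ∧ b + p * a ≠ 0 ∧
      (a + p * (b + p * a)).natDegree = (b + p * a).natDegree + n := by
  have hp0 : p ≠ 0 := by
    rintro rfl
    rw [natDegree_zero] at hp
    omega
  -- first the new lower entry
  have h1 : b + p * a ≠ 0 ∧ (a ≠ 0 → a.natDegree + n ≤ (b + p * a).natDegree) := by
    by_cases ha : a = 0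
    · subst ha
      refine ⟨?_, fun h => absurd rfl h⟩
      simpa using hab
    · have hpa : (p * a).natDegree = a.natDegree + n := by
        rw [natDegree_mul hp0 ha, hp]; ring
      have hpa0 : p * a ≠ 0 := mul_ne_zero hp0 ha
      by_cases hb : b = 0
      · subst hb
        simp only [zero_add]
        exact ⟨hpa0, fun _ => hpa.ge⟩
      · have hne : b.natDegree ≠ a.natDegree + n := fun h => hY ⟨ha, hb, h⟩
        rcases lt_or_gt_of_ne hne with h | h
        · have h2 : (b + p * a).natDegree = (p * a).natDegree :=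
            natDegree_add_eq_right_of_natDegree_lt (by rw [hpa]; exact h)
          refine ⟨?_, fun _ => by rw [h2, hpa]⟩
          intro h0
          rw [h0, natDegree_zero, hpa] at h2
          omega
        · have h2 : (b + p * a).natDegree = b.natDegree :=
            natDegree_add_eq_left_of_natDegree_lt (by rw [hpa]; exact h)
          refine ⟨?_, fun _ => by rw [h2]; exact h.le⟩
          intro h0
          rw [h0, natDegree_zero] at h2
          omega
  obtain ⟨h0, h2⟩ := h1
  set b' := b + p * a with hb'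
  have hpb : (p * b').natDegree = b'.natDegree + n := by
    rw [natDegree_mul hp0 h0, hp]; ring
  have hpb0 : p * b' ≠ 0 := mul_ne_zero hp0 h0
  by_cases ha : a = 0
  · subst ha
    simp only [zero_add]
    exact ⟨hpb0, h0, hpb⟩
  · have h3 : a.natDegree < (p * b').natDegree := by
      have := h2 ha
      omega
    have h4 : (a + p * b').natDegree = (p * b').natDegree :=
      natDegree_add_eq_right_of_natDegree_lt h3
    refine ⟨?_, h0, by rw [h4, hpb]⟩
    intro h5
    rw [h5, natDegree_zero] at h4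
    omega

/-- The matrix `E(p) F(p)`. -/
noncomputable def pgen (p : K[X]) : SL(2, K[X]) :=
  ⟨!![1 + p * p, p; p, 1], by rw [Matrix.det_fin_two_of]; ring⟩

theorem pgen_mul_00 (p : K[X]) (g : SL(2, K[X])) :
    (pgen p * g) 0 0 = g 0 0 + p * (g 1 0 + p * g 0 0) := by
  simp [pgen, Matrix.mul_apply, Fin.sum_univ_two]
  ring

theorem pgen_mul_10 (p : K[X]) (g : SL(2, K[X])) :
    (pgen p * g) 1 0 = g 1 0 + p * g 0 0 := by
  simp [pgen, Matrix.mul_apply, Fin.sum_univ_two]
  ring

theorem pgen_inv (p : K[X]) : ((pgen p)⁻¹ : SL(2, K[X])) =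
    ⟨!![1, -p; -p, 1 + p * p], by rw [Matrix.det_fin_two_of]; ring⟩ := by
  ext i j
  rw [Matrix.SpecialLinearGroup.SL2_inv_expl]
  fin_cases i <;> fin_cases j <;> simp [pgen]

theorem pgen_inv_mul_00 (p : K[X]) (g : SL(2, K[X])) :
    ((pgen p)⁻¹ * g) 0 0 = g 0 0 + (-p) * g 1 0 := by
  rw [pgen_inv]
  simp [Matrix.mul_apply, Fin.sum_univ_two]

theorem pgen_inv_mul_10 (p : K[X]) (g : SL(2, K[X])) :
    ((pgen p)⁻¹ * g) 1 0 = g 1 0 + (-p) * (g 0 0 + (-p) * g 1 0) := by
  rw [pgen_inv]
  simp [Matrix.mul_apply, Fin.sum_univ_two]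
  ring

theorem col_ne_zero (g : SL(2, K[X])) : ¬ (g 0 0 = 0 ∧ g 1 0 = 0) := by
  rintro ⟨h1, h2⟩
  have hdet : g 0 0 * g 1 1 - g 0 1 * g 1 0 = 1 := by
    rw [← Matrix.det_fin_two]; exact g.2
  rw [h1, h2] at hdet
  simp at hdet

/-- The attracting sets of the generators. -/
def XX (n : ℕ) : Set SL(2, K[X]) :=
  {g | g 0 0 ≠ 0 ∧ g 1 0 ≠ 0 ∧ (g 0 0).natDegree = (g 1 0).natDegree + n}

/-- The attracting sets of the inverses of the generators. -/
def YY (n : ℕ) : Set SL(2, K[X]) :=
  {g | g 0 0 ≠ 0 ∧ g 1 0 ≠ 0 ∧ (g 1 0).natDegree = (g 0 0).natDegree + n}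

variable (K)

theorem pingpong :
    Function.Injective (FreeGroup.lift (fun i : ℕ => pgen ((X : K[X]) ^ (i + 1)))) := by
  refine FreeGroup.injective_lift_of_ping_pong (fun i : ℕ => pgen ((X : K[X]) ^ (i + 1)))
    (α := SL(2, K[X])) (fun i => XX (i + 1)) (fun i => YY (i + 1)) ?_ ?_ ?_ ?_ ?_ ?_
  · intro i
    refine ⟨⟨!![(X : K[X]) ^ (i + 1), -1; 1, 0], by rw [Matrix.det_fin_two_of]; ring⟩, ?_⟩
    refine ⟨?_, ?_, ?_⟩
    · simp
    · simp
    · simp
  · intro i j hij
    rw [Function.onFun, Set.disjoint_left]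
    rintro g ⟨_, _, h⟩ ⟨_, _, h'⟩
    omega
  · intro i j hij
    rw [Function.onFun, Set.disjoint_left]
    rintro g ⟨_, _, h⟩ ⟨_, _, h'⟩
    omega
  · intro i j
    rw [Set.disjoint_left]
    rintro g ⟨_, _, h⟩ ⟨_, _, h'⟩
    omega
  · rintro i _ ⟨g, hg, rfl⟩
    have hg' : ¬ (g 0 0 ≠ 0 ∧ g 1 0 ≠ 0 ∧ (g 1 0).natDegree = (g 0 0).natDegree + (i + 1)) := hg
    have h := key_degree (p := (X : K[X]) ^ (i + 1)) (n := i + 1) (natDegree_X_pow _)
      (Nat.succ_pos i) (col_ne_zero g) hg'
    change pgen ((X : K[X]) ^ (i + 1)) * g ∈ XX (i + 1)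
    refine ⟨?_, ?_, ?_⟩
    · rw [pgen_mul_00]; exact h.1
    · rw [pgen_mul_10]; exact h.2.1
    · rw [pgen_mul_00, pgen_mul_10]; exact h.2.2
  · rintro i _ ⟨g, hg, rfl⟩
    have hg' : ¬ (g 1 0 ≠ 0 ∧ g 0 0 ≠ 0 ∧ (g 0 0).natDegree = (g 1 0).natDegree + (i + 1)) := by
      rintro ⟨h1, h2, h3⟩
      exact hg ⟨h2, h1, h3⟩
    have h := key_degree (p := -((X : K[X]) ^ (i + 1))) (n := i + 1)
      (by rw [natDegree_neg]; exact natDegree_X_pow _)
      (Nat.succ_pos i) (fun h => col_ne_zero g ⟨h.2, h.1⟩) hg'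
    change (pgen ((X : K[X]) ^ (i + 1)))⁻¹ * g ∈ YY (i + 1)
    refine ⟨?_, ?_, ?_⟩
    · rw [pgen_inv_mul_00]; exact h.2.1
    · rw [pgen_inv_mul_10]; exact h.1
    · rw [pgen_inv_mul_00, pgen_inv_mul_10]; exact h.2.2

end PingPong

/-! ### Reduction to countably many letters -/

theorem map_eq_self {X : Type*} (L : List (X × Bool)) (f : X → X)
    (hf : ∀ x ∈ L, f x.1 = x.1) : FreeGroup.map f (FreeGroup.mk L) = FreeGroup.mk L := by
  rw [FreeGroup.map.mk]
  congr 1
  conv_rhs => rw [← List.map_id L]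
  refine List.map_congr_left fun x hx => ?_
  rw [hf x hx]
  rfl

theorem exists_map_nat {X : Type*} (w : FreeGroup X) (hw : w ≠ 1) :
    ∃ φ : X → ℕ, FreeGroup.map φ w ≠ 1 := by
  classical
  obtain ⟨L, rfl⟩ : ∃ L, FreeGroup.mk L = w := ⟨w.toWord, FreeGroup.mk_toWord⟩
  have hne : Nonempty X := by
    by_contra h
    rw [not_nonempty_iff] at h
    exact hw (Subsingleton.elim _ _)
  set S : Set X := {x | ∃ y ∈ L, y.1 = x} with hS
  have hfin : S.Finite := by
    have : S = (fun y : X × Bool => y.1) '' {y | y ∈ L} := by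
      ext x; simp [hS]
    rw [this]
    exact (List.finite_toSet L).image _
  obtain ⟨φ, hφ⟩ := Set.countable_iff_exists_injOn.mp hfin.countable
  refine ⟨φ, fun h => hw ?_⟩
  have h1 : FreeGroup.map (Function.invFunOn φ S) (FreeGroup.map φ (FreeGroup.mk L)) =
      FreeGroup.mk L := by
    rw [FreeGroup.map.comp]
    refine map_eq_self L _ fun x hx => ?_
    have hxS : x.1 ∈ S := ⟨x, hx, rfl⟩
    exact hφ.leftInvOn_invFunOn hxS
  rw [← h1, h, map_one]

theorem exists_hom_ne_one (p : ℕ) [Fact p.Prime] {X : Type*} (w : FreeGroup X) (hw : w ≠ 1) :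
    ∃ f : FreeGroup X →* SL(2, AlgebraicClosure (ZMod p)), f w ≠ 1 := by
  obtain ⟨φ, hφ⟩ := exists_map_nat w hw
  set K := AlgebraicClosure (ZMod p) with hK
  set Λ : FreeGroup ℕ →* SL(2, K[X]) :=
    FreeGroup.lift (fun i : ℕ => pgen ((Polynomial.X : K[X]) ^ (i + 1))) with hΛ
  have h1 : Λ (FreeGroup.map φ w) ≠ 1 := by
    intro h
    exact hφ (pingpong K (h.trans (map_one Λ).symm))
  have h2 : ∃ i j, (Λ (FreeGroup.map φ w)) i j ≠ (1 : SL(2, K[X])) i j := by
    by_contra h
    exact h1 (Matrix.SpecialLinearGroup.ext _ _ fun i j => by_contra fun hij => h ⟨i, j, hij⟩)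
  obtain ⟨i, j, hij⟩ := h2
  have hinf : Infinite K := IsAlgClosed.instInfinite
  obtain ⟨x, hx⟩ : ∃ x : K, (((Λ (FreeGroup.map φ w)) i j - (1 : SL(2, K[X])) i j)).eval x ≠ 0 := by
    by_contra h
    refine sub_ne_zero.mpr hij (Polynomial.funext fun x => ?_)
    rw [eval_zero]
    exact by_contra fun hx => h ⟨x, hx⟩
  refine ⟨(Matrix.SpecialLinearGroup.map (Polynomial.evalRingHom x)).comp
    (Λ.comp (FreeGroup.map φ)), fun h => hx ?_⟩
  have h3 := congrArg (fun g : SL(2, K) => g i j) h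
  simp only [MonoidHom.comp_apply] at h3
  rw [eval_sub, sub_eq_zero]
  have h4 : (Matrix.SpecialLinearGroup.map (Polynomial.evalRingHom x)
      (Λ (FreeGroup.map φ w))) i j = ((Λ (FreeGroup.map φ w)) i j).eval x := by
    rfl
  have h5 : ((1 : SL(2, K[X])) i j).eval x = (1 : SL(2, K)) i j := by
    fin_cases i <;> fin_cases j <;> simp
  rw [h5, ← h4]
  exact h3

/-! ### Finite bases -/

theorem finite_of_fg_freeGroup {X : Type*} [h : Group.FG (FreeGroup X)] : Finite X := by
  classical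
  obtain ⟨S, hS⟩ := h.out
  by_contra hinf
  rw [not_finite_iff_infinite] at hinf
  set F : Finset X := S.biUnion (fun s => (s.toWord.map Prod.fst).toFinset) with hF
  obtain ⟨x, hx⟩ := Infinite.exists_notMem_finset F
  set χ : FreeGroup X →* Multiplicative ℤ :=
    FreeGroup.lift (fun y => if y = x then Multiplicative.ofAdd 1 else 1) with hχ
  have h1 : ∀ s ∈ S, χ s = 1 := by
    intro s hs
    rw [← FreeGroup.mk_toWord (x := s), hχ, FreeGroup.lift_mk]
    refine List.prod_eq_one fun y hy => ?_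
    rw [List.mem_map] at hy
    obtain ⟨z, hz, rfl⟩ := hy
    have hzx : z.1 ≠ x := by
      rintro rfl
      refine hx (Finset.mem_biUnion.mpr ⟨s, hs, ?_⟩)
      rw [List.mem_toFinset, List.mem_map]
      exact ⟨z, hz, rfl⟩
    rw [if_neg hzx]
    cases z.2 <;> simp
  have h2 : Subgroup.closure (S : Set (FreeGroup X)) ≤ χ.ker := by
    rw [Subgroup.closure_le]
    intro s hs
    exact h1 s hs
  rw [hS] at h2
  have h3 : χ (FreeGroup.of x) = 1 := h2 (Subgroup.mem_top _)
  rw [hχ, FreeGroup.lift_apply_of, if_pos rfl] at h3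
  have h4 : (1 : ℤ) = 0 := Multiplicative.ofAdd.injective h3
  exact one_ne_zero h4

theorem finite_generators {B : Type*} [Group B] [IsFreeGroup B] [Group.FG B] :
    Finite (IsFreeGroup.Generators B) := by
  have h : Group.FG (FreeGroup (IsFreeGroup.Generators B)) :=
    Group.fg_of_surjective (f := (IsFreeGroup.toFreeGroup B).toMonoidHom)
      (IsFreeGroup.toFreeGroup B).surjective
  exact finite_of_fg_freeGroup

end Pool.Agent.H91.FP
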