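import Pool.Agent.H91.FP.Defs
import Pool.Agent.H91.FP.SL2

/-!
# Shift invariance and unirationality of the ideal of relations
-/

set_option autoImplicit false

namespace Pool.Agent.H91.FP

open MvPolynomial Matrix MatrixGroups

section Shift

variable {p : ℕ} [Fact p.Prime] {K : Type*} [Group K]

theorem fg_map {L : Type*} [Group L] (f : K →* L) {B : Subgroup K} (hB : B.FG) : (B.map f).FG := by
  classical
  obtain ⟨S, rfl⟩ := hB
  refine ⟨S.image f, ?_⟩
  rw [MonoidHom.map_closure, Finset.coe_image]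

theorem fg_comap (t : K ≃* K) {B : Subgroup K} (hB : B.FG) : (B.comap t.toMonoidHom).FG := by
  have h1 : B.comap t.toMonoidHom = B.map t.symm.toMonoidHom := by
    ext x
    constructor
    · intro hx
      exact ⟨t x, hx, t.symm_apply_apply x⟩
    · rintro ⟨y, hy, rfl⟩
      show t (t.symm y) ∈ B
      rw [t.apply_symm_apply]
      exact hy
  rw [h1]
  exact fg_map _ hB

theorem coords_shift {C : Type} [CommRing C] (g : ℕ → SL(2, C)) (n m : ℕ) :
    coords g (m + 4 * n) = coords (fun l => g (l + n)) m := by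
  have h1 : (m + 4 * n) / 4 = m / 4 + n := by omega
  have h2 : (⟨(m + 4 * n) % 4 / 2, by omega⟩ : Fin 2) = ⟨m % 4 / 2, by omega⟩ := by
    apply Fin.ext
    show (m + 4 * n) % 4 / 2 = m % 4 / 2
    omega
  have h3 : (⟨(m + 4 * n) % 2, by omega⟩ : Fin 2) = ⟨m % 2, by omega⟩ := by
    apply Fin.ext
    show (m + 4 * n) % 2 = m % 2
    omega
  unfold coords
  rw [h1, h2, h3]

theorem coords_congr {C : Type} [CommRing C] {g g' : ℕ → SL(2, C)} {m : ℕ}
    (h : g (m / 4) = g' (m / 4)) : coords g m = coords g' m := by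
  unfold coords
  rw [h]

theorem pt_shift (h : ℕ → K) (t : K ≃* K) (n : ℕ) (ht : ∀ l, h (l + n) = t (h l))
    (C B : Subgroup K) (hCB : ∀ x, t x ∈ C ↔ x ∈ B)
    (σ : C →* SL(2, AlgebraicClosure (ZMod p))) (ρ : B →* SL(2, AlgebraicClosure (ZMod p)))
    (hσ : ∀ (x : K) (h1 : t x ∈ C) (h2 : x ∈ B), σ ⟨t x, h1⟩ = ρ ⟨x, h2⟩) (l : ℕ) :
    pt h C σ (l + n) = pt h B ρ l := by
  unfold pt
  by_cases hl : h l ∈ B
  · have hl' : h (l + n) ∈ C := by rw [ht]; exact (hCB _).2 hl
    rw [dif_pos hl, dif_pos hl']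
    have : (⟨h (l + n), hl'⟩ : C) = ⟨t (h l), (hCB _).2 hl⟩ := Subtype.ext (ht l)
    rw [this]
    exact hσ _ _ _
  · have hl' : h (l + n) ∉ C := by rw [ht]; exact fun hh => hl ((hCB _).1 hh)
    rw [dif_neg hl, dif_neg hl']

theorem aeval_shift (h : ℕ → K) (t : K ≃* K) (n : ℕ) (ht : ∀ l, h (l + n) = t (h l))
    (C B : Subgroup K) (hCB : ∀ x, t x ∈ C ↔ x ∈ B)
    (σ : C →* SL(2, AlgebraicClosure (ZMod p))) (ρ : B →* SL(2, AlgebraicClosure (ZMod p)))
    (hσ : ∀ (x : K) (h1 : t x ∈ C) (h2 : x ∈ B), σ ⟨t x, h1⟩ = ρ ⟨x, h2⟩)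
    (F : MvPolynomial ℕ (ZMod p)) :
    aeval (coords (pt h C σ)) (rename (fun l => l + 4 * n) F) = aeval (coords (pt h B ρ)) F := by
  rw [aeval_rename]
  congr 1
  congr 1
  funext m
  show coords (pt h C σ) (m + 4 * n) = coords (pt h B ρ) m
  rw [coords_shift]
  exact coords_congr (pt_shift h t n ht C B hCB σ ρ hσ _)

/-- FP10a -/
theorem relIdeal_shift (p : ℕ) [Fact p.Prime] {K : Type*} [Group K] (h : ℕ → K) (t : K ≃* K)
    (n : ℕ) (ht : ∀ l, h (l + n) = t (h l)) (F : MvPolynomial ℕ (ZMod p)) :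
    F ∈ relIdeal p h ↔ rename (fun l => l + 4 * n) F ∈ relIdeal p h := by
  rw [mem_relIdeal, mem_relIdeal]
  constructor
  · rintro ⟨B₀, h0, H⟩
    refine ⟨B₀.map t.toMonoidHom, fg_map _ h0, fun C hC hle σ => ?_⟩
    -- the subgroup of all `x` with `t x ∈ C`
    have hB : (C.comap t.toMonoidHom).FG := fg_comap t hC
    have hle' : B₀ ≤ C.comap t.toMonoidHom := Subgroup.map_le_iff_le_comap.1 hle
    let ρ : (C.comap t.toMonoidHom) →* SL(2, AlgebraicClosure (ZMod p)) :=
      σ.comp ((t.toMonoidHom.comp (C.comap t.toMonoidHom).subtype).codRestrict C fun x => x.2)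
    rw [aeval_shift h t n ht C (C.comap t.toMonoidHom) (fun x => Iff.rfl) σ ρ
      (fun x h1 h2 => rfl) F]
    exact H _ hB hle' ρ
  · rintro ⟨B₀, h0, H⟩
    refine ⟨B₀.comap t.toMonoidHom, fg_comap t h0, fun B hB hle ρ => ?_⟩
    · have hC : (B.map t.toMonoidHom).FG := fg_map _ hB
      have hle' : B₀ ≤ B.map t.toMonoidHom := by
        intro x hx
        refine ⟨t.symm x, hle ?_, t.apply_symm_apply x⟩
        show t (t.symm x) ∈ B₀
        rw [t.apply_symm_apply]
        exact hx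
      let σ : (B.map t.toMonoidHom) →* SL(2, AlgebraicClosure (ZMod p)) :=
        ρ.comp ((t.symm.toMonoidHom.comp (B.map t.toMonoidHom).subtype).codRestrict B (by
          rintro ⟨x, y, hy, rfl⟩
          show t.symm (t y) ∈ B
          rw [t.symm_apply_apply]
          exact hy))
      have hCB : ∀ x, t x ∈ B.map t.toMonoidHom ↔ x ∈ B := by
        intro x
        constructor
        · rintro ⟨y, hy, hxy⟩
          have : y = x := t.injective hxy
          exact this ▸ hy
        · intro hx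
          exact ⟨x, hx, rfl⟩
      rw [← aeval_shift h t n ht (B.map t.toMonoidHom) B hCB σ ρ (fun x h1 h2 => ?_) F]
      · exact H _ hC hle' σ
      · show ρ _ = ρ _
        congr 1
        apply Subtype.ext
        exact t.symm_apply_apply x

end Shift

section Unirational

/-- The upper unipotent matrix. -/
def eM {C : Type*} [CommRing C] (x : C) : SL(2, C) :=
  ⟨!![1, x; 0, 1], by rw [Matrix.det_fin_two]; simp⟩

/-- The lower unipotent matrix. -/
def fM {C : Type*} [CommRing C] (x : C) : SL(2, C) :=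
  ⟨!![1, 0; x, 1], by rw [Matrix.det_fin_two]; simp⟩

theorem map_eM {C D : Type*} [CommRing C] [CommRing D] (f : C →+* D) (x : C) :
    Matrix.SpecialLinearGroup.map f (eM x) = eM (f x) := by
  apply Subtype.ext
  ext i j
  fin_cases i <;> fin_cases j <;> simp [eM]

theorem map_fM {C D : Type*} [CommRing C] [CommRing D] (f : C →+* D) (x : C) :
    Matrix.SpecialLinearGroup.map f (fM x) = fM (f x) := by
  apply Subtype.ext
  ext i j
  fin_cases i <;> fin_cases j <;> simp [fM]

/-- The product `E F E F` at a quadruple. -/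
def efef {C : Type*} [CommRing C] (u : Fin 4 → C) : SL(2, C) :=
  eM (u 0) * fM (u 1) * eM (u 2) * fM (u 3)

theorem map_efef {C D : Type*} [CommRing C] [CommRing D] (f : C →+* D) (u : Fin 4 → C) :
    Matrix.SpecialLinearGroup.map f (efef u) = efef (fun i => f (u i)) := by
  unfold efef
  simp only [map_mul, map_eM, map_fM]

/-- Coordinates commute with ring maps. -/
theorem map_coords {C D : Type} [CommRing C] [CommRing D] (f : C →+* D) (g : ℕ → SL(2, C))
    (m : ℕ) : f (coords g m) = coords (fun l => Matrix.SpecialLinearGroup.map f (g l)) m := rfl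

variable {p : ℕ} [Fact p.Prime] {K : Type*} [Group K]

/-- The ideal of the polynomials in the first `N` coordinates which vanish on all
representations of `B`. -/
noncomputable def vanB (p : ℕ) [Fact p.Prime] (h : ℕ → K) (N : ℕ) (B : Subgroup K) :
    Ideal (MvPolynomial (Fin N) (ZMod p)) where
  carrier := {F | ∀ ρ : B →* SL(2, AlgebraicClosure (ZMod p)),
    aeval (fun i : Fin N => coords (pt h B ρ) i) F = 0}
  zero_mem' := fun ρ => map_zero _
  add_mem' := by
    intro F G hF hG ρ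
    rw [map_add, hF ρ, hG ρ, add_zero]
  smul_mem' := by
    intro c F hF ρ
    rw [smul_eq_mul, map_mul, hF ρ, mul_zero]

theorem mem_vanB {h : ℕ → K} {N : ℕ} {B : Subgroup K} {F : MvPolynomial (Fin N) (ZMod p)} :
    F ∈ vanB p h N B ↔ ∀ ρ : B →* SL(2, AlgebraicClosure (ZMod p)),
      aeval (fun i : Fin N => coords (pt h B ρ) i) F = 0 := Iff.rfl

/-- The subgroup generated by the first elements. -/
def baseB (h : ℕ → K) (N : ℕ) : Subgroup K := Subgroup.closure (h '' {l | l ≤ N})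

theorem baseB_fg (h : ℕ → K) (N : ℕ) : (baseB h N).FG := by
  classical
  refine ⟨(Finset.range (N + 1)).image h, ?_⟩
  unfold baseB
  congr 1
  ext x
  simp

theorem mem_baseB (h : ℕ → K) {N l : ℕ} (hl : l ≤ N) : h l ∈ baseB h N :=
  Subgroup.subset_closure ⟨l, hl, rfl⟩

theorem pt_restrict (h : ℕ → K) {N : ℕ} {B C : Subgroup K} (hB : baseB h N ≤ B) (hBC : B ≤ C)
    (σ : C →* SL(2, AlgebraicClosure (ZMod p))) {l : ℕ} (hl : l ≤ N) :
    pt h B (σ.comp (Subgroup.inclusion hBC)) l = pt h C σ l := by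
  unfold pt
  have h1 : h l ∈ B := hB (mem_baseB h hl)
  rw [dif_pos h1, dif_pos (hBC h1)]
  rfl

theorem vanB_mono (h : ℕ → K) {N : ℕ} {B C : Subgroup K} (hB : baseB h N ≤ B) (hBC : B ≤ C) :
    vanB p h N B ≤ vanB p h N C := by
  intro F hF
  rw [mem_vanB] at hF ⊢
  intro σ
  rw [← hF (σ.comp (Subgroup.inclusion hBC))]
  congr 1
  congr 1
  funext i
  refine coords_congr (pt_restrict h hB hBC σ ?_).symm
  have := i.2
  omega

/-- There is a finitely generated subgroup after which the ideals are constant. -/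
theorem exists_stable (p : ℕ) [Fact p.Prime] (h : ℕ → K) (N : ℕ) : ∃ B : Subgroup K, B.FG ∧
    baseB h N ≤ B ∧ ∀ C : Subgroup K, C.FG → B ≤ C → vanB p h N C = vanB p h N B := by
  obtain ⟨J, ⟨B, hB, hle, rfl⟩, hmax⟩ := set_has_maximal_iff_noetherian.2
    (inferInstance : IsNoetherian (MvPolynomial (Fin N) (ZMod p)) (MvPolynomial (Fin N) (ZMod p)))
    {J | ∃ B : Subgroup K, B.FG ∧ baseB h N ≤ B ∧ vanB p h N B = J}
    ⟨_, baseB h N, baseB_fg h N, le_rfl, rfl⟩
  refine ⟨B, hB, hle, fun C hC hBC => ?_⟩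
  have h1 : vanB p h N B ≤ vanB p h N C := vanB_mono h hle hBC
  by_contra hne
  exact hmax (vanB p h N C) ⟨C, hC, hle.trans hBC, rfl⟩ (lt_of_le_of_ne h1 (Ne.symm hne))

theorem mem_relIdeal_iff_vanB (h : ℕ → K) {N : ℕ} {B : Subgroup K} (hB : B.FG)
    (hst : ∀ C : Subgroup K, C.FG → B ≤ C → vanB p h N C = vanB p h N B)
    (F : MvPolynomial (Fin N) (ZMod p)) :
    rename (fun i : Fin N => (i : ℕ)) F ∈ relIdeal p h ↔ F ∈ vanB p h N B := by
  rw [mem_relIdeal]
  constructor
  · rintro ⟨B₀, h0, H⟩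
    rw [← hst (B₀ ⊔ B) (h0.sup hB) le_sup_right, mem_vanB]
    intro ρ
    have := H (B₀ ⊔ B) (h0.sup hB) le_sup_left ρ
    rw [aeval_rename] at this
    exact this
  · intro hF
    refine ⟨B, hB, fun C hC hBC σ => ?_⟩
    rw [← hst C hC hBC, mem_vanB] at hF
    rw [aeval_rename]
    exact hF σ

/-- A polynomial over the prime field which vanishes at all points over the algebraic closure
is zero. -/
theorem eq_zero_of_aeval {ι : Type*} (q : MvPolynomial ι (ZMod p))
    (hq : ∀ u : ι → AlgebraicClosure (ZMod p), aeval u q = 0) : q = 0 := by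
  have h1 : MvPolynomial.map (algebraMap (ZMod p) (AlgebraicClosure (ZMod p))) q = 0 := by
    apply MvPolynomial.funext
    intro u
    rw [map_zero, MvPolynomial.eval_map, ← MvPolynomial.aeval_def]
    exact hq u
  exact MvPolynomial.map_injective _ (algebraMap (ZMod p) (AlgebraicClosure (ZMod p))).injective
    (by rw [h1, map_zero])

/-- The generic sequence of matrices of a free subgroup. -/
noncomputable def genPt (p : ℕ) [Fact p.Prime] (h : ℕ → K) (B : Subgroup K) {r : ℕ}
    (e : FreeGroup (Fin r) ≃* B) (l : ℕ) :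
    SL(2, MvPolynomial (Fin r × Fin 4) (ZMod p)) :=
  open Classical in
  if hl : h l ∈ B then
    FreeGroup.lift (fun x : Fin r => efef fun i : Fin 4 =>
      (X (x, i) : MvPolynomial (Fin r × Fin 4) (ZMod p))) (e.symm ⟨h l, hl⟩)
  else 1

/-- The representation at a point. -/
noncomputable def repAt (B : Subgroup K) {r : ℕ} (e : FreeGroup (Fin r) ≃* B)
    (u : Fin r × Fin 4 → AlgebraicClosure (ZMod p)) : B →* SL(2, AlgebraicClosure (ZMod p)) :=
  (FreeGroup.lift (fun x : Fin r => efef fun i : Fin 4 => u (x, i))).comp e.symm.toMonoidHom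

theorem map_genPt (h : ℕ → K) (B : Subgroup K) {r : ℕ} (e : FreeGroup (Fin r) ≃* B)
    (u : Fin r × Fin 4 → AlgebraicClosure (ZMod p)) (l : ℕ) :
    Matrix.SpecialLinearGroup.map (aeval u : MvPolynomial (Fin r × Fin 4) (ZMod p) →ₐ[ZMod p]
      AlgebraicClosure (ZMod p)).toRingHom (genPt p h B e l) = pt h B (repAt B e u) l := by
  unfold genPt pt
  by_cases hl : h l ∈ B
  · rw [dif_pos hl, dif_pos hl]
    have key : (Matrix.SpecialLinearGroup.map (aeval u : MvPolynomial (Fin r × Fin 4) (ZMod p)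
        →ₐ[ZMod p] AlgebraicClosure (ZMod p)).toRingHom).comp
        (FreeGroup.lift (fun x : Fin r => efef fun i : Fin 4 =>
          (X (x, i) : MvPolynomial (Fin r × Fin 4) (ZMod p)))) =
        FreeGroup.lift (fun x : Fin r => efef fun i : Fin 4 => u (x, i)) := by
      ext x : 1
      rw [MonoidHom.comp_apply, FreeGroup.lift_apply_of, FreeGroup.lift_apply_of, map_efef]
      congr 1
      funext i
      exact aeval_X u (x, i)
    exact DFunLike.congr_fun key (e.symm ⟨h l, hl⟩)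
  · rw [dif_neg hl, dif_neg hl, map_one]

/-- The evaluation map at the generic sequence. -/
noncomputable def genHom (p : ℕ) [Fact p.Prime] (h : ℕ → K) (B : Subgroup K) {r : ℕ}
    (e : FreeGroup (Fin r) ≃* B) :
    MvPolynomial ℕ (ZMod p) →ₐ[ZMod p] MvPolynomial (Fin r × Fin 4) (ZMod p) :=
  aeval (coords (genPt p h B e))

theorem aeval_genHom (h : ℕ → K) (B : Subgroup K) {r : ℕ} (e : FreeGroup (Fin r) ≃* B)
    (u : Fin r × Fin 4 → AlgebraicClosure (ZMod p)) (F : MvPolynomial ℕ (ZMod p)) :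
    aeval u (genHom p h B e F) = aeval (coords (pt h B (repAt B e u))) F := by
  have key : (aeval u : MvPolynomial (Fin r × Fin 4) (ZMod p) →ₐ[ZMod p]
      AlgebraicClosure (ZMod p)).comp (genHom p h B e) =
      aeval (coords (pt h B (repAt B e u))) := by
    ext m
    rw [AlgHom.comp_apply, genHom, aeval_X, aeval_X]
    have h1 := map_coords (aeval u : MvPolynomial (Fin r × Fin 4) (ZMod p) →ₐ[ZMod p]
      AlgebraicClosure (ZMod p)).toRingHom (genPt p h B e) m
    refine h1.trans ?_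
    exact coords_congr (map_genPt h B e u _)
  exact DFunLike.congr_fun key F

/-- Every representation is a specialisation of the generic one. -/
theorem exists_repAt
    (hEF : ∀ g : SL(2, AlgebraicClosure (ZMod p)), ∃ x y z w : AlgebraicClosure (ZMod p),
      (g : Matrix (Fin 2) (Fin 2) (AlgebraicClosure (ZMod p))) =
        !![1, x; 0, 1] * !![1, 0; y, 1] * !![1, z; 0, 1] * !![1, 0; w, 1])
    (B : Subgroup K) {r : ℕ} (e : FreeGroup (Fin r) ≃* B)
    (ρ : B →* SL(2, AlgebraicClosure (ZMod p))) : ∃ u, repAt B e u = ρ := by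
  have h1 : ∀ x : Fin r, ∃ v : Fin 4 → AlgebraicClosure (ZMod p),
      efef v = ρ (e (FreeGroup.of x)) := by
    intro x
    obtain ⟨a, b, c, d, habcd⟩ := hEF (ρ (e (FreeGroup.of x)))
    refine ⟨![a, b, c, d], Subtype.ext ?_⟩
    rw [habcd]
    rfl
  choose v hv using h1
  refine ⟨fun xi => v xi.1 xi.2, ?_⟩
  have key : FreeGroup.lift (fun x : Fin r => efef fun i : Fin 4 => v x i) =
      ρ.comp e.toMonoidHom := by
    ext x : 1
    rw [FreeGroup.lift_apply_of]
    exact hv x
  ext1 b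
  have := DFunLike.congr_fun key (e.symm b)
  refine this.trans ?_
  show ρ (e (e.symm b)) = ρ b
  rw [e.apply_symm_apply]

theorem mem_vanB_iff_genHom
    (hEF : ∀ g : SL(2, AlgebraicClosure (ZMod p)), ∃ x y z w : AlgebraicClosure (ZMod p),
      (g : Matrix (Fin 2) (Fin 2) (AlgebraicClosure (ZMod p))) =
        !![1, x; 0, 1] * !![1, 0; y, 1] * !![1, z; 0, 1] * !![1, 0; w, 1])
    (h : ℕ → K) (N : ℕ) (B : Subgroup K) {r : ℕ} (e : FreeGroup (Fin r) ≃* B)
    (F : MvPolynomial (Fin N) (ZMod p)) :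
    F ∈ vanB p h N B ↔ genHom p h B e (rename (fun i : Fin N => (i : ℕ)) F) = 0 := by
  rw [mem_vanB]
  constructor
  · intro H
    apply eq_zero_of_aeval
    intro u
    rw [aeval_genHom, aeval_rename]
    exact H (repAt B e u)
  · intro H ρ
    obtain ⟨u, rfl⟩ := exists_repAt hEF B e ρ
    have h1 := aeval_genHom h B e u (rename (fun i : Fin N => (i : ℕ)) F)
    rw [H, map_zero, aeval_rename] at h1
    exact h1.symm

theorem relIdeal_unirational_of (p : ℕ) [Fact p.Prime] {K : Type*} [Group K]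
    (hEF : ∀ g : SL(2, AlgebraicClosure (ZMod p)), ∃ x y z w : AlgebraicClosure (ZMod p),
      (g : Matrix (Fin 2) (Fin 2) (AlgebraicClosure (ZMod p))) =
        !![1, x; 0, 1] * !![1, 0; y, 1] * !![1, z; 0, 1] * !![1, 0; w, 1])
    (hfg : ∀ (B : Subgroup K) [IsFreeGroup B], B.FG → Finite (IsFreeGroup.Generators B))
    (hfree : ∀ B : Subgroup K, B.FG → IsFreeGroup B) (h : ℕ → K) (N : ℕ) :
    ∃ (c : ℕ) (φ : MvPolynomial ℕ (ZMod p) →ₐ[ZMod p] MvPolynomial (Fin c) (ZMod p)),
      ∀ F ∈ supported (ZMod p) {l | l < N}, F ∈ relIdeal p h ↔ φ F = 0 := by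
  obtain ⟨B, hB, -, hst⟩ := exists_stable p h N
  have := hfree B hB
  have := hfg B hB
  obtain ⟨r, ⟨er⟩⟩ := Finite.exists_equiv_fin (IsFreeGroup.Generators B)
  let e : FreeGroup (Fin r) ≃* B :=
    (FreeGroup.freeGroupCongr er.symm).trans (IsFreeGroup.toFreeGroup B).symm
  refine ⟨r * 4, (renameEquiv (ZMod p) finProdFinEquiv).toAlgHom.comp (genHom p h B e), ?_⟩
  intro F hF
  obtain ⟨G, rfl⟩ : ∃ G : MvPolynomial (Fin N) (ZMod p),
      rename (fun i : Fin N => (i : ℕ)) G = F := by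
    rw [supported_eq_range_rename] at hF
    obtain ⟨G, rfl⟩ := hF
    refine ⟨rename (fun x : {l : ℕ | l < N} => (⟨x.1, x.2⟩ : Fin N)) G, ?_⟩
    rw [rename_rename]
    rfl
  rw [mem_relIdeal_iff_vanB h hB hst, mem_vanB_iff_genHom hEF h N B e]
  rw [AlgHom.comp_apply]
  exact ((renameEquiv (ZMod p) finProdFinEquiv).map_eq_zero_iff).symm

/-- FP10b -/
theorem relIdeal_unirational (p : ℕ) [Fact p.Prime] {K : Type*} [Group K]
    (hfree : ∀ B : Subgroup K, B.FG → IsFreeGroup B) (h : ℕ → K) (N : ℕ) :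
    ∃ (c : ℕ) (φ : MvPolynomial ℕ (ZMod p) →ₐ[ZMod p] MvPolynomial (Fin c) (ZMod p)),
      ∀ F ∈ supported (ZMod p) {l | l < N}, F ∈ relIdeal p h ↔ φ F = 0 := by
  refine relIdeal_unirational_of p (fun g => exists_EFEF g) (fun B _ hB => ?_) hfree h N
  have : Group.FG B := (Group.fg_iff_subgroup_fg B).2 hB
  exact finite_generators

end Unirational

end Pool.Agent.H91.FP
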