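import Pool.Agent.H91.FP.PartC
import Pool.Agent.H91.FP.Inv
import Pool.Agent.H91.FP.Univ
import Pool.Agent.H91.FP.Rep

/-!
# Invariant subgroups of finite index in locally free groups
-/

set_option autoImplicit false

open MvPolynomial Matrix MatrixGroups

namespace Pool.Agent.H91.FP

/-- nontrivial elements are seen by a polynomial outside the ideal -/
theorem exists_notMem (p : ℕ) [Fact p.Prime] {K : Type*} [Group K]
    (hfree : ∀ B : Subgroup K, B.FG → IsFreeGroup B) (h : ℕ → K) (w : FreeGroup ℕ)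
    (hw : FreeGroup.lift h w ≠ 1) :
    ∃ F : MvPolynomial ℕ (ZMod p), F ∉ relIdeal p h ∧
      ∀ g : ℕ → SL(2, AlgebraicClosure (ZMod p)), aeval (coords g) F ≠ 0 →
        FreeGroup.lift g w ≠ 1 :=
  exists_notMem_of p (fun _ _ w hw => exists_hom_ne_one p w hw) hfree h w hw

theorem exists_invariant {K : Type*} [Group K] (hfree : ∀ B : Subgroup K, B.FG → IsFreeGroup B)
    (t : MulAut K) (n : ℕ) (a : Fin n → K)
    (hgen : Subgroup.closure {x | ∃ (i : Fin n) (j : ℤ), x = (t ^ j) (a i)} = ⊤)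
    (g : K) (hg : g ≠ 1) :
    ∃ N : Subgroup K, N.Normal ∧ N.FiniteIndex ∧ (∀ x, t x ∈ N ↔ x ∈ N) ∧ g ∉ N :=
  exists_invariant_of 2 (fun J n hn hS hU F hF => partC 2 J n hn hS hU F hF)
    (fun h t n ht F => relIdeal_shift 2 h t n ht F) (fun hf h N => relIdeal_unirational 2 hf h N)
    (fun h y hy => hom_of_zero 2 h y hy) (fun hf h w hw => exists_notMem 2 hf h w hw)
    hfree t n a hgen g hg

end Pool.Agent.H91.FP
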