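import Pool.Agent.H91.FP.MalcevC

/-!
# Residual finiteness: `resFin_cyclic`, `resFin_extend`, `resFin_abelian` (collected)
-/
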