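import Pool.Agent.H91.ResFinMain

/-!
# Residual finiteness of cyclic and abelian extensions (after Mal'cev)

* `resFin_extend`: a group generated by a finitely generated residually finite normal subgroup and
  one more element is residually finite.
* `resFin_abelian`: a finitely generated group with a finitely generated residually finite
  subgroup containing the derived subgroup is residually finite.
-/

open scoped commutatorElement

namespace Pool.Agent.H91.FP

/-- Homomorphisms from a finitely generated group to a finite group form a finite type. -/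
theorem finite_monoidHom {H Q : Type*} [Group H] [Group.FG H] [Group Q] [Finite Q] :
    Finite (H →* Q) := by
  obtain ⟨S, hS⟩ := Group.fg_def.1 ‹Group.FG H›
  refine Finite.of_injective (fun (f : H →* Q) (x : S) => f x) fun f f' h => ?_
  refine MonoidHom.eq_of_eqOn_top ?_
  rw [← hS]
  have h1 : Set.EqOn f f' (S : Set H) := fun x hx => congrFun h ⟨x, hx⟩
  exact MonoidHom.eqOn_closure h1

/-- A characteristic subgroup of finite index avoiding a given nontrivial element. -/
theorem exists_characteristic {H : Type*} [Group H] [Group.FG H] [Group.ResiduallyFinite H]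
    (h : H) (hh : h ≠ 1) :
    ∃ C : Subgroup H, C.Characteristic ∧ C.FiniteIndex ∧ h ∉ C := by
  obtain ⟨U, hU⟩ := Group.exists_finiteIndexNormalSubgroup_notMem h hh
  have hUn : U.toSubgroup.Normal := inferInstance
  have hUf : U.toSubgroup.FiniteIndex := inferInstance
  have hQ : Finite (H ⧸ U.toSubgroup) := inferInstance
  have hfin : Finite (H →* H ⧸ U.toSubgroup) := finite_monoidHom
  refine ⟨⨅ f : H →* H ⧸ U.toSubgroup, f.ker, ?_, ?_, ?_⟩
  · rw [Subgroup.characteristic_iff_le_comap]
    intro φ x hx
    rw [Subgroup.mem_comap, Subgroup.mem_iInf]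
    intro f
    have := Subgroup.mem_iInf.1 hx (f.comp φ.toMonoidHom)
    exact this
  · exact Subgroup.finiteIndex_iInf fun f => Subgroup.finiteIndex_ker f
  · intro hC
    have h1 := Subgroup.mem_iInf.1 hC (QuotientGroup.mk' U.toSubgroup)
    rw [QuotientGroup.ker_mk'] at h1
    exact hU h1

theorem resFin_of_injective {G K : Type*} [Group G] [Group K] (f : G →* K)
    (hf : Function.Injective f) (hK : Group.ResiduallyFinite K) : Group.ResiduallyFinite G := by
  rw [Group.residuallyFinite_iff_exists_finiteIndex] at hK ⊢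
  intro g hg
  exact exists_finiteIndex_of_hom f g (hK (f g) fun h => hg (hf (by rw [h, map_one])))

theorem exists_mul_zpow {G : Type*} [Group G] (H : Subgroup G) [H.Normal] (θ : G)
    (hθ : H ⊔ Subgroup.zpowers θ = ⊤) (x : G) : ∃ h ∈ H, ∃ j : ℤ, h * θ ^ j = x := by
  have hx : x ∈ H ⊔ Subgroup.zpowers θ := by rw [hθ]; trivial
  rw [← SetLike.mem_coe, Subgroup.normal_mul] at hx
  obtain ⟨h, hh, y, hy, rfl⟩ := hx
  obtain ⟨j, rfl⟩ := Subgroup.mem_zpowers_iff.1 hy
  exact ⟨h, hh, j, rfl⟩

theorem commutator_le_of_sup_zpowers {G : Type*} [Group G] (H : Subgroup G) [H.Normal] (θ : G)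
    (hθ : H ⊔ Subgroup.zpowers θ = ⊤) : commutator G ≤ H := by
  have key : ∀ x : G, ∃ j : ℤ, QuotientGroup.mk' H x = (QuotientGroup.mk' H θ) ^ j := by
    intro x
    obtain ⟨h, hh, j, rfl⟩ := exists_mul_zpow H θ hθ x
    refine ⟨j, ?_⟩
    rw [map_mul, map_zpow]
    have h1 : QuotientGroup.mk' H h = 1 := (QuotientGroup.eq_one_iff h).2 hh
    rw [h1, one_mul]
  rw [commutator_def, Subgroup.commutator_le]
  intro x _ y _
  obtain ⟨j, hj⟩ := key x
  obtain ⟨k, hk⟩ := key y
  rw [← QuotientGroup.ker_mk' H, MonoidHom.mem_ker, map_commutatorElement, hj, hk,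
    commutatorElement_eq_one_iff_mul_comm]
  exact ((Commute.refl _).zpow_zpow j k)

/-- In a finitely generated group, elements outside a subgroup containing the derived subgroup
are detected by finite quotients. -/
theorem exists_finiteIndex_of_commutator_le {G : Type*} [Group G] [Group.FG G] (H : Subgroup G)
    (hc : commutator G ≤ H) (g : G) (hg : g ∉ H) : ∃ U : Subgroup G, U.FiniteIndex ∧ g ∉ U := by
  have hn : H.Normal := ⟨fun n hn g => by
    have h1 : ⁅g, n⁆ ∈ H := hc (Subgroup.commutator_mem_commutator (Subgroup.mem_top g)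
      (Subgroup.mem_top n))
    have h2 : g * n * g⁻¹ = ⁅g, n⁆ * n := by rw [commutatorElement_def]; group
    rw [h2]
    exact H.mul_mem h1 hn⟩
  let _ : CommGroup (G ⧸ H) :=
    { (inferInstance : Group (G ⧸ H)) with
      mul_comm := by
        intro a b
        obtain ⟨x, rfl⟩ := QuotientGroup.mk'_surjective H a
        obtain ⟨y, rfl⟩ := QuotientGroup.mk'_surjective H b
        have h1 : ⁅x, y⁆ ∈ H := hc (Subgroup.commutator_mem_commutator (Subgroup.mem_top x)
          (Subgroup.mem_top y))
        rw [← QuotientGroup.ker_mk' H, MonoidHom.mem_ker, map_commutatorElement,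
          commutatorElement_eq_one_iff_mul_comm] at h1
        exact h1 }
  have hfg : Group.FG (G ⧸ H) := inferInstance
  refine exists_finiteIndex_of_hom (QuotientGroup.mk' H) g ?_
  refine exists_finiteIndex_of_comm _ ?_
  intro h
  exact hg ((QuotientGroup.eq_one_iff g).1 h)

/-- Mal'cev: a group generated by a finitely generated residually finite normal subgroup and one
more element is residually finite. -/
theorem resFin_extend {G : Type*} [Group G] (H : Subgroup G) [H.Normal] [Group.FG H]
    (hH : Group.ResiduallyFinite H) (θ : G) (hθ : H ⊔ Subgroup.zpowers θ = ⊤) :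
    Group.ResiduallyFinite G := by
  have hcomm := commutator_le_of_sup_zpowers H θ hθ
  have hHfg : H.FG := (Group.fg_iff_subgroup_fg H).1 ‹_›
  have hGfg : Group.FG G := by
    rw [Group.fg_def, ← hθ]
    refine hHfg.sup ?_
    exact ⟨{θ}, by rw [Finset.coe_singleton, ← Subgroup.zpowers_eq_closure]⟩
  rw [Group.residuallyFinite_iff_exists_finiteIndex]
  intro g hg
  by_cases hgH : g ∈ H
  · obtain ⟨C, hC1, hC2, hC3⟩ := exists_characteristic (⟨g, hgH⟩ : H)
      (fun h => hg (congrArg Subtype.val h))
    have hn : (C.map H.subtype).Normal := inferInstance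
    have hgC : g ∉ C.map H.subtype := by
      rintro ⟨x, hx, hxg⟩
      apply hC3
      have : x = ⟨g, hgH⟩ := Subtype.ext hxg
      rwa [← this]
    have hfin : Finite (commutatorSet (G ⧸ C.map H.subtype)) := by
      refine finite_commutatorSet (QuotientGroup.mk' (C.map H.subtype))
        (QuotientGroup.mk'_surjective _) H (C.map H.subtype) hcomm
        (by rw [QuotientGroup.ker_mk']) ?_
      rw [Subgroup.relIndex, Subgroup.subgroupOf, Subgroup.comap_map_eq_self_of_injective
        H.subtype_injective]
      exact hC2.index_ne_zero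
    refine exists_finiteIndex_of_hom (QuotientGroup.mk' (C.map H.subtype)) g ?_
    refine exists_finiteIndex_of_finite_commutatorSet _ ?_
    intro h
    exact hgC ((QuotientGroup.eq_one_iff g).1 h)
  · exact exists_finiteIndex_of_commutator_le H hcomm g hgH

/-- One step of the induction. -/
theorem resFin_step {G : Type*} [Group G] (L : Subgroup G) [L.Normal] (hfg : L.FG)
    (hL : Group.ResiduallyFinite L) (x : G) :
    (L ⊔ Subgroup.zpowers x).FG ∧ Group.ResiduallyFinite (L ⊔ Subgroup.zpowers x : Subgroup G) := by
  set K : Subgroup G := L ⊔ Subgroup.zpowers x with hK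
  have hLK : L ≤ K := le_sup_left
  have hxK : x ∈ K := (le_sup_right : Subgroup.zpowers x ≤ K) (Subgroup.mem_zpowers x)
  refine ⟨hfg.sup ⟨{x}, by rw [Finset.coe_singleton, ← Subgroup.zpowers_eq_closure]⟩, ?_⟩
  have e : L.subgroupOf K ≃* L := Subgroup.subgroupOfEquivOfLe hLK
  have hn : (L.subgroupOf K).Normal := inferInstance
  have h1 : Group.FG L := (Group.fg_iff_subgroup_fg L).2 hfg
  have h2 : Group.FG (L.subgroupOf K) := Group.fg_of_surjective (f := e.symm.toMonoidHom)
    e.symm.surjective
  have h3 : Group.ResiduallyFinite (L.subgroupOf K) :=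
    resFin_of_injective e.toMonoidHom e.injective hL
  refine resFin_extend (L.subgroupOf K) h3 ⟨x, hxK⟩ ?_
  rw [eq_top_iff]
  rintro ⟨y, hy⟩ -
  obtain ⟨l, hl, z, hz, rfl⟩ : ∃ l ∈ L, ∃ z ∈ Subgroup.zpowers x, l * z = y := by
    have hy' := hy
    rw [hK, ← SetLike.mem_coe, Subgroup.normal_mul] at hy'
    exact hy'
  obtain ⟨j, rfl⟩ := Subgroup.mem_zpowers_iff.1 hz
  have h4 : (⟨l * x ^ j, hy⟩ : K) = ⟨l, hLK hl⟩ * (⟨x, hxK⟩ : K) ^ j := by
    apply Subtype.ext
    simp
  rw [h4]
  refine Subgroup.mul_mem_sup ?_ (Subgroup.zpow_mem_zpowers _ j)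
  rw [Subgroup.mem_subgroupOf]
  exact hl

/-- A finitely generated group with a finitely generated residually finite subgroup containing
the derived subgroup is residually finite. -/
theorem resFin_abelian {G : Type*} [Group G] [Group.FG G] (H : Subgroup G) [Group.FG H]
    (hH : Group.ResiduallyFinite H) (hc : commutator G ≤ H) : Group.ResiduallyFinite G := by
  classical
  have key : ∀ S : Finset G, (H ⊔ Subgroup.closure (S : Set G)).FG ∧
      Group.ResiduallyFinite (H ⊔ Subgroup.closure (S : Set G) : Subgroup G) := by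
    intro S
    induction S using Finset.induction_on with
    | empty =>
      rw [Finset.coe_empty, Subgroup.closure_empty, sup_bot_eq]
      exact ⟨(Group.fg_iff_subgroup_fg H).1 ‹_›, hH⟩
    | insert a S _ ih =>
      have hn : (H ⊔ Subgroup.closure (S : Set G)).Normal := ⟨fun n hn g => by
        have h1 : ⁅g, n⁆ ∈ H := hc (Subgroup.commutator_mem_commutator (Subgroup.mem_top g)
          (Subgroup.mem_top n))
        have h2 : g * n * g⁻¹ = ⁅g, n⁆ * n := by rw [commutatorElement_def]; group
        rw [h2]
        exact Subgroup.mul_mem _ ((le_sup_left : H ≤ H ⊔ Subgroup.closure (S : Set G)) h1) hn⟩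
      have h := resFin_step (H ⊔ Subgroup.closure (S : Set G)) ih.1 ih.2 a
      have h5 : H ⊔ Subgroup.closure ((insert a S : Finset G) : Set G) =
          H ⊔ Subgroup.closure (S : Set G) ⊔ Subgroup.zpowers a := by
        rw [Finset.coe_insert, Set.insert_eq, Subgroup.closure_union, Subgroup.zpowers_eq_closure,
          sup_assoc, sup_comm (Subgroup.closure {a})]
      rw [h5]
      exact h
  obtain ⟨S, hS⟩ := Group.fg_def.1 ‹Group.FG G›
  have h := (key S).2
  rw [hS, sup_top_eq] at h
  exact resFin_of_injective (Subgroup.topEquiv (G := G)).symm.toMonoidHom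
    (Subgroup.topEquiv (G := G)).symm.injective h

end Pool.Agent.H91.FP
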