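import Pool.Agent.H91.FP.MalcevB
import Pool.Agent.H91.FP.InvFinal

/-!
# Residual finiteness of cyclic extensions of locally free groups

* `resFin_cyclic`: a finitely generated group generated by a locally free normal subgroup and one
  more element is residually finite.
-/

open scoped commutatorElement

namespace Pool.Agent.H91.FP

/-- The powers of an element which lie in a subgroup. -/
theorem exists_zpow_gen {G : Type*} [Group G] (K : Subgroup G) (θ : G) :
    ∃ r : ℤ, θ ^ r ∈ K ∧ ∀ j : ℤ, θ ^ j ∈ K → ∃ m : ℤ, θ ^ j = (θ ^ r) ^ m := by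
  let A : AddSubgroup ℤ :=
    { carrier := {j | θ ^ j ∈ K}
      zero_mem' := by simp
      add_mem' := by
        intro a b ha hb
        change θ ^ (a + b) ∈ K
        rw [zpow_add]
        exact K.mul_mem ha hb
      neg_mem' := by
        intro a ha
        change θ ^ (-a) ∈ K
        rw [zpow_neg]
        exact K.inv_mem ha }
  obtain ⟨r, hr⟩ := Int.subgroup_cyclic A
  refine ⟨r, ?_, ?_⟩
  · have : r ∈ A := by rw [hr]; exact AddSubgroup.subset_closure rfl
    exact this
  · intro j hj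
    have : j ∈ A := hj
    rw [hr, AddSubgroup.mem_closure_singleton] at this
    obtain ⟨m, rfl⟩ := this
    exact ⟨m, by rw [← zpow_mul, smul_eq_mul, mul_comm]⟩

/-- Elements which normalise a subgroup form a subgroup; criterion for normality. -/
theorem normal_of_closure {G : Type*} [Group G] (L : Subgroup G) (S : Set G)
    (hS : Subgroup.closure S = ⊤) (h : ∀ x ∈ S, x ∈ Subgroup.normalizer (L : Set G)) :
    L.Normal := by
  rw [← Subgroup.normalizer_eq_top_iff, eq_top_iff, ← hS, Subgroup.closure_le]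
  exact h

/-- The kernel of a cyclic extension is generated by the conjugates of finitely many elements. -/
theorem le_closure_conj {G : Type*} [Group G] (K : Subgroup G) (θ : G) {ι : Type*} (b : ι → G)
    (hb : ∀ i, b i ∈ K) (hgen : Subgroup.closure (Set.range b ∪ {θ}) = ⊤)
    (hc : ∀ j : ℤ, θ ^ j ∈ K →
      θ ^ j ∈ Subgroup.closure {x | ∃ (i : ι) (j : ℤ), x = θ ^ j * b i * (θ ^ j)⁻¹})
    (hK : K.Normal) :
    K ≤ Subgroup.closure {x | ∃ (i : ι) (j : ℤ), x = θ ^ j * b i * (θ ^ j)⁻¹} := by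
  set s : Set G := {x | ∃ (i : ι) (j : ℤ), x = θ ^ j * b i * (θ ^ j)⁻¹} with hs
  set L := Subgroup.closure s with hL
  have hbL : ∀ i, b i ∈ L := fun i => Subgroup.subset_closure ⟨i, 0, by simp⟩
  have hθL : Subgroup.zpowers θ ≤ Subgroup.normalizer (L : Set G) := by
    rw [hL, Subgroup.le_normalizer_closure_iff]
    rintro _ ⟨m, rfl⟩ _ ⟨i, j, rfl⟩
    refine Subgroup.subset_closure ⟨i, m + j, ?_⟩
    simp only [zpow_add, mul_inv_rev]
    group
  have hn : L.Normal := by
    refine normal_of_closure L _ hgen ?_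
    rintro x (⟨i, rfl⟩ | rfl)
    · exact Subgroup.le_normalizer (hbL i)
    · exact hθL (Subgroup.mem_zpowers _)
  have hLK : L ≤ K := by
    rw [hL, Subgroup.closure_le]
    rintro _ ⟨i, j, rfl⟩
    exact hK.conj_mem _ (hb i) _
  have htop : L ⊔ Subgroup.zpowers θ = ⊤ := by
    rw [eq_top_iff, ← hgen, Subgroup.closure_le]
    rintro x (⟨i, rfl⟩ | rfl)
    · exact (le_sup_left : L ≤ L ⊔ Subgroup.zpowers θ) (hbL i)
    · exact (le_sup_right : Subgroup.zpowers x ≤ L ⊔ Subgroup.zpowers x) (Subgroup.mem_zpowers x)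
  intro k hk
  obtain ⟨l, hl, j, rfl⟩ := exists_mul_zpow L θ htop k
  refine L.mul_mem hl (hc j ?_)
  exact (K.mul_mem_cancel_left (hLK hl)).1 hk

theorem resFin_cyclic {G : Type*} [Group G] [Group.FG G] (K : Subgroup G) [K.Normal]
    (hfree : ∀ B : Subgroup G, B ≤ K → B.FG → IsFreeGroup B) (θ : G)
    (hθ : K ⊔ Subgroup.zpowers θ = ⊤) : Group.ResiduallyFinite G := by
  have hcomm := commutator_le_of_sup_zpowers K θ hθ
  rw [Group.residuallyFinite_iff_exists_finiteIndex]
  intro g hg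
  by_cases hgK : g ∈ K
  swap
  · exact exists_finiteIndex_of_commutator_le K hcomm g hgK
  -- generators
  obtain ⟨S, hS⟩ := Group.fg_def.1 ‹Group.FG G›
  choose a ha e hae using exists_mul_zpow K θ hθ
  obtain ⟨r, hr, hr'⟩ := exists_zpow_gen K θ
  let b : Option S → K := fun o => o.elim ⟨θ ^ r, hr⟩ fun x => ⟨a x, ha x⟩
  obtain ⟨n, ⟨eqv⟩⟩ := Finite.exists_equiv_fin (Option S)
  let t : MulAut K := MulAut.conjNormal θ
  have ht : ∀ (j : ℤ) (x : K), (((t ^ j) x : K) : G) = θ ^ j * x * (θ ^ j)⁻¹ := by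
    intro j x
    have : t ^ j = MulAut.conjNormal (θ ^ j) := (map_zpow MulAut.conjNormal θ j).symm
    rw [this, MulAut.conjNormal_apply]
  have hgen : Subgroup.closure (Set.range (fun o => (b o : G)) ∪ {θ}) = ⊤ := by
    rw [eq_top_iff, ← hS, Subgroup.closure_le]
    intro x hx
    rw [SetLike.mem_coe, ← hae x]
    have h1 : θ ∈ Subgroup.closure (Set.range (fun o => (b o : G)) ∪ {θ}) :=
      Subgroup.subset_closure (Or.inr rfl)
    have h2 : a x ∈ Subgroup.closure (Set.range (fun o => (b o : G)) ∪ {θ}) :=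
      Subgroup.subset_closure (Or.inl ⟨some ⟨x, hx⟩, rfl⟩)
    exact Subgroup.mul_mem _ h2 (Subgroup.zpow_mem _ h1 _)
  have hcc : ∀ j : ℤ, θ ^ j ∈ K → θ ^ j ∈ Subgroup.closure
      {x : G | ∃ (i : Option S) (j : ℤ), x = θ ^ j * (b i : G) * (θ ^ j)⁻¹} := by
    intro j hj
    obtain ⟨m, hm⟩ := hr' j hj
    rw [hm]
    have h1 : θ ^ r ∈ Subgroup.closure
        {x : G | ∃ (i : Option S) (j : ℤ), x = θ ^ j * (b i : G) * (θ ^ j)⁻¹} :=
      Subgroup.subset_closure ⟨none, 0, by simp [b]⟩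
    exact Subgroup.zpow_mem _ h1 _
  have hle : K ≤ Subgroup.closure
      {x : G | ∃ (i : Option S) (j : ℤ), x = θ ^ j * (b i : G) * (θ ^ j)⁻¹} :=
    le_closure_conj K θ (fun o => (b o : G)) (fun o => (b o).2) hgen hcc inferInstance
  have hgen' : Subgroup.closure {x : K | ∃ (i : Fin n) (j : ℤ), x = (t ^ j) (b (eqv.symm i))} =
      ⊤ := by
    rw [eq_top_iff]
    rintro x -
    have hx := hle x.2
    have hmap : (Subgroup.closure {x : K | ∃ (i : Fin n) (j : ℤ),
        x = (t ^ j) (b (eqv.symm i))}).map K.subtype =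
        Subgroup.closure {x | ∃ (i : Option S) (j : ℤ), x = θ ^ j * (b i : G) * (θ ^ j)⁻¹} := by
      rw [MonoidHom.map_closure]
      congr 1
      ext y
      constructor
      · rintro ⟨_, ⟨i, j, rfl⟩, rfl⟩
        exact ⟨eqv.symm i, j, ht j _⟩
      · rintro ⟨i, j, rfl⟩
        refine ⟨(t ^ j) (b i), ⟨eqv i, j, by rw [Equiv.symm_apply_apply]⟩, ht j _⟩
    rw [← hmap] at hx
    obtain ⟨y, hy, hyx⟩ := hx
    have : y = x := Subtype.ext hyx
    rwa [← this]
  have hfree' : ∀ B : Subgroup K, B.FG → IsFreeGroup B := by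
    intro B hB
    have h1 : IsFreeGroup (B.map K.subtype) :=
      hfree _ (by rintro _ ⟨x, -, rfl⟩; exact x.2) (by
        classical
        obtain ⟨T, hT⟩ := hB
        exact ⟨T.image K.subtype, by rw [Finset.coe_image, ← MonoidHom.map_closure, hT]⟩)
    exact IsFreeGroup.ofMulEquiv
      (Subgroup.equivMapOfInjective B K.subtype K.subtype_injective).symm
  obtain ⟨N, hN1, hN2, hN3, hN4⟩ := exists_invariant hfree' t n (fun i => b (eqv.symm i)) hgen'
    ⟨g, hgK⟩ (fun h => hg (congrArg Subtype.val h))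
  have hKN : K ≤ Subgroup.normalizer ((N.map K.subtype : Subgroup G) : Set G) := by
    rw [Subgroup.le_normalizer_iff]
    rintro h hh _ ⟨x, hx, rfl⟩
    exact ⟨⟨h, hh⟩ * x * ⟨h, hh⟩⁻¹, hN1.conj_mem _ hx _, rfl⟩
  have hθN : θ ∈ Subgroup.normalizer ((N.map K.subtype : Subgroup G) : Set G) := by
    rw [Subgroup.mem_normalizer_iff_map_conj_eq]
    ext y
    constructor
    · rintro ⟨_, ⟨x, hx, rfl⟩, rfl⟩
      refine ⟨t x, (hN3 x).2 hx, ?_⟩
      have := ht 1 x
      rw [zpow_one, zpow_one] at this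
      exact this
    · rintro ⟨x, hx, rfl⟩
      refine ⟨(t⁻¹ x : K), ⟨t⁻¹ x, ?_, rfl⟩, ?_⟩
      · rw [SetLike.mem_coe, ← hN3]
        rw [MulAut.apply_inv_self]
        exact hx
      · have := ht 1 (t⁻¹ x)
        rw [zpow_one, zpow_one, MulAut.apply_inv_self] at this
        exact this.symm
  have hn : (N.map K.subtype).Normal := by
    rw [← Subgroup.normalizer_eq_top_iff, eq_top_iff, ← hθ]
    refine sup_le hKN ?_
    rw [Subgroup.zpowers_le]
    exact hθN
  have hgN : g ∉ N.map K.subtype := by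
    rintro ⟨x, hx, hxg⟩
    apply hN4
    have : x = ⟨g, hgK⟩ := Subtype.ext hxg
    rwa [← this]
  have hfin : Finite (commutatorSet (G ⧸ N.map K.subtype)) := by
    refine finite_commutatorSet (QuotientGroup.mk' (N.map K.subtype))
      (QuotientGroup.mk'_surjective _) K (N.map K.subtype) hcomm
      (by rw [QuotientGroup.ker_mk']) ?_
    rw [Subgroup.relIndex, Subgroup.subgroupOf, Subgroup.comap_map_eq_self_of_injective
      K.subtype_injective]
    exact hN2.index_ne_zero
  refine exists_finiteIndex_of_hom (QuotientGroup.mk' (N.map K.subtype)) g ?_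
  refine exists_finiteIndex_of_finite_commutatorSet _ ?_
  intro h
  exact hgN ((QuotientGroup.eq_one_iff g).1 h)

end Pool.Agent.H91.FP
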