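import Pool.Agent.H91.FP.Tri

/-!
# Small elements survive modulo `X_i ^ Q - b_i`
-/

set_option autoImplicit false

namespace Pool.Agent.H91.FP

open Submodule MvPolynomial

section

variable {k ι m R : Type} [Field k] [CommRing R]
  [Algebra k R] [Algebra (MvPolynomial ι k) R]

variable (k ι) in
/-- the basis of the free module -/
noncomputable def ee (e : m → R) (u : (ι →₀ ℕ) × m) : R := (monomial u.1 (1 : k)) • e u.2

variable (k ι) in
/-- the filtration -/
noncomputable def Fil (e : m → R) (n : ℕ) : Submodule k R :=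
  span k (ee k ι e '' {u | u.1.degree < n})

theorem Fil_mono (e : m → R) {a b : ℕ} (h : a ≤ b) : Fil k ι e a ≤ Fil k ι e b :=
  span_mono (Set.image_mono fun _ hu => lt_of_lt_of_le hu h)

variable [IsScalarTower k (MvPolynomial ι k) R]

theorem smul_mem_Fil (e : m → R) (s : MvPolynomial ι k) (b : m) {n : ℕ} (hs : s.totalDegree < n) :
    s • e b ∈ Fil k ι e n := by
  rw [s.as_sum, Finset.sum_smul]
  refine sum_mem fun v hv => ?_
  have h1 : (monomial v (coeff v s)) • e b = coeff v s • ee k ι e (v, b) := by
    rw [ee, ← smul_assoc, smul_monomial, smul_eq_mul, mul_one]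
  rw [h1]
  refine smul_mem _ _ (subset_span ⟨(v, b), ?_, rfl⟩)
  exact lt_of_le_of_lt (le_totalDegree hv) hs

/-- multiplication by an element of the conductor shifts the filtration by a bounded amount -/
theorem exists_mul_mem_Fil [Finite m] (e : m → R) (h : MvPolynomial ι k)
    (hR : ∀ x : R, h • x ∈ span (MvPolynomial ι k) (Set.range e)) (r : R) :
    ∃ C : ℕ, ∀ n : ℕ, ∀ y ∈ Fil k ι e n, (h • r) * y ∈ Fil k ι e (n + C) := by
  classical
  have := Fintype.ofFinite m
  have h1 : ∀ b : m, ∃ c : m → MvPolynomial ι k, ∑ b', c b' • e b' = h • (r * e b) := fun b =>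
    (mem_span_range_iff_exists_fun _).1 (hR _)
  choose c hc using h1
  refine ⟨Finset.univ.sup fun b => Finset.univ.sup fun b' => (c b b').totalDegree, ?_⟩
  intro n y hy
  refine span_induction (p := fun y _ => (h • r) * y ∈ Fil k ι e (n + _)) ?_ ?_ ?_ ?_ hy
  · rintro _ ⟨⟨u, b⟩, hu, rfl⟩
    have h2 : (h • r) * ee k ι e (u, b) = ∑ b', (monomial u (1 : k) * c b b') • e b' := by
      simp only [ee, mul_smul, ← Finset.smul_sum, hc]
      simp only [Algebra.smul_def]
      ring
    rw [h2]
    refine sum_mem fun b' _ => smul_mem_Fil e _ b' ?_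
    have h3 : (c b b').totalDegree ≤
        Finset.univ.sup fun b => Finset.univ.sup fun b' => (c b b').totalDegree :=
      le_trans (Finset.le_sup (f := fun b' => (c b b').totalDegree) (Finset.mem_univ b'))
        (Finset.le_sup (f := fun b => Finset.univ.sup fun b' => (c b b').totalDegree)
          (Finset.mem_univ b))
    have h4 : (monomial u (1 : k)).totalDegree ≤ u.degree := by
      rw [totalDegree_monomial u one_ne_zero]
      exact le_rfl
    have h5 := totalDegree_mul (monomial u (1 : k)) (c b b')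
    have h6 : u.degree < n := hu
    omega
  · rw [mul_zero]; exact zero_mem _
  · intro x y _ _ hx hy
    rw [mul_add]; exact add_mem hx hy
  · intro a x _ hx
    rw [mul_smul_comm]; exact smul_mem _ _ hx

/-- multiplication by `X_i ^ Q` -/
theorem X_pow_mul_mem_Fil (e : m → R) (i : ι) (Q n : ℕ) (y : R) (hy : y ∈ Fil k ι e n) :
    algebraMap (MvPolynomial ι k) R (X i) ^ Q * y ∈ Fil k ι e (n + Q) := by
  refine span_induction (p := fun y _ => algebraMap (MvPolynomial ι k) R (X i) ^ Q * y ∈
    Fil k ι e (n + Q)) ?_ ?_ ?_ ?_ hy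
  · rintro _ ⟨⟨u, b⟩, hu, rfl⟩
    have h2 : algebraMap (MvPolynomial ι k) R (X i) ^ Q * ee k ι e (u, b) =
        ee k ι e (u + Finsupp.single i Q, b) := by
      simp only [ee, Algebra.smul_def]
      rw [← mul_assoc, ← map_pow, ← map_mul, X_pow_eq_monomial, monomial_mul, one_mul, add_comm]
    rw [h2]
    refine subset_span ⟨_, ?_, rfl⟩
    change (u + Finsupp.single i Q).degree < n + Q
    rw [map_add, Finsupp.degree_single]
    exact Nat.add_lt_add_right hu _
  · rw [mul_zero]; exact zero_mem _
  · intro x y _ _ hx hy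
    rw [mul_add]; exact add_mem hx hy
  · intro a x _ hx
    rw [mul_smul_comm]; exact smul_mem _ _ hx

/-- the new basis -/
noncomputable def ff (T : ι → R) (Q : ℕ) (e : m → R) (u : (ι →₀ ℕ) × m) : R :=
  ((Finsupp.toMultiset (u.1.mapRange (· / Q) (Nat.zero_div Q))).map T).prod *
    ee k ι e (u.1.mapRange (· % Q) (Nat.zero_mod Q), u.2)

theorem ff_add (T : ι → R) {Q : ℕ} (hQ : 0 < Q) (e : m → R) (u : ι →₀ ℕ) (b : m) (i : ι) :
    ff (k := k) T Q e (u + Finsupp.single i Q, b) = T i * ff (k := k) T Q e (u, b) := by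
  classical
  have h1 : (u + Finsupp.single i Q).mapRange (· / Q) (Nat.zero_div Q) =
      u.mapRange (· / Q) (Nat.zero_div Q) + Finsupp.single i 1 := by
    ext j
    simp only [Finsupp.mapRange_apply, Finsupp.add_apply, Finsupp.single_apply]
    split_ifs
    · exact Nat.add_div_right _ hQ
    · rfl
  have h2 : (u + Finsupp.single i Q).mapRange (· % Q) (Nat.zero_mod Q) =
      u.mapRange (· % Q) (Nat.zero_mod Q) := by
    ext j
    simp only [Finsupp.mapRange_apply, Finsupp.add_apply, Finsupp.single_apply]
    split_ifs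
    · exact Nat.add_mod_right _ _
    · rfl
  simp only [ff]
  rw [h1, h2, map_add, Multiset.map_add, Multiset.prod_add, Finsupp.toMultiset_single, one_smul,
    Multiset.map_singleton, Multiset.prod_singleton]
  ring

theorem prod_mul_sub_mem (e : m → R) (bb : ι → R) (C : ℕ)
    (hC : ∀ i (n : ℕ), ∀ y ∈ Fil k ι e n, bb i * y ∈ Fil k ι e (n + C)) (Q : ℕ) (hQ : C < Q)
    (w : ι →₀ ℕ) (b : m) (s : Multiset ι) :
    (s.map fun i => algebraMap (MvPolynomial ι k) R (X i) ^ Q - bb i).prod * ee k ι e (w, b) -
      ee k ι e (w + (s.map fun i => Finsupp.single i Q).sum, b) ∈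
        Fil k ι e (w.degree + Q * s.card) := by
  induction s using Multiset.induction_on with
  | empty =>
    simp
  | cons i s ih =>
    rw [Multiset.map_cons, Multiset.prod_cons, Multiset.map_cons, Multiset.sum_cons,
      Multiset.card_cons]
    set P := (s.map fun i => algebraMap (MvPolynomial ι k) R (X i) ^ Q - bb i).prod *
      ee k ι e (w, b) with hP
    set u := w + (s.map fun i => Finsupp.single i Q).sum with hu
    have hdeg : u.degree = w.degree + Q * s.card := by
      rw [hu, map_add, map_multiset_sum, Multiset.map_map]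
      simp [mul_comm]
    have h1 : w + (Finsupp.single i Q + (s.map fun i => Finsupp.single i Q).sum) =
        u + Finsupp.single i Q := by
      rw [hu]; abel
    have h2 : ee k ι e (u + Finsupp.single i Q, b) =
        algebraMap (MvPolynomial ι k) R (X i) ^ Q * ee k ι e (u, b) := by
      simp only [ee, Algebra.smul_def]
      rw [← mul_assoc, ← map_pow, ← map_mul, X_pow_eq_monomial, monomial_mul, one_mul, add_comm]
    have h3 : (algebraMap (MvPolynomial ι k) R (X i) ^ Q - bb i) *
        (s.map fun i => algebraMap (MvPolynomial ι k) R (X i) ^ Q - bb i).prod *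
          ee k ι e (w, b) - ee k ι e (w + (Finsupp.single i Q +
            (s.map fun i => Finsupp.single i Q).sum), b) =
        algebraMap (MvPolynomial ι k) R (X i) ^ Q * (P - ee k ι e (u, b)) -
          bb i * (P - ee k ι e (u, b)) - bb i * ee k ι e (u, b) := by
      rw [h1, h2, hP]; ring
    rw [h3]
    have h4 : ee k ι e (u, b) ∈ Fil k ι e (w.degree + Q * s.card + 1) :=
      subset_span ⟨(u, b), by
        change u.degree < _
        omega, rfl⟩
    refine sub_mem (sub_mem ?_ ?_) ?_
    · exact Fil_mono e (by rw [mul_add, mul_one, add_assoc]) (X_pow_mul_mem_Fil e i Q _ _ ih)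
    · exact Fil_mono e (by rw [mul_add, mul_one]; omega) (hC i _ _ ih)
    · exact Fil_mono e (by rw [mul_add, mul_one]; omega) (hC i _ _ h4)

omit [Field k] in
theorem map_single_sum (Q : ℕ) (v : ι →₀ ℕ) :
    ((Finsupp.toMultiset v).map fun i => Finsupp.single i Q).sum = Q • v := by
  induction v using Finsupp.induction_linear with
  | zero => simp
  | add f g hf hg =>
    rw [map_add, Multiset.map_add, Multiset.sum_add, hf, hg, smul_add]
  | single a n =>
    rw [Finsupp.toMultiset_single, Multiset.map_nsmul, Multiset.map_singleton,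
      Multiset.sum_nsmul, Multiset.sum_singleton, Finsupp.smul_single, Finsupp.smul_single,
      smul_eq_mul, smul_eq_mul, mul_comm]

theorem ff_sub_mem (e : m → R) (bb : ι → R) (C : ℕ)
    (hC : ∀ i (n : ℕ), ∀ y ∈ Fil k ι e n, bb i * y ∈ Fil k ι e (n + C)) (Q : ℕ) (hQ : C < Q)
    (u : (ι →₀ ℕ) × m) :
    ff (k := k) (fun i => algebraMap (MvPolynomial ι k) R (X i) ^ Q - bb i) Q e u - ee k ι e u ∈
      span k (ee k ι e '' {v | v.1.degree < u.1.degree}) := by
  classical
  obtain ⟨u, b⟩ := u
  have h1 := prod_mul_sub_mem e bb C hC Q hQ (u.mapRange (· % Q) (Nat.zero_mod Q)) b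
    (Finsupp.toMultiset (u.mapRange (· / Q) (Nat.zero_div Q)))
  have h2 : u.mapRange (· % Q) (Nat.zero_mod Q) +
      ((Finsupp.toMultiset (u.mapRange (· / Q) (Nat.zero_div Q))).map
        fun i => Finsupp.single i Q).sum = u := by
    rw [map_single_sum]
    ext j
    simp only [Finsupp.mapRange_apply, Finsupp.add_apply, Finsupp.smul_apply, smul_eq_mul]
    exact Nat.mod_add_div _ _
  have h3 : (u.mapRange (· % Q) (Nat.zero_mod Q)).degree +
      Q * (Finsupp.toMultiset (u.mapRange (· / Q) (Nat.zero_div Q))).card = u.degree := by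
    have h4 := congrArg Finsupp.degree h2
    rw [map_add, map_multiset_sum, Multiset.map_map] at h4
    rw [← h4]
    simp [mul_comm]
  rw [h2, h3] at h1
  exact h1

end

/-- **Small elements survive.** -/
theorem small_survive {k ι m R : Type} [Field k] [Finite ι] [Finite m] [CommRing R] [IsDomain R]
    [Algebra (MvPolynomial ι k) R] (b r : ι → R) (e : m → R)
    (he : LinearIndependent (MvPolynomial ι k) e)
    (h : MvPolynomial ι k) (h0 : h ≠ 0)
    (hinj : Function.Injective (algebraMap (MvPolynomial ι k) R))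
    (hR : ∀ x : R, h • x ∈ Submodule.span (MvPolynomial ι k) (Set.range e))
    (hb : ∀ i, b i = h • r i) :
    ∃ C : ℕ, ∀ (Q : ℕ) (x : MvPolynomial ι k), x.totalDegree + C ≤ Q →
      algebraMap (MvPolynomial ι k) R x ∈
        Ideal.span (Set.range fun i => algebraMap (MvPolynomial ι k) R (X i) ^ Q - b i) →
      x = 0 := by
  classical
  have := Fintype.ofFinite ι
  have := Fintype.ofFinite m
  let _ : Algebra k R := ((algebraMap (MvPolynomial ι k) R).comp
    (algebraMap k (MvPolynomial ι k))).toAlgebra
  have _ : IsScalarTower k (MvPolynomial ι k) R := IsScalarTower.of_algebraMap_eq fun _ => rfl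
  choose C hC using fun i => exists_mul_mem_Fil e h hR (r i)
  obtain ⟨c, hc⟩ := (mem_span_range_iff_exists_fun _).1 (hR 1)
  let C0 := Finset.univ.sup C
  let C1 := Finset.univ.sup fun j => (c j).totalDegree
  refine ⟨C0 + C1 + 1, fun Q x hQ hx => ?_⟩
  have hC0 : ∀ i (n : ℕ), ∀ y ∈ Fil k ι e n, b i * y ∈ Fil k ι e (n + C0) := fun i n y hy => by
    rw [hb]
    exact Fil_mono e (Nat.add_le_add_left (Finset.le_sup (Finset.mem_univ i)) n) (hC i n y hy)
  have hQ0 : C0 < Q := by omega
  set T : ι → R := fun i => algebraMap (MvPolynomial ι k) R (X i) ^ Q - b i with hT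
  have htri := ff_sub_mem (k := k) e b C0 hC0 Q hQ0
  have hee : LinearIndependent k (ee k ι e) := by
    have h1 : LinearIndependent k (fun u : ι →₀ ℕ => (monomial u (1 : k))) :=
      (basisMonomials ι k).linearIndependent
    exact linearIndependent_smul h1 he
  have hff : LinearIndependent k (ff (k := k) T Q e) := tri_indep _ _ (fun u => u.1.degree) hee htri
  have hspan := tri_span (ee k ι e) (ff (k := k) T Q e) (fun u => u.1.degree) htri
  -- `h x` is small
  have hsmall : h • algebraMap (MvPolynomial ι k) R x ∈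
      span k (ff (k := k) T Q e '' {u | ∀ i, u.1 i < Q}) := by
    have h1 : h • algebraMap (MvPolynomial ι k) R x = ∑ j, (x * c j) • e j := by
      calc h • algebraMap (MvPolynomial ι k) R x = x • (h • (1 : R)) := by
            simp only [Algebra.smul_def, mul_one]; ring
        _ = ∑ j, (x * c j) • e j := by
            rw [← hc, Finset.smul_sum]
            simp only [mul_smul]
    have h2 : h • algebraMap (MvPolynomial ι k) R x ∈ Fil k ι e Q := by
      rw [h1]
      refine sum_mem fun j _ => smul_mem_Fil e _ j ?_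
      have h3 := totalDegree_mul x (c j)
      have h4 : (c j).totalDegree ≤ C1 :=
        Finset.le_sup (f := fun j => (c j).totalDegree) (Finset.mem_univ j)
      omega
    refine span_mono (Set.image_mono ?_) (hspan Q h2)
    intro u hu i
    exact lt_of_le_of_lt (Finsupp.le_degree i u.1) hu
  -- and lies in the span of the others
  have hbig : ∀ (i : ι) (y : R), T i * (h • y) ∈
      span k (ff (k := k) T Q e '' {u | ∃ i, Q ≤ u.1 i}) := by
    intro i y
    obtain ⟨c', hc'⟩ := (mem_span_range_iff_exists_fun _).1 (hR y)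
    have h1 : ∃ n, h • y ∈ Fil k ι e n := by
      refine ⟨(Finset.univ.sup fun j => (c' j).totalDegree) + 1, ?_⟩
      rw [← hc']
      refine sum_mem fun j _ => smul_mem_Fil e _ j ?_
      exact Nat.lt_succ_of_le
        (Finset.le_sup (f := fun j => (c' j).totalDegree) (Finset.mem_univ j))
    obtain ⟨n, hn⟩ := h1
    have h2 := hspan n hn
    refine span_induction (p := fun y _ => T i * y ∈
      span k (ff (k := k) T Q e '' {u | ∃ i, Q ≤ u.1 i})) ?_ ?_ ?_ ?_ h2
    · rintro _ ⟨⟨u, j⟩, -, rfl⟩
      rw [← ff_add T (by omega) e u j i]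
      refine subset_span ⟨_, ⟨i, ?_⟩, rfl⟩
      simp
    · rw [mul_zero]; exact zero_mem _
    · intro x y _ _ hx hy
      rw [mul_add]; exact add_mem hx hy
    · intro a x _ hx
      rw [mul_smul_comm]; exact smul_mem _ _ hx
  have hbig' : h • algebraMap (MvPolynomial ι k) R x ∈
      span k (ff (k := k) T Q e '' {u | ∃ i, Q ≤ u.1 i}) := by
    obtain ⟨c', hc'⟩ := Ideal.mem_span_range_iff_exists_fun.1 hx
    rw [← hc', Finset.smul_sum]
    refine sum_mem fun i _ => ?_
    have h1 : h • (c' i * (algebraMap (MvPolynomial ι k) R (X i) ^ Q - b i)) =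
        T i * (h • c' i) := by
      rw [hT]
      simp only [Algebra.smul_def]
      ring
    rw [h1]
    exact hbig i _
  have hdisj : Disjoint (span k (ff (k := k) T Q e '' {u | ∀ i, u.1 i < Q}))
      (span k (ff (k := k) T Q e '' {u | ∃ i, Q ≤ u.1 i})) := by
    refine hff.disjoint_span_image ?_
    rw [Set.disjoint_left]
    rintro u hu ⟨i, hi⟩
    exact absurd (hu i) (not_lt.2 hi)
  have h1 := Submodule.disjoint_def.1 hdisj _ hsmall hbig'
  have h2 : algebraMap (MvPolynomial ι k) R (h * x) = 0 := by
    rw [map_mul, ← Algebra.smul_def]; exact h1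
  have h3 : h * x = 0 := hinj (by rw [h2, map_zero])
  exact (mul_eq_zero.1 h3).resolve_left h0

end Pool.Agent.H91.FP
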