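import Pool.Agent.H91.FP.PartAOf
import Pool.Agent.H91.FP.Small
import Pool.Agent.H91.FP.Dim

set_option autoImplicit false

open MvPolynomial

namespace Pool.Agent.H91.FP

/-- FP4.  Part A. -/
theorem partA (p : ℕ) [Fact p.Prime] {ι m R : Type} [Fintype ι] [Finite m] [CommRing R]
    [IsDomain R] [Algebra (MvPolynomial ι (ZMod p)) R]
    [Module.Finite (MvPolynomial ι (ZMod p)) R]
    (hinj : Function.Injective (algebraMap (MvPolynomial ι (ZMod p)) R))
    (β : MvPolynomial ι (ZMod p) →+* R) (hβ : Function.Injective β)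
    (r : ι → R) (e : m → R) (he : LinearIndependent (MvPolynomial ι (ZMod p)) e)
    (h : MvPolynomial ι (ZMod p)) (h0 : h ≠ 0)
    (hR : ∀ x : R, h • x ∈ Submodule.span (MvPolynomial ι (ZMod p)) (Set.range e))
    (hb : ∀ i, β (X i) = h • r i) (D : R) (hD : D ≠ 0) :
    ∃ Q₀ : ℕ, ∀ s : ℕ, Q₀ ≤ p ^ s → ∃ ψ : R →+* AlgebraicClosure (ZMod p),
      (∀ x, ψ (β x) = ψ (algebraMap (MvPolynomial ι (ZMod p)) R x) ^ p ^ s) ∧ ψ D ≠ 0 := by
  letI : Algebra (ZMod p) R :=
    ((algebraMap (MvPolynomial ι (ZMod p)) R).comp (algebraMap (ZMod p) _)).toAlgebra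
  haveI : IsScalarTower (ZMod p) (MvPolynomial ι (ZMod p)) R := IsScalarTower.of_algebraMap_eq' rfl
  exact partA_of p β hβ (small_survive (fun i => β (X i)) r e he h h0 hinj hR hb)
    (dim_bound (k := ZMod p) (fun i => β (X i))) D hD

end Pool.Agent.H91.FP
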