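import Mathlib

/-!
# Part A

Points of a finite extension of a polynomial ring over a prime field on which a given injection
agrees with a power of Frobenius.
-/

set_option autoImplicit false

open MvPolynomial

namespace Pool.Agent.H91.FP

/-- A nilpotent element of a finite-dimensional algebra dies at the power given by the dimension. -/
theorem nilp_pow {k B : Type*} [Field k] [CommRing B] [Algebra k B] [Module.Finite k B] {x : B}
    (hx : IsNilpotent x) {N : ℕ} (hN : Module.finrank k B ≤ N) : x ^ N = 0 := by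
  obtain ⟨m, hm⟩ := hx
  set f : Module.End k B := LinearMap.mulLeft k x with hf
  have hpow : ∀ j, f ^ j = LinearMap.mulLeft k (x ^ j) := fun j => by
    rw [hf, ← LinearMap.pow_mulLeft]
  have h1 : f ^ (m + Module.finrank k B) = 0 := by
    rw [hpow, pow_add, hm, zero_mul]
    ext y
    simp
  have h2 := Module.End.ker_pow_eq_ker_pow_finrank_of_le (K := k) (V := B) (f := f)
    (m := m + Module.finrank k B) (Nat.le_add_left _ _)
  rw [h1, LinearMap.ker_zero] at h2
  have h3 : (1 : B) ∈ LinearMap.ker (f ^ Module.finrank k B) := by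
    rw [← h2]; trivial
  rw [LinearMap.mem_ker, hpow, LinearMap.mulLeft_apply, mul_one] at h3
  exact pow_eq_zero_of_le hN h3

/-- Every nonzero element of an integral extension divides a nonzero element of the base. -/
theorem exists_base_multiple {S R : Type*} [CommRing S] [IsDomain S] [CommRing R] [IsDomain R]
    [Algebra S R] [Algebra.IsIntegral S R] (D : R) (hD : D ≠ 0) :
    ∃ D₀ : S, D₀ ≠ 0 ∧ D ∣ algebraMap S R D₀ := by
  have h := Ideal.comap_ne_bot_of_integral_mem (R := S) (I := Ideal.span {D}) hD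
    (Ideal.mem_span_singleton_self D) (Algebra.IsIntegral.isIntegral D)
  obtain ⟨D₀, hm, h0⟩ := (Submodule.ne_bot_iff _).1 h
  exact ⟨D₀, h0, Ideal.mem_span_singleton.1 (Ideal.mem_comap.1 hm)⟩

/-- Frobenius identity modulo the ideal. -/
theorem pow_sub_mem (p : ℕ) [Fact p.Prime] {ι R : Type*} [CommRing R] [IsDomain R]
    [Algebra (MvPolynomial ι (ZMod p)) R] (β : MvPolynomial ι (ZMod p) →+* R) (s : ℕ)
    (x : MvPolynomial ι (ZMod p)) :
    algebraMap (MvPolynomial ι (ZMod p)) R x ^ p ^ s - β x ∈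
      Ideal.span (Set.range fun i =>
        algebraMap (MvPolynomial ι (ZMod p)) R (X i) ^ p ^ s - β (X i)) := by
  set f := algebraMap (MvPolynomial ι (ZMod p)) R with hf
  have hc : ∀ a : ZMod p, β (C a) = f (C a) := fun a =>
    congrArg (fun g : ZMod p →+* R => g a) (RingHom.ext_zmod (β.comp C) (f.comp C))
  have : CharP R p := charP_of_injective_ringHom (f := f.comp C) (RingHom.injective _) p
  induction x using MvPolynomial.induction_on with
  | C a =>
    rw [hc, ← map_pow, ← map_pow, ZMod.pow_card_pow, sub_self]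
    exact Submodule.zero_mem _
  | add a b ha hb =>
    rw [map_add, map_add, add_pow_char_pow]
    have h := Ideal.add_mem _ ha hb
    have h2 : f a ^ p ^ s + f b ^ p ^ s - (β a + β b) =
        (f a ^ p ^ s - β a) + (f b ^ p ^ s - β b) := by ring
    rw [h2]
    exact h
  | mul_X a i ha =>
    rw [map_mul, map_mul, mul_pow]
    have h2 : f a ^ p ^ s * f (X i) ^ p ^ s - β a * β (X i) =
        f (X i) ^ p ^ s * (f a ^ p ^ s - β a) + β a * (f (X i) ^ p ^ s - β (X i)) := by ring
    rw [h2]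
    exact Ideal.add_mem _ (Ideal.mul_mem_left _ _ ha)
      (Ideal.mul_mem_left _ _ (Ideal.subset_span ⟨i, rfl⟩))

/-- Part A from the two estimates. -/
theorem partA_of (p : ℕ) [Fact p.Prime] {ι R : Type} [Fintype ι] [CommRing R] [IsDomain R]
    [Algebra (ZMod p) R] [Algebra (MvPolynomial ι (ZMod p)) R]
    [Module.Finite (MvPolynomial ι (ZMod p)) R]
    (β : MvPolynomial ι (ZMod p) →+* R) (hβ : Function.Injective β)
    (hsmall : ∃ C : ℕ, ∀ (Q : ℕ) (x : MvPolynomial ι (ZMod p)), x.totalDegree + C ≤ Q →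
      algebraMap (MvPolynomial ι (ZMod p)) R x ∈
        Ideal.span (Set.range fun i =>
          algebraMap (MvPolynomial ι (ZMod p)) R (X i) ^ Q - β (X i)) → x = 0)
    (hdim : ∃ M C : ℕ, ∀ Q : ℕ, C ≤ Q →
      Module.Finite (ZMod p) (R ⧸ Ideal.span (Set.range fun i =>
        algebraMap (MvPolynomial ι (ZMod p)) R (X i) ^ Q - β (X i))) ∧
      Module.finrank (ZMod p) (R ⧸ Ideal.span (Set.range fun i =>
        algebraMap (MvPolynomial ι (ZMod p)) R (X i) ^ Q - β (X i))) ≤ M * Q ^ Fintype.card ι)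
    (D : R) (hD : D ≠ 0) :
    ∃ Q₀ : ℕ, ∀ s : ℕ, Q₀ ≤ p ^ s → ∃ ψ : R →+* AlgebraicClosure (ZMod p),
      (∀ x, ψ (β x) = ψ (algebraMap (MvPolynomial ι (ZMod p)) R x) ^ p ^ s) ∧ ψ D ≠ 0 := by
  obtain ⟨C₂, hsm⟩ := hsmall
  obtain ⟨M, C₁, hdm⟩ := hdim
  have : Algebra.IsIntegral (MvPolynomial ι (ZMod p)) R := inferInstance
  -- the chain
  obtain ⟨D₀, hD₀, hDD₀⟩ := exists_base_multiple (S := MvPolynomial ι (ZMod p)) D hD
  have hstep : ∀ y : {y : MvPolynomial ι (ZMod p) // y ≠ 0},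
      ∃ z : {z : MvPolynomial ι (ZMod p) // z ≠ 0},
        β y.1 ∣ algebraMap (MvPolynomial ι (ZMod p)) R z.1 := fun y => by
    obtain ⟨z, hz, hd⟩ := exists_base_multiple (S := MvPolynomial ι (ZMod p)) (β y.1)
      ((map_ne_zero_iff β hβ).2 y.2)
    exact ⟨⟨z, hz⟩, hd⟩
  choose nxt hnxt using hstep
  let d : ℕ → {y : MvPolynomial ι (ZMod p) // y ≠ 0} := fun i => Nat.rec ⟨D₀, hD₀⟩ (fun _ => nxt) i
  have hd0 : (d 0).1 = D₀ := rfl
  have hds : ∀ i, β (d i).1 ∣ algebraMap (MvPolynomial ι (ZMod p)) R (d (i + 1)).1 :=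
    fun i => hnxt (d i)
  set n := Fintype.card ι with hn
  refine ⟨max C₁ (M * (d n).1.totalDegree + C₂), fun s hs => ?_⟩
  set Q := p ^ s with hQ
  have hs1 : C₁ ≤ Q := le_trans (le_max_left _ _) hs
  have hs2 : M * (d n).1.totalDegree + C₂ ≤ Q := le_trans (le_max_right _ _) hs
  set I := Ideal.span (Set.range fun i =>
    algebraMap (MvPolynomial ι (ZMod p)) R (X i) ^ Q - β (X i)) with hI
  obtain ⟨hfin, hrank⟩ := hdm Q hs1
  have : Module.Finite (ZMod p) (R ⧸ I) := hfin
  have hfrob : ∀ x : MvPolynomial ι (ZMod p),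
      Ideal.Quotient.mk I (algebraMap (MvPolynomial ι (ZMod p)) R x) ^ Q =
        Ideal.Quotient.mk I (β x) := fun x => by
    rw [← map_pow]
    exact Ideal.Quotient.eq.2 (pow_sub_mem p β s x)
  -- divisibility along the chain
  have hchain : ∀ i, Ideal.Quotient.mk I (algebraMap (MvPolynomial ι (ZMod p)) R D₀) ^ Q ^ i ∣
      Ideal.Quotient.mk I (algebraMap (MvPolynomial ι (ZMod p)) R (d i).1) := fun i => by
    induction i with
    | zero => rw [pow_zero, pow_one, hd0]
    | succ i ih =>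
      have h1 := pow_dvd_pow_of_dvd ih Q
      rw [← pow_mul, ← pow_succ, hfrob] at h1
      exact h1.trans (map_dvd (Ideal.Quotient.mk I) (hds i))
  have hnot : ¬ IsNilpotent (Ideal.Quotient.mk I D) := by
    intro hnil
    have h0 : IsNilpotent (Ideal.Quotient.mk I (algebraMap (MvPolynomial ι (ZMod p)) R D₀)) := by
      obtain ⟨e, he⟩ := map_dvd (Ideal.Quotient.mk I) hDD₀
      rw [he]
      exact (Commute.all _ _).isNilpotent_mul_right hnil
    have h1 : Ideal.Quotient.mk I (algebraMap (MvPolynomial ι (ZMod p)) R D₀) ^ (M * Q ^ n) = 0 :=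
      nilp_pow (k := ZMod p) h0 hrank
    have h2 : Ideal.Quotient.mk I (algebraMap (MvPolynomial ι (ZMod p)) R (d n).1) ^ M = 0 := by
      have h3 := pow_dvd_pow_of_dvd (hchain n) M
      rw [← pow_mul, mul_comm (Q ^ n) M, h1] at h3
      exact zero_dvd_iff.1 h3
    rw [← map_pow, ← map_pow, Ideal.Quotient.eq_zero_iff_mem] at h2
    have h3 : ((d n).1 ^ M).totalDegree + C₂ ≤ Q :=
      le_trans (Nat.add_le_add_right (totalDegree_pow _ _) _) hs2
    exact pow_ne_zero M (d n).2 (hsm Q _ h3 h2)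
  -- a prime avoiding D
  have hex : ∃ P : Ideal (R ⧸ I), P.IsPrime ∧ Ideal.Quotient.mk I D ∉ P := by
    by_contra hcon
    push Not at hcon
    exact hnot (nilpotent_iff_mem_prime.2 fun J hJ => hcon J hJ)
  obtain ⟨P, hP, hDP⟩ := hex
  have := hP
  have : IsArtinianRing (R ⧸ I) := IsArtinianRing.of_finite (ZMod p) (R ⧸ I)
  have : P.IsMaximal := IsArtinianRing.isMaximal_of_isPrime P
  let : Field ((R ⧸ I) ⧸ P) := Ideal.Quotient.field P
  have : Module.Finite (ZMod p) ((R ⧸ I) ⧸ P) :=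
    Module.Finite.of_surjective (Ideal.Quotient.mkₐ (ZMod p) P).toLinearMap
      Ideal.Quotient.mk_surjective
  have : Algebra.IsAlgebraic (ZMod p) ((R ⧸ I) ⧸ P) := Algebra.IsAlgebraic.of_finite _ _
  let χ : ((R ⧸ I) ⧸ P) →ₐ[ZMod p] AlgebraicClosure (ZMod p) := IsAlgClosed.lift
  refine ⟨χ.toRingHom.comp ((Ideal.Quotient.mk P).comp (Ideal.Quotient.mk I)), fun x => ?_, ?_⟩
  · simp only [RingHom.comp_apply]
    rw [← hfrob x, map_pow, map_pow]
  · simp only [RingHom.comp_apply]
    intro h0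
    have h1 : Ideal.Quotient.mk P (Ideal.Quotient.mk I D) = 0 :=
      χ.toRingHom.injective (h0.trans (map_zero _).symm)
    exact hDP (Ideal.Quotient.eq_zero_iff_mem.1 h1)

end Pool.Agent.H91.FP
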