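import Pool.Agent.H91.FP.PartA

/-!
# Part B

From part A for cones (a finite extension of a polynomial ring together with an injection of the
polynomial ring) to generic points of a correspondence between two tuples of independent elements.
-/

set_option autoImplicit false

open MvPolynomial

namespace Pool.Agent.H91.FP

/-- Homogenisation, in terms of values. -/
theorem exists_homog {k ι : Type} [Field k] (F : MvPolynomial ι k) :
    ∃ (N : ℕ) (F' : MvPolynomial (Option ι) k), ∀ (A : Type) [CommRing A] (f : k →+* A) (g : A)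
      (v u : ι → A), (∀ i, u i = g * v i) →
      eval₂ f (fun o : Option ι => o.elim g u) F' = eval₂ f v F * g ^ N := by
  induction F using MvPolynomial.induction_on with
  | C a => exact ⟨0, C a, fun A _ f g v u hu => by simp⟩
  | add P Q hP hQ =>
    obtain ⟨N₁, P', h1⟩ := hP
    obtain ⟨N₂, Q', h2⟩ := hQ
    refine ⟨N₁ + N₂, P' * X none ^ N₂ + Q' * X none ^ N₁, fun A _ f g v u hu => ?_⟩
    rw [eval₂_add, eval₂_mul, eval₂_mul, eval₂_pow, eval₂_pow, eval₂_X, h1 A f g v u hu,
      h2 A f g v u hu, eval₂_add]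
    simp only [Option.elim]
    ring
  | mul_X P i hP =>
    obtain ⟨N, P', h1⟩ := hP
    refine ⟨N + 1, P' * X (some i), fun A _ f g v u hu => ?_⟩
    rw [eval₂_mul, eval₂_X, h1 A f g v u hu, eval₂_mul, eval₂_X]
    simp only [Option.elim]
    rw [hu i]
    ring

/-- The cone over the tuple `z`. -/
noncomputable def jm {k Ω : Type} [Field k] [Field Ω] [Algebra k Ω] {c : ℕ} (z : Fin c → Ω) :
    MvPolynomial (Option (Fin c)) k →ₐ[k] Polynomial Ω :=
  aeval (fun o => o.elim Polynomial.X (fun i => Polynomial.C (z i) * Polynomial.X))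

theorem jm_none {k Ω : Type} [Field k] [Field Ω] [Algebra k Ω] {c : ℕ} (z : Fin c → Ω) :
    jm (k := k) z (X none) = Polynomial.X := by
  simp [jm]

theorem jm_some {k Ω : Type} [Field k] [Field Ω] [Algebra k Ω] {c : ℕ} (z : Fin c → Ω)
    (i : Fin c) : jm (k := k) z (X (some i)) = Polynomial.C (z i) * Polynomial.X := by
  simp [jm]

theorem tau_aux {k K : Type} [Field k] [Field K] {c : ℕ}
    [Algebra (MvPolynomial (Option (Fin c)) k) K] [Algebra k K]
    [IsScalarTower k (MvPolynomial (Option (Fin c)) k) K]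
    (hinj : Function.Injective (algebraMap (MvPolynomial (Option (Fin c)) k) K)) :
    Function.Injective
    (aeval (fun o : Option (Fin c) => o.elim (X none) (fun i => X (some i) * X none)) :
      MvPolynomial (Option (Fin c)) k →ₐ[k] MvPolynomial (Option (Fin c)) k) := by
  have hX : algebraMap (MvPolynomial (Option (Fin c)) k) K (X none) ≠ 0 := by
    rw [Ne, map_eq_zero_iff _ hinj]
    exact X_ne_zero _
  have h : (aeval (fun o : Option (Fin c) => o.elim
      (algebraMap (MvPolynomial (Option (Fin c)) k) K (X none))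
      (fun i => algebraMap (MvPolynomial (Option (Fin c)) k) K (X (some i)) /
        algebraMap (MvPolynomial (Option (Fin c)) k) K (X none))) :
        MvPolynomial (Option (Fin c)) k →ₐ[k] K).comp
      (aeval (fun o : Option (Fin c) => o.elim (X none) (fun i => X (some i) * X none))) =
      IsScalarTower.toAlgHom k (MvPolynomial (Option (Fin c)) k) K := by
    apply MvPolynomial.algHom_ext
    intro o
    cases o with
    | none => simp
    | some i =>
      simp only [AlgHom.comp_apply, aeval_X, Option.elim, map_mul]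
      simp [div_mul_cancel₀ _ hX]
  intro a b hab
  have h1 := AlgHom.congr_fun h a
  have h2 := AlgHom.congr_fun h b
  rw [AlgHom.comp_apply, hab] at h1
  rw [AlgHom.comp_apply, h1] at h2
  exact hinj h2

theorem tau_injective {k : Type} [Field k] {c : ℕ} : Function.Injective
    (aeval (fun o : Option (Fin c) => o.elim (X none) (fun i => X (some i) * X none)) :
      MvPolynomial (Option (Fin c)) k →ₐ[k] MvPolynomial (Option (Fin c)) k) :=
  tau_aux (K := FractionRing (MvPolynomial (Option (Fin c)) k)) (IsFractionRing.injective _ _)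

theorem jm_injective {k Ω : Type} [Field k] [Field Ω] [Algebra k Ω] {c : ℕ} (z : Fin c → Ω)
    (hz : AlgebraicIndependent k z) : Function.Injective (jm (k := k) z) := by
  have h : jm (k := k) z = ((Polynomial.mapAlgHom (aeval z : MvPolynomial (Fin c) k →ₐ[k] Ω)).comp
      (optionEquivLeft k (Fin c)).toAlgHom).comp
      (aeval (fun o : Option (Fin c) => o.elim (X none) (fun i => X (some i) * X none))) := by
    apply MvPolynomial.algHom_ext
    intro o
    cases o with
    | none => simp [jm_none]
    | some i => simp [jm_some]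
  rw [h]
  have h2 : Function.Injective
      (Polynomial.mapAlgHom (aeval z : MvPolynomial (Fin c) k →ₐ[k] Ω)) :=
    Polynomial.map_injective _ hz
  simp only [AlgHom.coe_comp]
  exact (h2.comp (optionEquivLeft k (Fin c)).injective).comp tau_injective

/-- A relation over the cone ring. -/
theorem exists_rel {k Ω : Type} [Field k] [Field Ω] [Algebra k Ω] {c : ℕ} (z : Fin c → Ω)
    {x : Ω} (hx : IsAlgebraic (Algebra.adjoin k (Set.range z)) x) :
    ∃ Q : Polynomial (MvPolynomial (Option (Fin c)) k), Q ≠ 0 ∧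
      Q.eval₂ (jm (k := k) z).toRingHom (Polynomial.C x) = 0 := by
  classical
  obtain ⟨q, hq0, hq⟩ := hx
  have hc : ∀ j, ∃ (N : ℕ) (F : MvPolynomial (Option (Fin c)) k),
      jm z F = Polynomial.C ((q.coeff j : Ω)) * Polynomial.X ^ N := fun j => by
    obtain ⟨F₀, hF₀⟩ : ∃ F₀ : MvPolynomial (Fin c) k, aeval z F₀ = (q.coeff j : Ω) := by
      have h : ∀ t ∈ Algebra.adjoin k (Set.range z), ∃ F₀ : MvPolynomial (Fin c) k,
          aeval z F₀ = t := fun t ht => by
        rw [Algebra.adjoin_range_eq_range_aeval] at ht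
        exact ht
      exact h _ (q.coeff j).2
    obtain ⟨N, F', h⟩ := exists_homog F₀
    refine ⟨N, F', ?_⟩
    have h1 := h (Polynomial Ω) (algebraMap k (Polynomial Ω)) Polynomial.X
      (fun i => Polynomial.C (z i)) (fun i => Polynomial.C (z i) * Polynomial.X)
      (fun i => mul_comm _ _)
    rw [jm, aeval_def, h1, ← hF₀]
    congr 1
    rw [aeval_def, hom_eval₂]
    rfl
  choose N F hF using hc
  set M := q.support.sup N with hM
  refine ⟨∑ j ∈ q.support, Polynomial.monomial j (F j * X none ^ (M - N j)), ?_, ?_⟩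
  · intro h
    have h1 := congrArg (fun r => Polynomial.coeff r q.natDegree) h
    simp only [Polynomial.finsetSum_coeff, Polynomial.coeff_monomial, Polynomial.coeff_zero] at h1
    rw [Finset.sum_ite_eq' q.support q.natDegree,
      if_pos (Polynomial.natDegree_mem_support_of_nonzero hq0)] at h1
    have h2 := congrArg (jm (k := k) z) h1
    rw [map_mul, hF, map_pow, jm_none, map_zero] at h2
    have h3 : (q.coeff q.natDegree : Ω) ≠ 0 := by
      intro h4
      apply hq0
      rw [← Polynomial.leadingCoeff_eq_zero]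
      exact Subtype.ext h4
    have hX : (Polynomial.X : Polynomial Ω) ≠ 0 := Polynomial.X_ne_zero
    exact (mul_ne_zero (mul_ne_zero (Polynomial.C_ne_zero.2 h3) (pow_ne_zero _ hX))
      (pow_ne_zero _ hX)) h2
  · rw [Polynomial.eval₂_finsetSum]
    have h1 : ∀ j ∈ q.support, Polynomial.eval₂ (jm (k := k) z).toRingHom (Polynomial.C x)
        (Polynomial.monomial j (F j * X none ^ (M - N j))) =
        Polynomial.C ((q.coeff j : Ω) * x ^ j) * Polynomial.X ^ M := fun j hj => by
      rw [Polynomial.eval₂_monomial]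
      have h2 : (jm (k := k) z).toRingHom (F j * X none ^ (M - N j)) =
          jm (k := k) z (F j) * jm (k := k) z (X none) ^ (M - N j) := by
        rw [← map_pow, ← map_mul]
        rfl
      have h3 : M = N j + (M - N j) := (Nat.add_sub_cancel' (Finset.le_sup hj)).symm
      have h4 : (Polynomial.X : Polynomial Ω) ^ M = Polynomial.X ^ N j * Polynomial.X ^ (M - N j) := by
        rw [← pow_add, ← h3]
      rw [h2, hF, jm_none, h4, Polynomial.C_mul, Polynomial.C_pow]
      ring
    rw [Finset.sum_congr rfl h1, ← Finset.sum_mul, ← map_sum]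
    have h3 : ∑ j ∈ q.support, (q.coeff j : Ω) * x ^ j = 0 := by
      rw [Polynomial.aeval_def, Polynomial.eval₂_eq_sum, Polynomial.sum_def] at hq
      exact hq
    rw [h3, map_zero, zero_mul]

/-- The finite extension. -/
theorem exists_adjoin {S P : Type} [CommRing S] [IsDomain S] [CommRing P] [IsDomain P]
    [Algebra S P] {c : ℕ} (x : Fin c → P)
    (hx : ∀ i, IsAlgebraic S (x i)) :
    ∃ (R : Type) (_ : CommRing R) (_ : IsDomain R) (_ : Algebra S R) (_ : Module.Finite S R)
      (v : R →+* P) (H : S) (r : Fin c → R), Function.Injective v ∧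
      (∀ s, v (algebraMap S R s) = algebraMap S P s) ∧ H ≠ 0 ∧
      ∀ i, v (r i) = algebraMap S P H * x i := by
  classical
  have h1 : ∀ i, ∃ y : S, y ≠ 0 ∧ IsIntegral S (y • x i) := fun i => by
    obtain ⟨y, hy, h⟩ := (hx i).exists_integral_multiple
    exact ⟨y, hy, h⟩
  choose y hy0 hy using h1
  have hH : ∏ i, y i ≠ 0 := Finset.prod_ne_zero_iff.2 fun i _ => hy0 i
  have hint : ∀ i, IsIntegral S ((∏ i, y i) • x i) := fun i => by
    rw [← Finset.mul_prod_erase Finset.univ y (Finset.mem_univ i), mul_comm, mul_smul]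
    exact (hy i).smul _
  have hfg : (Algebra.adjoin S (Set.range fun i => (∏ i, y i) • x i)).toSubmodule.FG :=
    fg_adjoin_of_finite (Set.finite_range _) (by
      rintro _ ⟨i, rfl⟩
      exact hint i)
  refine ⟨Algebra.adjoin S (Set.range fun i => (∏ i, y i) • x i), inferInstance, inferInstance,
    inferInstance, Module.Finite.iff_fg.2 hfg, (Subalgebra.val _).toRingHom, ∏ i, y i,
    fun i => ⟨(∏ i, y i) • x i, Algebra.subset_adjoin ⟨i, rfl⟩⟩, Subtype.val_injective,
    fun s => rfl, hH, fun i => ?_⟩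
  exact Algebra.smul_def _ _

/-- A maximal independent family of a finite module spans up to a multiple. -/
theorem exists_family {S R : Type} [CommRing S] [IsDomain S] [CommRing R] [Algebra S R]
    [Module.Finite S R] :
    ∃ (m : Type) (_ : Finite m) (e : m → R) (h : S), LinearIndependent S e ∧ h ≠ 0 ∧
      ∀ x : R, h • x ∈ Submodule.span S (Set.range e) := by
  classical
  obtain ⟨n, g, hg⟩ := Module.Finite.exists_fin (R := S) (M := R)
  obtain ⟨s, hs, hmax⟩ := exists_maximal_linearIndepOn S g
  have h1 : ∀ i, ∃ a : S, a ≠ 0 ∧ a • g i ∈ Submodule.span S (g '' s) := fun i => by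
    by_cases hi : i ∈ s
    · exact ⟨1, one_ne_zero, by
        rw [one_smul]
        exact Submodule.subset_span ⟨i, hi, rfl⟩⟩
    · exact hmax i hi
  choose a ha0 ha using h1
  refine ⟨s, inferInstance, fun i => g i, ∏ i, a i, hs, Finset.prod_ne_zero_iff.2 fun i _ => ha0 i,
    fun x => ?_⟩
  have hrange : Set.range (fun i : s => g i) = g '' s := by
    ext t
    constructor
    · rintro ⟨i, rfl⟩
      exact ⟨i, i.2, rfl⟩
    · rintro ⟨i, hi, rfl⟩
      exact ⟨⟨i, hi⟩, rfl⟩
  rw [hrange]
  have hx : x ∈ Submodule.span S (Set.range g) := by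
    rw [hg]
    exact Submodule.mem_top
  induction hx using Submodule.span_induction with
  | mem t ht =>
    obtain ⟨i, rfl⟩ := ht
    rw [← Finset.mul_prod_erase Finset.univ a (Finset.mem_univ i), mul_comm, mul_smul]
    exact Submodule.smul_mem _ _ (ha i)
  | zero =>
    rw [smul_zero]
    exact Submodule.zero_mem _
  | add t u _ _ ht hu =>
    rw [smul_add]
    exact Submodule.add_mem _ ht hu
  | smul b t _ ht =>
    rw [smul_comm]
    exact Submodule.smul_mem _ _ ht

/-- Relations between the two tuples hold at the point. -/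
theorem transfer (p : ℕ) [Fact p.Prime] {c : ℕ} {Ω : Type} [Field Ω] [Algebra (ZMod p) Ω]
    (z w : Fin c → Ω) {R : Type} [CommRing R]
    [Algebra (MvPolynomial (Option (Fin c)) (ZMod p)) R]
    (v : R →+* Polynomial Ω) (hv : Function.Injective v)
    (hvz : ∀ x, v (algebraMap (MvPolynomial (Option (Fin c)) (ZMod p)) R x) = jm z x)
    (β : MvPolynomial (Option (Fin c)) (ZMod p) →+* R)
    (G₀ : MvPolynomial (Option (Fin c)) (ZMod p))
    (hβ0 : β (X none) = algebraMap (MvPolynomial (Option (Fin c)) (ZMod p)) R G₀)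
    (hβw : ∀ i, v (β (X (some i))) = jm z G₀ * Polynomial.C (w i))
    (ψ : R →+* AlgebraicClosure (ZMod p)) (Q : ℕ)
    (hψ : ∀ x, ψ (β x) = ψ (algebraMap (MvPolynomial (Option (Fin c)) (ZMod p)) R x) ^ Q)
    (x₀ : AlgebraicClosure (ZMod p)) (hx₀ : x₀ ≠ 0)
    (hx : ψ (algebraMap (MvPolynomial (Option (Fin c)) (ZMod p)) R (X none)) = x₀)
    (y : Fin c → AlgebraicClosure (ZMod p))
    (hy : ∀ i, ψ (algebraMap (MvPolynomial (Option (Fin c)) (ZMod p)) R (X (some i))) = x₀ * y i)
    (F : MvPolynomial (Fin c ⊕ Fin c) (ZMod p)) (hF : aeval (Sum.elim z w) F = 0) :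
    aeval (Sum.elim y fun i => y i ^ Q) F = 0 := by
  obtain ⟨N, F', h⟩ := exists_homog F
  -- the two evaluations
  have h1 := h (Polynomial Ω) (algebraMap (ZMod p) (Polynomial Ω)) (Polynomial.X * jm z G₀)
    (fun o => Polynomial.C (Sum.elim z w o))
    (fun o => v (Sum.elim (fun i => algebraMap (MvPolynomial (Option (Fin c)) (ZMod p)) R
        (X (some i) * G₀))
      (fun i => algebraMap (MvPolynomial (Option (Fin c)) (ZMod p)) R (X none) * β (X (some i))) o))
    (by
      rintro (i | i)
      · simp only [Sum.elim_inl]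
        rw [hvz, map_mul, jm_some]
        ring
      · simp only [Sum.elim_inr]
        rw [map_mul, hvz, jm_none, hβw]
        ring)
  have h2 : eval₂ (algebraMap (ZMod p) (Polynomial Ω)) (fun o => Polynomial.C (Sum.elim z w o)) F
      = 0 := by
    have h3 : (Polynomial.C : Ω →+* Polynomial Ω) (aeval (Sum.elim z w) F) = 0 := by
      rw [hF, map_zero]
    rw [aeval_def, hom_eval₂] at h3
    exact h3
  rw [h2, zero_mul] at h1
  have h4 : eval₂ ((algebraMap (MvPolynomial (Option (Fin c)) (ZMod p)) R).comp C)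
      (fun o => o.elim (algebraMap (MvPolynomial (Option (Fin c)) (ZMod p)) R (X none * G₀))
        (Sum.elim (fun i => algebraMap (MvPolynomial (Option (Fin c)) (ZMod p)) R
          (X (some i) * G₀))
        (fun i => algebraMap (MvPolynomial (Option (Fin c)) (ZMod p)) R (X none) *
          β (X (some i))))) F' = 0 := by
    apply hv
    rw [hom_eval₂, map_zero, ← h1]
    congr 1
    · exact RingHom.ext_zmod _ _
    · funext o
      cases o with
      | none =>
        simp only [Option.elim]
        rw [hvz, map_mul, jm_none]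
      | some o => rfl
  have h5 := congrArg ψ h4
  rw [hom_eval₂, map_zero] at h5
  have h6 := h (AlgebraicClosure (ZMod p))
    (ψ.comp ((algebraMap (MvPolynomial (Option (Fin c)) (ZMod p)) R).comp C))
    (x₀ * x₀ ^ Q) (Sum.elim y fun i => y i ^ Q)
    (fun o => ψ (Sum.elim (fun i => algebraMap (MvPolynomial (Option (Fin c)) (ZMod p)) R
        (X (some i) * G₀))
      (fun i => algebraMap (MvPolynomial (Option (Fin c)) (ZMod p)) R (X none) * β (X (some i))) o))
    (by
      rintro (i | i)
      · simp only [Sum.elim_inl]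
        rw [map_mul, map_mul, hy, ← hβ0, hψ, hx]
        ring
      · simp only [Sum.elim_inr]
        rw [map_mul, hx, hψ, hy, mul_pow]
        ring)
  have h7 : eval₂ (ψ.comp ((algebraMap (MvPolynomial (Option (Fin c)) (ZMod p)) R).comp C))
      (Sum.elim y fun i => y i ^ Q) F * (x₀ * x₀ ^ Q) ^ N = 0 := by
    rw [← h6, ← h5]
    congr 1
    funext o
    cases o with
    | none =>
      simp only [Option.elim]
      rw [map_mul, map_mul, ← hβ0, hψ, hx]
    | some o => rfl
  have h8 := (mul_eq_zero.1 h7).resolve_right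
    (pow_ne_zero _ (mul_ne_zero hx₀ (pow_ne_zero _ hx₀)))
  rw [aeval_def, ← h8]
  congr 1
  exact RingHom.ext_zmod _ _

/-- Part B from part A. -/
theorem partB_of (p : ℕ) [Fact p.Prime]
    (hA : ∀ (ι m R : Type) [Fintype ι] [Finite m] [CommRing R]
      [IsDomain R] [Algebra (MvPolynomial ι (ZMod p)) R]
      [Module.Finite (MvPolynomial ι (ZMod p)) R]
      (_ : Function.Injective (algebraMap (MvPolynomial ι (ZMod p)) R))
      (β : MvPolynomial ι (ZMod p) →+* R) (_ : Function.Injective β)
      (r : ι → R) (e : m → R) (_ : LinearIndependent (MvPolynomial ι (ZMod p)) e)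
      (h : MvPolynomial ι (ZMod p)) (_ : h ≠ 0)
      (_ : ∀ x : R, h • x ∈ Submodule.span (MvPolynomial ι (ZMod p)) (Set.range e))
      (_ : ∀ i, β (X i) = h • r i) (D : R) (_ : D ≠ 0),
      ∃ Q₀ : ℕ, ∀ s : ℕ, Q₀ ≤ p ^ s → ∃ ψ : R →+* AlgebraicClosure (ZMod p),
        (∀ x, ψ (β x) = ψ (algebraMap (MvPolynomial ι (ZMod p)) R x) ^ p ^ s) ∧ ψ D ≠ 0)
    (c : ℕ) (Ω : Type) [Field Ω] [Algebra (ZMod p) Ω]
    (z w : Fin c → Ω) (hz : AlgebraicIndependent (ZMod p) z)
    (hw : AlgebraicIndependent (ZMod p) w)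
    (halg : ∀ i, IsAlgebraic (Algebra.adjoin (ZMod p) (Set.range z)) (w i))
    (D : MvPolynomial (Fin c) (ZMod p)) (hD : D ≠ 0) :
    ∃ Q₀ : ℕ, ∀ s : ℕ, Q₀ ≤ p ^ s → ∃ y : Fin c → AlgebraicClosure (ZMod p), aeval y D ≠ 0 ∧
      ∀ F : MvPolynomial (Fin c ⊕ Fin c) (ZMod p), aeval (Sum.elim z w) F = 0 →
        aeval (Sum.elim y fun i => y i ^ p ^ s) F = 0 := by
  classical
  have hjz := jm_injective (k := ZMod p) z hz
  have hjw := jm_injective (k := ZMod p) w hw
  obtain ⟨R, iR, iD, iA, iF, v, H, rr, hv, hvz, hH, hr⟩ :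
      ∃ (R : Type) (_ : CommRing R) (_ : IsDomain R)
        (_ : Algebra (MvPolynomial (Option (Fin c)) (ZMod p)) R)
        (_ : Module.Finite (MvPolynomial (Option (Fin c)) (ZMod p)) R)
        (v : R →+* Polynomial Ω) (H : MvPolynomial (Option (Fin c)) (ZMod p)) (r : Fin c → R),
        Function.Injective v ∧
        (∀ s, v (algebraMap (MvPolynomial (Option (Fin c)) (ZMod p)) R s) = jm z s) ∧ H ≠ 0 ∧
        ∀ i, v (r i) = jm z H * Polynomial.C (w i) := by
    let _ : Algebra (MvPolynomial (Option (Fin c)) (ZMod p)) (Polynomial Ω) :=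
      (jm (k := ZMod p) z).toRingHom.toAlgebra
    exact exists_adjoin (S := MvPolynomial (Option (Fin c)) (ZMod p)) (P := Polynomial Ω)
      (fun i => Polynomial.C (w i)) fun i => by
        obtain ⟨Q, hQ0, hQ⟩ := exists_rel (k := ZMod p) z (halg i)
        exact ⟨Q, hQ0, hQ⟩
  obtain ⟨m, im, e, h, he, h0, hspan⟩ :=
    exists_family (S := MvPolynomial (Option (Fin c)) (ZMod p)) (R := R)
  have hinj : Function.Injective (algebraMap (MvPolynomial (Option (Fin c)) (ZMod p)) R) := by
    intro a b hab
    apply hjz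
    rw [← hvz, ← hvz, hab]
  -- the injection
  set β : MvPolynomial (Option (Fin c)) (ZMod p) →+* R :=
    eval₂Hom ((algebraMap (MvPolynomial (Option (Fin c)) (ZMod p)) R).comp C)
      (fun o => o.elim (algebraMap (MvPolynomial (Option (Fin c)) (ZMod p)) R (h * H * X none))
        (fun i => algebraMap (MvPolynomial (Option (Fin c)) (ZMod p)) R (h * X none) * rr i))
    with hβdef
  have hβ0 : β (X none) = algebraMap (MvPolynomial (Option (Fin c)) (ZMod p)) R
      (h * H * X none) := by
    rw [hβdef, eval₂Hom_X']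
    rfl
  have hβs : ∀ i, β (X (some i)) =
      algebraMap (MvPolynomial (Option (Fin c)) (ZMod p)) R (h * X none) * rr i := fun i => by
    rw [hβdef, eval₂Hom_X']
    rfl
  have hβw : ∀ i, v (β (X (some i))) = jm z (h * H * X none) * Polynomial.C (w i) := fun i => by
    rw [hβs, map_mul, hvz, hr, map_mul, map_mul, map_mul]
    ring
  have hβ : Function.Injective β := by
    set g : Polynomial Ω := jm z (h * H * X none) with hg
    have hgdeg : 0 < g.natDegree := by
      rw [hg, map_mul, jm_none, Polynomial.natDegree_mul_X]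
      · exact Nat.succ_pos _
      · rw [Ne, map_eq_zero_iff _ hjz]
        exact mul_ne_zero h0 hH
    have hcomp : v.comp β = (Polynomial.compRingHom g).comp (jm (k := ZMod p) w).toRingHom := by
      apply MvPolynomial.ringHom_ext'
      · exact RingHom.ext_zmod _ _
      · intro o
        cases o with
        | none =>
          rw [RingHom.comp_apply, hβ0, hvz, RingHom.comp_apply]
          have h3 : (jm (k := ZMod p) w).toRingHom (X none) = Polynomial.X := jm_none w
          rw [h3, Polynomial.coe_compRingHom_apply, Polynomial.X_comp]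
        | some i =>
          rw [RingHom.comp_apply, hβw, RingHom.comp_apply]
          have h3 : (jm (k := ZMod p) w).toRingHom (X (some i)) =
              Polynomial.C (w i) * Polynomial.X := jm_some w i
          rw [h3, Polynomial.coe_compRingHom_apply, Polynomial.mul_comp, Polynomial.C_comp,
            Polynomial.X_comp, mul_comm]
    rw [injective_iff_map_eq_zero]
    intro a ha
    have h3 := RingHom.congr_fun hcomp a
    rw [RingHom.comp_apply, ha, map_zero, RingHom.comp_apply,
      Polynomial.coe_compRingHom_apply] at h3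
    rcases Polynomial.comp_eq_zero_iff.1 h3.symm with h4 | ⟨_, h4⟩
    · exact hjw (h4.trans (map_zero (jm (k := ZMod p) w)).symm)
    · rw [h4, Polynomial.natDegree_C] at hgdeg
      exact absurd hgdeg (lt_irrefl 0)
  -- the excluded locus
  obtain ⟨N, D', hD'⟩ := exists_homog D
  have hD'0 : D' ≠ 0 := by
    intro hD0
    have h3 := hD' (Polynomial Ω) (algebraMap (ZMod p) (Polynomial Ω)) Polynomial.X
      (fun i => Polynomial.C (z i)) (fun i => Polynomial.X * Polynomial.C (z i)) (fun i => rfl)
    rw [hD0, eval₂_zero] at h3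
    have h4 : eval₂ (algebraMap (ZMod p) (Polynomial Ω)) (fun i => Polynomial.C (z i)) D =
        Polynomial.C (aeval z D) := by
      rw [aeval_def, hom_eval₂]
      rfl
    rw [h4] at h3
    have h5 : aeval z D ≠ 0 := by
      rw [Ne, map_eq_zero_iff _ hz]
      exact hD
    exact (mul_ne_zero (Polynomial.C_ne_zero.2 h5) (pow_ne_zero _ Polynomial.X_ne_zero)) h3.symm
  have hDD : algebraMap (MvPolynomial (Option (Fin c)) (ZMod p)) R (X none * D') ≠ 0 := by
    rw [Ne, map_eq_zero_iff _ hinj]
    exact mul_ne_zero (X_ne_zero _) hD'0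
  obtain ⟨Q₀, hQ₀⟩ := hA (Option (Fin c)) m R hinj β hβ
    (fun o => o.elim (algebraMap (MvPolynomial (Option (Fin c)) (ZMod p)) R (H * X none))
      (fun i => algebraMap (MvPolynomial (Option (Fin c)) (ZMod p)) R (X none) * rr i))
    e he h h0 hspan (fun o => by
      cases o with
      | none =>
        rw [hβ0, Algebra.smul_def]
        simp only [Option.elim, map_mul]
        ring
      | some i =>
        rw [hβs, Algebra.smul_def]
        simp only [Option.elim, map_mul]
        ring) _ hDD
  refine ⟨Q₀, fun s hs => ?_⟩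
  obtain ⟨ψ, hψ, hψD⟩ := hQ₀ s hs
  rw [map_mul, map_mul] at hψD
  have hx₀ := left_ne_zero_of_mul hψD
  have hψD' := right_ne_zero_of_mul hψD
  set x₀ := ψ (algebraMap (MvPolynomial (Option (Fin c)) (ZMod p)) R (X none)) with hx₀def
  have hy : ∀ i, ψ (algebraMap (MvPolynomial (Option (Fin c)) (ZMod p)) R (X (some i))) =
      x₀ * (ψ (algebraMap (MvPolynomial (Option (Fin c)) (ZMod p)) R (X (some i))) / x₀) :=
    fun i => (mul_div_cancel₀ _ hx₀).symm
  refine ⟨fun i => ψ (algebraMap (MvPolynomial (Option (Fin c)) (ZMod p)) R (X (some i))) / x₀,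
    ?_, fun F hF => transfer p z w v hv hvz β (h * H * X none) hβ0 hβw ψ (p ^ s) hψ x₀ hx₀ rfl
      _ hy F hF⟩
  intro hcon
  apply hψD'
  have h3 := hD' (AlgebraicClosure (ZMod p)) (algebraMap (ZMod p) (AlgebraicClosure (ZMod p))) x₀
    (fun i => ψ (algebraMap (MvPolynomial (Option (Fin c)) (ZMod p)) R (X (some i))) / x₀)
    (fun i => ψ (algebraMap (MvPolynomial (Option (Fin c)) (ZMod p)) R (X (some i)))) hy
  rw [← aeval_def, ← aeval_def, hcon, zero_mul] at h3
  rw [← h3]
  have h4 : ψ.comp (algebraMap (MvPolynomial (Option (Fin c)) (ZMod p)) R) =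
      (aeval (fun o : Option (Fin c) => o.elim x₀
        (fun i => ψ (algebraMap (MvPolynomial (Option (Fin c)) (ZMod p)) R (X (some i))))) :
        MvPolynomial (Option (Fin c)) (ZMod p) →ₐ[ZMod p] AlgebraicClosure (ZMod p)).toRingHom := by
    apply MvPolynomial.ringHom_ext'
    · exact RingHom.ext_zmod _ _
    · intro o
      cases o with
      | none =>
        simp [hx₀def]
      | some i =>
        simp
  exact RingHom.congr_fun h4 D'

/-- Part B. -/
theorem partB (p : ℕ) [Fact p.Prime] (c : ℕ) (Ω : Type) [Field Ω] [Algebra (ZMod p) Ω]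
    (z w : Fin c → Ω) (hz : AlgebraicIndependent (ZMod p) z)
    (hw : AlgebraicIndependent (ZMod p) w)
    (halg : ∀ i, IsAlgebraic (Algebra.adjoin (ZMod p) (Set.range z)) (w i))
    (D : MvPolynomial (Fin c) (ZMod p)) (hD : D ≠ 0) :
    ∃ Q₀ : ℕ, ∀ s : ℕ, Q₀ ≤ p ^ s → ∃ y : Fin c → AlgebraicClosure (ZMod p), aeval y D ≠ 0 ∧
      ∀ F : MvPolynomial (Fin c ⊕ Fin c) (ZMod p), aeval (Sum.elim z w) F = 0 →
        aeval (Sum.elim y fun i => y i ^ p ^ s) F = 0 :=
  partB_of p (fun _ _ _ _ _ _ _ _ _ hinj β hβ r e he h h0 hR hb D hD =>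
    partA p hinj β hβ r e he h h0 hR hb D hD) c Ω z w hz hw halg D hD

end Pool.Agent.H91.FP
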