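import Mathlib
import Pool.Agent.H91.FP.Ext

/-!
# The first stage: points of the truncated correspondence
-/

set_option autoImplicit false

open MvPolynomial

namespace Pool.Agent.H91.FP

/-- The `p ^ s`-th power map commutes with polynomials over the prime field. -/
theorem aeval_pow_card (p : ℕ) [Fact p.Prime] {σ K : Type} [Field K] [Algebra (ZMod p) K]
    (s : ℕ) (y : σ → K) (G : MvPolynomial σ (ZMod p)) :
    aeval (fun i => y i ^ p ^ s) G = aeval y G ^ p ^ s := by
  have : CharP K p := (Algebra.charP_iff (ZMod p) K p).1 inferInstance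
  have h : (aeval (fun i => y i ^ p ^ s) : MvPolynomial σ (ZMod p) →ₐ[ZMod p] K).toRingHom =
      (iterateFrobenius K p s).comp
        (aeval y : MvPolynomial σ (ZMod p) →ₐ[ZMod p] K).toRingHom := by
    refine MvPolynomial.ringHom_ext' (RingHom.ext_zmod _ _) fun i => ?_
    simp [iterateFrobenius_def]
  exact congrArg (fun f : MvPolynomial σ (ZMod p) →+* K => f G) h

theorem rename_add_mem_supported {k : Type} [CommRing k] (n N : ℕ) (F : MvPolynomial ℕ k)
    (hF : F ∈ supported k {l | l < N}) :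
    rename (fun l => l + n) F ∈ supported k {l | l < N + n} := by
  classical
  rw [mem_supported] at hF ⊢
  intro i hi
  obtain ⟨j, hj, rfl⟩ := Finset.mem_image.1 (vars_rename _ _ hi)
  have h : j < N := hF hj
  exact Nat.add_lt_add_right h n

/-- FP7 from FP5 as a hypothesis. -/
theorem stageOne_of (p : ℕ) [Fact p.Prime]
    (partB : ∀ (c : ℕ) (Ω : Type) [Field Ω] [Algebra (ZMod p) Ω]
      (z w : Fin c → Ω) (_ : AlgebraicIndependent (ZMod p) z)
      (_ : AlgebraicIndependent (ZMod p) w)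
      (_ : ∀ i, IsAlgebraic (Algebra.adjoin (ZMod p) (Set.range z)) (w i))
      (D : MvPolynomial (Fin c) (ZMod p)) (_ : D ≠ 0),
      ∃ Q₀ : ℕ, ∀ s : ℕ, Q₀ ≤ p ^ s → ∃ y : Fin c → AlgebraicClosure (ZMod p), aeval y D ≠ 0 ∧
        ∀ F : MvPolynomial (Fin c ⊕ Fin c) (ZMod p), aeval (Sum.elim z w) F = 0 →
          aeval (Sum.elim y fun i => y i ^ p ^ s) F = 0)
    (J : Ideal (MvPolynomial ℕ (ZMod p))) (n : ℕ)
    (hS : ∀ F, F ∈ J ↔ rename (fun l => l + n) F ∈ J)
    (hU : ∀ N : ℕ, ∃ (c : ℕ) (φ : MvPolynomial ℕ (ZMod p) →ₐ[ZMod p] MvPolynomial (Fin c) (ZMod p)),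
      ∀ F ∈ supported (ZMod p) {l | l < N}, F ∈ J ↔ φ F = 0)
    (N : ℕ) (D : MvPolynomial ℕ (ZMod p)) (hD : D ∈ supported (ZMod p) {l | l < N + n})
    (hDJ : D ∉ J) :
    ∃ Q₀ : ℕ, ∀ s : ℕ, Q₀ ≤ p ^ s → ∃ y : ℕ → AlgebraicClosure (ZMod p),
      (∀ F ∈ supported (ZMod p) {l | l < N + n}, F ∈ J → aeval y F = 0) ∧
      (∀ l < N, y (l + n) = y l ^ p ^ s) ∧ aeval y D ≠ 0 := by
  obtain ⟨c, φ, hφ⟩ := hU (N + n)
  let S := MvPolynomial (Fin c) (ZMod p)
  let Ω := AlgebraicClosure (FractionRing S)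
  let ι : S →ₐ[ZMod p] Ω := IsScalarTower.toAlgHom (ZMod p) S Ω
  have hι : Function.Injective ι := by
    have h : (ι : S → Ω) = algebraMap (FractionRing S) Ω ∘ algebraMap S (FractionRing S) :=
      funext fun x => IsScalarTower.algebraMap_apply S (FractionRing S) Ω x
    rw [h]
    exact (algebraMap (FractionRing S) Ω).injective.comp (IsFractionRing.injective S _)
  have fS : FaithfulSMul S Ω := (faithfulSMul_iff_algebraMap_injective S Ω).2 hι
  have algS : Algebra.IsAlgebraic S Ω :=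
    (IsFractionRing.comap_isAlgebraic_iff (A := S) (K := FractionRing S) (C := Ω)).2 inferInstance
  let z : Fin c → Ω := fun i => ι (X i)
  have hιz : ∀ G : S, aeval z G = ι G := fun G => by
    have : (aeval z : S →ₐ[ZMod p] Ω) = ι := MvPolynomial.algHom_ext fun i => by simp [z]
    rw [this]
  have hz : AlgebraicIndependent (ZMod p) z := by
    intro a b hab
    rw [hιz, hιz] at hab
    exact hι hab
  have hbas : IsTranscendenceBasis (ZMod p) z := by
    have h := (IsTranscendenceBasis.mvPolynomial (Fin c) (ZMod p)).algebraMap_comp (A := Ω)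
    exact h
  have htr : Algebra.trdeg (ZMod p) Ω < Cardinal.aleph0 := by
    rw [← hbas.cardinalMk_eq_trdeg]
    exact Cardinal.mk_lt_aleph0
  let P := supported (ZMod p) {l : ℕ | l < N}
  let φ₁ : P →ₐ[ZMod p] Ω := (ι.comp φ).comp P.val
  let φ₂ : P →ₐ[ZMod p] Ω := ((ι.comp φ).comp (rename (fun l => l + n))).comp P.val
  have hker : ∀ x, φ₁ x = 0 ↔ φ₂ x = 0 := by
    intro x
    have h1 : φ₁ x = ι (φ x) := rfl
    have h2 : φ₂ x = ι (φ (rename (fun l => l + n) (x : MvPolynomial ℕ (ZMod p)))) := rfl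
    have hx : (x : MvPolynomial ℕ (ZMod p)) ∈ supported (ZMod p) {l | l < N + n} :=
      supported_mono (fun l (hl : l < N) => lt_of_lt_of_le hl (Nat.le_add_right N n)) x.2
    rw [h1, h2, map_eq_zero_iff ι hι, map_eq_zero_iff ι hι, ← hφ _ hx,
      ← hφ _ (rename_add_mem_supported n N x x.2)]
    exact hS _
  obtain ⟨τ, hτ⟩ := exists_extend htr φ₁ φ₂ hker
  let w : Fin c → Ω := τ ∘ z
  have hw : AlgebraicIndependent (ZMod p) w := hz.map' τ.toRingHom.injective
  have halg : ∀ i, IsAlgebraic (Algebra.adjoin (ZMod p) (Set.range z)) (w i) := fun i =>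
    hbas.isAlgebraic.isAlgebraic (w i)
  have hwz : ∀ G : S, aeval w G = τ (ι G) := fun G => by
    have : (aeval w : S →ₐ[ZMod p] Ω) = τ.comp ι :=
      MvPolynomial.algHom_ext fun i => by simp [w, z]
    rw [this]
    rfl
  have hD0 : φ D ≠ 0 := fun h => hDJ ((hφ D hD).2 h)
  obtain ⟨Q₀, hQ⟩ := partB c Ω z w hz hw halg (φ D) hD0
  refine ⟨Q₀, fun s hs => ?_⟩
  obtain ⟨y', hy1, hy2⟩ := hQ s hs
  have hy : ∀ F : MvPolynomial ℕ (ZMod p),
      aeval (fun l => aeval y' (φ (X l))) F = aeval y' (φ F) := fun F => by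
    have : (aeval (fun l => aeval y' (φ (X l))) :
        MvPolynomial ℕ (ZMod p) →ₐ[ZMod p] AlgebraicClosure (ZMod p)) = (aeval y').comp φ :=
      MvPolynomial.algHom_ext fun i => by simp
    rw [this]
    rfl
  refine ⟨fun l => aeval y' (φ (X l)), fun F hF hFJ => ?_, fun l hl => ?_, ?_⟩
  · rw [hy, (hφ F hF).1 hFJ, map_zero]
  · have hX : (X l : MvPolynomial ℕ (ZMod p)) ∈ supported (ZMod p) {l | l < N} :=
      X_mem_supported.2 hl
    have h1 := hτ ⟨X l, hX⟩
    have h2 : φ₁ ⟨X l, hX⟩ = ι (φ (X l)) := rfl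
    have h3 : φ₂ ⟨X l, hX⟩ = ι (φ (X (l + n))) := by
      have h4 : φ₂ ⟨X l, hX⟩ = ι (φ (rename (fun l => l + n) (X l))) := rfl
      rw [h4, rename_X]
    rw [h2, h3] at h1
    have h5 := hy2 (rename Sum.inl (φ (X (l + n))) - rename Sum.inr (φ (X l))) (by
      rw [map_sub, aeval_rename, aeval_rename, Sum.elim_comp_inl, Sum.elim_comp_inr, hιz, hwz, h1,
        sub_self])
    rw [map_sub, aeval_rename, aeval_rename, Sum.elim_comp_inl, Sum.elim_comp_inr,
      aeval_pow_card, sub_eq_zero] at h5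
    exact h5
  · rw [hy]
    exact hy1

end Pool.Agent.H91.FP
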