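import Mathlib
import Pool.Agent.H91.FP.StageOne
import Pool.Agent.H91.FP.PartB

/-!
# Part C: propagation of the first stage by pseudo-division
-/

set_option autoImplicit false

open MvPolynomial

namespace Pool.Agent.H91.FP

/-- FP7.  First stage. -/
theorem stageOne (p : ℕ) [Fact p.Prime] (J : Ideal (MvPolynomial ℕ (ZMod p))) (n : ℕ)
    (hS : ∀ F, F ∈ J ↔ rename (fun l => l + n) F ∈ J)
    (hU : ∀ N : ℕ, ∃ (c : ℕ) (φ : MvPolynomial ℕ (ZMod p) →ₐ[ZMod p] MvPolynomial (Fin c) (ZMod p)),
      ∀ F ∈ supported (ZMod p) {l | l < N}, F ∈ J ↔ φ F = 0)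
    (N : ℕ) (D : MvPolynomial ℕ (ZMod p)) (hD : D ∈ supported (ZMod p) {l | l < N + n})
    (hDJ : D ∉ J) :
    ∃ Q₀ : ℕ, ∀ s : ℕ, Q₀ ≤ p ^ s → ∃ y : ℕ → AlgebraicClosure (ZMod p),
      (∀ F ∈ supported (ZMod p) {l | l < N + n}, F ∈ J → aeval y F = 0) ∧
      (∀ l < N, y (l + n) = y l ^ p ^ s) ∧ aeval y D ≠ 0 :=
  stageOne_of p (partB p) J n hS hU N D hD hDJ

/-- A sequence which decreases along steps of length `n` is eventually constant along them. -/
theorem stab (e : ℕ → ℕ∞) (n : ℕ) (hn : 0 < n) (h : ∀ l, e (l + n) ≤ e l) (L : ℕ) :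
    ∃ l₀ ≥ L, ∀ l ≥ l₀, e (l + n) = e l := by
  classical
  have key : ∀ r : ℕ, ∃ q₀ : ℕ, ∀ q ≥ q₀, e (r + q * n) = e (r + q₀ * n) := by
    intro r
    have hanti : Antitone fun q : ℕ => e (r + q * n) := by
      refine antitone_nat_of_succ_le fun q => ?_
      have := h (r + q * n)
      rwa [show r + (q + 1) * n = r + q * n + n by ring]
    obtain ⟨m, ⟨q₀, hq₀⟩, hm⟩ := (wellFounded_lt (α := ℕ∞)).has_min
      (Set.range fun q : ℕ => e (r + q * n)) (Set.range_nonempty _)
    refine ⟨q₀, fun q hq => le_antisymm (hanti hq) ?_⟩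
    have h1 : m = e (r + q₀ * n) := hq₀.symm
    have h2 := hm _ ⟨q, rfl⟩
    rw [← h1]
    exact not_lt.1 h2
  choose q₀ hq₀ using key
  refine ⟨max L (((Finset.range n).sup q₀) * n), le_max_left _ _, fun l hl => ?_⟩
  have hl2 : ((Finset.range n).sup q₀) * n ≤ l := (le_max_right _ _).trans hl
  have hq : (Finset.range n).sup q₀ ≤ l / n := (Nat.le_div_iff_mul_le hn).2 hl2
  have hr : q₀ (l % n) ≤ l / n :=
    (Finset.le_sup (f := q₀) (Finset.mem_range.2 (Nat.mod_lt l hn))).trans hq
  have e1 : l % n + l / n * n = l := by rw [mul_comm]; exact Nat.mod_add_div l n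
  have e2 : l % n + (l / n + 1) * n = l + n := by
    rw [add_mul, one_mul, ← add_assoc, e1]
  have h1 := hq₀ (l % n) (l / n) hr
  have h2 := hq₀ (l % n) (l / n + 1) (hr.trans (Nat.le_succ _))
  rw [e1] at h1
  rw [e2] at h2
  rw [h1, h2]

section

variable {p : ℕ} [Fact p.Prime]

/-- Every polynomial has its variables below some bound. -/
theorem exists_supported (F : MvPolynomial ℕ (ZMod p)) :
    ∃ N : ℕ, F ∈ supported (ZMod p) {l | l < N} := by
  classical
  refine ⟨F.vars.sup id + 1, ?_⟩
  rw [mem_supported]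
  intro i hi
  exact Nat.lt_succ_of_le (Finset.le_sup (f := id) hi)

theorem supported_le {N M : ℕ} (h : N ≤ M) :
    supported (ZMod p) {l | l < N} ≤ supported (ZMod p) {l | l < M} :=
  supported_mono fun _ hl => lt_of_lt_of_le hl h

/-- The ideal is prime. -/
theorem prime_J (J : Ideal (MvPolynomial ℕ (ZMod p)))
    (hU : ∀ N : ℕ, ∃ (c : ℕ) (φ : MvPolynomial ℕ (ZMod p) →ₐ[ZMod p] MvPolynomial (Fin c) (ZMod p)),
      ∀ F ∈ supported (ZMod p) {l | l < N}, F ∈ J ↔ φ F = 0)
    (F G : MvPolynomial ℕ (ZMod p)) (h : F * G ∈ J) : F ∈ J ∨ G ∈ J := by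
  obtain ⟨N, hN⟩ := exists_supported F
  obtain ⟨M, hM⟩ := exists_supported G
  obtain ⟨c, φ, hφ⟩ := hU (max N M)
  have h1 := supported_le (p := p) (le_max_left N M) hN
  have h2 := supported_le (p := p) (le_max_right N M) hM
  rw [hφ _ (mul_mem h1 h2), map_mul, mul_eq_zero] at h
  rcases h with h | h
  · exact Or.inl ((hφ _ h1).2 h)
  · exact Or.inr ((hφ _ h2).2 h)

/-- The polynomials in the variables below `l`. -/
noncomputable abbrev PP (p : ℕ) [Fact p.Prime] (l : ℕ) : Subalgebra (ZMod p) (MvPolynomial ℕ (ZMod p)) :=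
  supported (ZMod p) {j | j < l}

/-- The possible degrees of relations of `X l` over the lower variables. -/
def Deg (J : Ideal (MvPolynomial ℕ (ZMod p))) (l : ℕ) : Set ℕ :=
  {d | ∃ M : Polynomial (PP p l), M.natDegree = d ∧
    ((M.leadingCoeff : PP p l) : MvPolynomial ℕ (ZMod p)) ∉ J ∧
    Polynomial.aeval (X l : MvPolynomial ℕ (ZMod p)) M ∈ J}

/-- The shift. -/
noncomputable def sh (p : ℕ) [Fact p.Prime] (n l : ℕ) : PP p l →+* PP p (l + n) :=
  ((rename (fun l => l + n) : MvPolynomial ℕ (ZMod p) →ₐ[ZMod p] _).toRingHom.comp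
    (PP p l).val.toRingHom).codRestrict (PP p (l + n)).toSubring
      fun F => rename_add_mem_supported n l F.1 F.2

theorem sh_coe (n l : ℕ) (F : PP p l) :
    ((sh p n l F : PP p (l + n)) : MvPolynomial ℕ (ZMod p)) = rename (fun l => l + n) F.1 := rfl

theorem sh_injective (n l : ℕ) : Function.Injective (sh p n l) := by
  intro F G h
  have h1 : rename (fun l => l + n) F.1 = rename (fun l => l + n) G.1 := congrArg Subtype.val h
  exact Subtype.ext (rename_injective _ (add_left_injective n) h1)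

theorem aeval_map_sh (n l : ℕ) (M : Polynomial (PP p l)) :
    Polynomial.aeval (X (l + n) : MvPolynomial ℕ (ZMod p)) (M.map (sh p n l)) =
      rename (fun l => l + n) (Polynomial.aeval (X l : MvPolynomial ℕ (ZMod p)) M) := by
  have h := Polynomial.hom_eval₂ M (algebraMap (PP p l) (MvPolynomial ℕ (ZMod p)))
    (rename (fun l => l + n) : MvPolynomial ℕ (ZMod p) →ₐ[ZMod p] _).toRingHom (X l)
  rw [Polynomial.aeval_def, Polynomial.eval₂_map, Polynomial.aeval_def]
  have e1 : (rename (fun l => l + n) : MvPolynomial ℕ (ZMod p) →ₐ[ZMod p] _).toRingHom (X l) =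
    (X (l + n) : MvPolynomial ℕ (ZMod p)) := rename_X _ _
  rw [e1] at h
  exact h.symm

theorem Deg_shift (J : Ideal (MvPolynomial ℕ (ZMod p))) (n : ℕ)
    (hS : ∀ F, F ∈ J ↔ rename (fun l => l + n) F ∈ J) (l : ℕ) : Deg J l ⊆ Deg J (l + n) := by
  rintro d ⟨M, rfl, h1, h2⟩
  refine ⟨M.map (sh p n l), Polynomial.natDegree_map_eq_of_injective (sh_injective n l) M, ?_, ?_⟩
  · rw [Polynomial.leadingCoeff_map_of_injective (sh_injective n l), sh_coe, ← hS]
    exact h1
  · rw [aeval_map_sh, ← hS]
    exact h2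

open Classical in
/-- The least degree. -/
noncomputable def dmin (J : Ideal (MvPolynomial ℕ (ZMod p))) (l : ℕ) : ℕ∞ :=
  if (Deg J l).Nonempty then ((sInf (Deg J l) : ℕ) : ℕ∞) else ⊤

theorem dmin_le {J : Ideal (MvPolynomial ℕ (ZMod p))} {l d : ℕ} (h : d ∈ Deg J l) :
    dmin J l ≤ d := by
  rw [dmin, if_pos ⟨d, h⟩]
  exact_mod_cast Nat.sInf_le h

theorem exists_dmin {J : Ideal (MvPolynomial ℕ (ZMod p))} {l : ℕ} (h : dmin J l ≠ ⊤) :
    ∃ d ∈ Deg J l, dmin J l = d := by
  by_cases h1 : (Deg J l).Nonempty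
  · exact ⟨sInf (Deg J l), Nat.sInf_mem h1, by rw [dmin, if_pos h1]⟩
  · exact absurd (by rw [dmin, if_neg h1]) h

theorem dmin_shift (J : Ideal (MvPolynomial ℕ (ZMod p))) (n : ℕ)
    (hS : ∀ F, F ∈ J ↔ rename (fun l => l + n) F ∈ J) (l : ℕ) : dmin J (l + n) ≤ dmin J l := by
  by_cases h : dmin J l = ⊤
  · rw [h]; exact le_top
  · obtain ⟨d, hd, he⟩ := exists_dmin h
    rw [he]
    exact dmin_le (Deg_shift J n hS l hd)

/-- Every polynomial in the variables up to `l` is a polynomial in `X l` over the lower ones. -/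
theorem exists_poly (l : ℕ) (F : MvPolynomial ℕ (ZMod p)) (hF : F ∈ PP p (l + 1)) :
    ∃ f : Polynomial (PP p l), Polynomial.aeval (X l : MvPolynomial ℕ (ZMod p)) f = F := by
  have h : PP p (l + 1) ≤ ((Polynomial.aeval (R := PP p l)
      (X l : MvPolynomial ℕ (ZMod p))).range.restrictScalars (ZMod p)) := by
    rw [PP, supported]
    refine Algebra.adjoin_le ?_
    rintro _ ⟨j, hj, rfl⟩
    rcases Nat.lt_succ_iff_lt_or_eq.1 hj with hj | rfl
    · exact ⟨Polynomial.C ⟨X j, X_mem_supported.2 hj⟩, by simp⟩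
    · exact ⟨Polynomial.X, by simp⟩
  exact h hF

variable {K : Type} [Field K] [Algebra (ZMod p) K]

theorem aeval_aeval (y : ℕ → K) (l : ℕ) (f : Polynomial (PP p l)) :
    aeval y (Polynomial.aeval (X l : MvPolynomial ℕ (ZMod p)) f) =
      f.eval₂ ((aeval y : MvPolynomial ℕ (ZMod p) →ₐ[ZMod p] K).toRingHom.comp
        (algebraMap (PP p l) (MvPolynomial ℕ (ZMod p)))) (y l) := by
  have h := Polynomial.hom_eval₂ f (algebraMap (PP p l) (MvPolynomial ℕ (ZMod p)))
    (aeval y : MvPolynomial ℕ (ZMod p) →ₐ[ZMod p] K).toRingHom (X l)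
  rw [Polynomial.aeval_def]
  have e1 : (aeval y : MvPolynomial ℕ (ZMod p) →ₐ[ZMod p] K).toRingHom (X l) = y l := aeval_X _ _
  rw [e1] at h
  exact h

/-- One step of pseudo-division. -/
theorem step (J : Ideal (MvPolynomial ℕ (ZMod p))) (l : ℕ) (y : ℕ → K)
    (H : ∀ F ∈ PP p l, F ∈ J → aeval y F = 0)
    (Q : dmin J l ≠ ⊤ → ∃ M : Polynomial (PP p l), (M.natDegree : ℕ∞) = dmin J l ∧
      Polynomial.aeval (X l : MvPolynomial ℕ (ZMod p)) M ∈ J ∧
      aeval y (M.leadingCoeff : MvPolynomial ℕ (ZMod p)) ≠ 0 ∧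
      aeval y (Polynomial.aeval (X l : MvPolynomial ℕ (ZMod p)) M) = 0) :
    ∀ F ∈ PP p (l + 1), F ∈ J → aeval y F = 0 := by
  have key : ∀ (k : ℕ) (f : Polynomial (PP p l)), f.degree < k →
      Polynomial.aeval (X l : MvPolynomial ℕ (ZMod p)) f ∈ J →
      aeval y (Polynomial.aeval (X l : MvPolynomial ℕ (ZMod p)) f) = 0 := by
    intro k
    induction k with
    | zero =>
      intro f hf _
      have : f = 0 := by
        rw [← Polynomial.degree_eq_bot]
        simpa using hf
      rw [this, map_zero, map_zero]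
    | succ k ih =>
      intro f hf hfJ
      by_cases h0 : f = 0
      · rw [h0, map_zero, map_zero]
      have hfk : f.degree ≤ k := by
        have : f.degree < ((k + 1 : ℕ) : WithBot ℕ) := hf
        rw [Polynomial.degree_eq_natDegree h0] at this ⊢
        exact_mod_cast Nat.lt_succ_iff.1 (by exact_mod_cast this)
      by_cases ha : ((f.leadingCoeff : PP p l) : MvPolynomial ℕ (ZMod p)) ∈ J
      · have e1 : f = f.eraseLead + Polynomial.monomial f.natDegree f.leadingCoeff :=
          f.eraseLead_add_monomial_natDegree_leadingCoeff.symm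
        have e2 : Polynomial.aeval (X l : MvPolynomial ℕ (ZMod p))
            (Polynomial.monomial f.natDegree f.leadingCoeff) =
            (f.leadingCoeff : MvPolynomial ℕ (ZMod p)) * X l ^ f.natDegree := by
          rw [Polynomial.aeval_monomial]
          rfl
        have e3 : Polynomial.aeval (X l : MvPolynomial ℕ (ZMod p)) f.eraseLead ∈ J := by
          have : Polynomial.aeval (X l : MvPolynomial ℕ (ZMod p)) f.eraseLead =
              Polynomial.aeval (X l : MvPolynomial ℕ (ZMod p)) f -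
              (f.leadingCoeff : MvPolynomial ℕ (ZMod p)) * X l ^ f.natDegree := by
            rw [← e2]
            nth_rewrite 2 [e1]
            rw [map_add, add_sub_cancel_right]
          rw [this]
          exact J.sub_mem hfJ (J.mul_mem_right _ ha)
        have e4 := ih f.eraseLead (lt_of_lt_of_le (Polynomial.degree_eraseLead_lt h0) hfk) e3
        rw [e1, map_add, map_add, e4, e2, map_mul, H _ f.leadingCoeff.2 ha, zero_mul, add_zero]
      · have hd : f.natDegree ∈ Deg J l := ⟨f, rfl, ha, hfJ⟩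
        have hle := dmin_le hd
        obtain ⟨M, hM1, hM2, hM3, hM4⟩ := Q (ne_top_of_le_ne_top (ENat.natCast_ne_top _) hle)
        rw [← hM1] at hle
        have hle' : M.natDegree ≤ f.natDegree := by exact_mod_cast hle
        have hc0 : M.leadingCoeff ≠ 0 := by
          intro h
          rw [h] at hM3
          exact hM3 (map_zero _)
        have hM0 : M ≠ 0 := fun h => hc0 (by rw [h, Polynomial.leadingCoeff_zero])
        have hf0 : f.leadingCoeff ≠ 0 := Polynomial.leadingCoeff_ne_zero.2 h0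
        set g : Polynomial (PP p l) := Polynomial.C M.leadingCoeff * f -
          Polynomial.C f.leadingCoeff * Polynomial.X ^ (f.natDegree - M.natDegree) * M with hg
        have d1 : (Polynomial.C M.leadingCoeff * f).degree = f.degree := by
          rw [Polynomial.degree_mul, Polynomial.degree_C hc0, zero_add]
        have d2 : (Polynomial.C f.leadingCoeff * Polynomial.X ^ (f.natDegree - M.natDegree) *
            M).degree = f.degree := by
          rw [Polynomial.degree_mul, Polynomial.degree_mul, Polynomial.degree_C hf0, zero_add,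
            Polynomial.degree_X_pow, Polynomial.degree_eq_natDegree hM0,
            Polynomial.degree_eq_natDegree h0]
          exact_mod_cast Nat.sub_add_cancel hle'
        have d3 : (Polynomial.C M.leadingCoeff * f).leadingCoeff = (Polynomial.C f.leadingCoeff *
            Polynomial.X ^ (f.natDegree - M.natDegree) * M).leadingCoeff := by
          rw [Polynomial.leadingCoeff_mul, Polynomial.leadingCoeff_mul, Polynomial.leadingCoeff_mul,
            Polynomial.leadingCoeff_C, Polynomial.leadingCoeff_C, Polynomial.leadingCoeff_X_pow,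
            mul_one, mul_comm]
        have d4 : (Polynomial.C M.leadingCoeff * f) ≠ 0 :=
          mul_ne_zero (Polynomial.C_ne_zero.2 hc0) h0
        have hgd : g.degree < f.degree := by
          rw [hg, ← d1]
          exact Polynomial.degree_sub_lt_left (d1.trans d2.symm) d4 d3
        have e1 : Polynomial.aeval (X l : MvPolynomial ℕ (ZMod p)) g =
            (M.leadingCoeff : MvPolynomial ℕ (ZMod p)) *
              Polynomial.aeval (X l : MvPolynomial ℕ (ZMod p)) f -
            (f.leadingCoeff : MvPolynomial ℕ (ZMod p)) * X l ^ (f.natDegree - M.natDegree) *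
              Polynomial.aeval (X l : MvPolynomial ℕ (ZMod p)) M := by
          have e0 : Polynomial.C M.leadingCoeff * f = g +
              Polynomial.C f.leadingCoeff * Polynomial.X ^ (f.natDegree - M.natDegree) * M :=
            (sub_add_cancel (Polynomial.C M.leadingCoeff * f) (Polynomial.C f.leadingCoeff *
              Polynomial.X ^ (f.natDegree - M.natDegree) * M)).symm
          have e0' := congrArg (Polynomial.aeval (X l : MvPolynomial ℕ (ZMod p))) e0
          rw [map_add, map_mul, map_mul, map_mul, map_pow, Polynomial.aeval_C,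
            Polynomial.aeval_C, Polynomial.aeval_X] at e0'
          exact eq_sub_of_add_eq e0'.symm
        have e2 : Polynomial.aeval (X l : MvPolynomial ℕ (ZMod p)) g ∈ J := by
          rw [e1]
          exact J.sub_mem (J.mul_mem_left _ hfJ) (J.mul_mem_left _ hM2)
        have e3 := ih g (lt_of_lt_of_le hgd hfk) e2
        rw [e1, map_sub, map_mul, map_mul, hM4, mul_zero, sub_zero] at e3
        exact (mul_eq_zero.1 e3).resolve_left hM3
  intro F hF hFJ
  obtain ⟨f, rfl⟩ := exists_poly l F hF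
  exact key (f.natDegree + 1) f (lt_of_le_of_lt Polynomial.degree_le_natDegree
    (by exact_mod_cast Nat.lt_succ_self _)) hFJ

end

/-- FP8.  Part C. -/
theorem partC (p : ℕ) [Fact p.Prime] (J : Ideal (MvPolynomial ℕ (ZMod p))) (n : ℕ) (hn : 0 < n)
    (hS : ∀ F, F ∈ J ↔ rename (fun l => l + n) F ∈ J)
    (hU : ∀ N : ℕ, ∃ (c : ℕ) (φ : MvPolynomial ℕ (ZMod p) →ₐ[ZMod p] MvPolynomial (Fin c) (ZMod p)),
      ∀ F ∈ supported (ZMod p) {l | l < N}, F ∈ J ↔ φ F = 0)
    (F₀ : MvPolynomial ℕ (ZMod p)) (hF₀ : F₀ ∉ J) :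
    ∃ Q₀ : ℕ, ∀ s : ℕ, Q₀ ≤ p ^ s → ∃ y : ℕ → AlgebraicClosure (ZMod p),
      (∀ l, y (l + n) = y l ^ p ^ s) ∧ (∀ F ∈ J, aeval y F = 0) ∧ aeval y F₀ ≠ 0 := by
  classical
  obtain ⟨L, hL⟩ := exists_supported F₀
  obtain ⟨l₀, hl₀, hstab⟩ := stab (dmin J) n hn (dmin_shift J n hS) L
  -- minimal relations
  have hM : ∀ l : ℕ, ∃ M : Polynomial (PP p l), dmin J l ≠ ⊤ →
      (M.natDegree : ℕ∞) = dmin J l ∧
      ((M.leadingCoeff : PP p l) : MvPolynomial ℕ (ZMod p)) ∉ J ∧
      Polynomial.aeval (X l : MvPolynomial ℕ (ZMod p)) M ∈ J := by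
    intro l
    by_cases h : dmin J l = ⊤
    · exact ⟨0, fun h' => absurd h h'⟩
    · obtain ⟨d, ⟨M, hM1, hM2, hM3⟩, hd⟩ := exists_dmin h
      exact ⟨M, fun _ => ⟨by rw [hd, hM1], hM2, hM3⟩⟩
  choose M hM using hM
  have h1J : (1 : MvPolynomial ℕ (ZMod p)) ∉ J := fun h =>
    hF₀ (by rw [(Ideal.eq_top_iff_one J).2 h]; trivial)
  let u : ℕ → MvPolynomial ℕ (ZMod p) := fun l =>
    if dmin J l ≠ ⊤ then ((M l).leadingCoeff : MvPolynomial ℕ (ZMod p)) else 1
  have hu1 : ∀ l, u l ∉ J := by
    intro l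
    by_cases h : dmin J l ≠ ⊤
    · simp only [u, if_pos h]
      exact (hM l h).2.1
    · simp only [u, if_neg h]
      exact h1J
  have hu2 : ∀ l < l₀ + n, u l ∈ PP p (l₀ + n) := by
    intro l hl
    by_cases h : dmin J l ≠ ⊤
    · simp only [u, if_pos h]
      exact supported_le hl.le (M l).leadingCoeff.2
    · simp only [u, if_neg h]
      exact one_mem _
  let D : MvPolynomial ℕ (ZMod p) := F₀ * ∏ l ∈ Finset.range (l₀ + n), u l
  have hprod : ∀ s : Finset ℕ, ∏ l ∈ s, u l ∉ J := by
    intro s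
    induction s using Finset.induction_on with
    | empty => simpa using h1J
    | insert a s ha ih =>
      rw [Finset.prod_insert ha]
      intro h
      rcases prime_J J hU _ _ h with h | h
      · exact hu1 a h
      · exact ih h
  have hDJ : D ∉ J := by
    intro h
    rcases prime_J J hU _ _ h with h | h
    · exact hF₀ h
    · exact hprod _ h
  have hDP : D ∈ PP p (l₀ + n) := by
    refine mul_mem (supported_le (hl₀.trans (Nat.le_add_right _ _)) hL) ?_
    exact prod_mem fun l hl => hu2 l (Finset.mem_range.1 hl)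
  obtain ⟨Q₀, hQ₀⟩ := stageOne p J n hS hU l₀ D hDP hDJ
  refine ⟨Q₀, fun s hs => ?_⟩
  obtain ⟨y₀, hy1, hy2, hy3⟩ := hQ₀ s hs
  let y : ℕ → AlgebraicClosure (ZMod p) := fun l => y₀ (l % n) ^ (p ^ s) ^ (l / n)
  have hyn : ∀ l, y (l + n) = y l ^ p ^ s := by
    intro l
    simp only [y]
    rw [Nat.add_mod_right, Nat.add_div_right l hn, pow_succ, pow_mul]
  have hyy : ∀ l < l₀ + n, y l = y₀ l := by
    intro l
    induction l using Nat.strong_induction_on with
    | _ l ih =>
      intro hl
      by_cases hln : l < n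
      · simp only [y]
        rw [Nat.mod_eq_of_lt hln, Nat.div_eq_of_lt hln, pow_zero, pow_one]
      · obtain ⟨m, rfl⟩ : ∃ m, l = m + n := ⟨l - n, by omega⟩
        rw [hyn, ih m (by omega) (by omega), hy2 m (by omega)]
  have hyeval : ∀ F ∈ PP p (l₀ + n), aeval y F = aeval y₀ F := by
    intro F hF
    rw [PP, mem_supported] at hF
    refine MvPolynomial.hom_congr_vars
      (f₁ := (aeval y : MvPolynomial ℕ (ZMod p) →ₐ[ZMod p] AlgebraicClosure (ZMod p)).toRingHom)
      (f₂ := (aeval y₀ : MvPolynomial ℕ (ZMod p) →ₐ[ZMod p] AlgebraicClosure (ZMod p)).toRingHom)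
      (RingHom.ext_zmod _ _) (fun i hi _ => ?_) rfl
    have : i < l₀ + n := hF hi
    simpa using hyy i this
  have hD : aeval y D ≠ 0 := by rw [hyeval D hDP]; exact hy3
  have hD' : aeval y F₀ ≠ 0 ∧ ∀ l < l₀ + n, aeval y (u l) ≠ 0 := by
    have h := hD
    simp only [D, map_mul, map_prod] at h
    refine ⟨left_ne_zero_of_mul h, fun l hl => ?_⟩
    exact Finset.prod_ne_zero_iff.1 (right_ne_zero_of_mul h) l (Finset.mem_range.2 hl)
  -- good relations at all levels from `l₀` on
  have hQ : ∀ l, l₀ ≤ l → dmin J l ≠ ⊤ → ∃ M : Polynomial (PP p l),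
      (M.natDegree : ℕ∞) = dmin J l ∧
      Polynomial.aeval (X l : MvPolynomial ℕ (ZMod p)) M ∈ J ∧
      aeval y (M.leadingCoeff : MvPolynomial ℕ (ZMod p)) ≠ 0 ∧
      aeval y (Polynomial.aeval (X l : MvPolynomial ℕ (ZMod p)) M) = 0 := by
    intro l
    induction l using Nat.strong_induction_on with
    | _ l ih =>
      intro hl htop
      by_cases hlt : l < l₀ + n
      · obtain ⟨a1, a2, a3⟩ := hM l htop
        refine ⟨M l, a1, a3, ?_, ?_⟩
        · have := hD'.2 l hlt
          simp only [u, if_pos htop] at this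
          exact this
        · have hmem : Polynomial.aeval (X l : MvPolynomial ℕ (ZMod p)) (M l) ∈ PP p (l₀ + n) := by
            rw [Polynomial.aeval_eq_sum_range]
            refine sum_mem fun i _ => ?_
            rw [Algebra.smul_def]
            refine mul_mem (supported_le hlt.le ((M l).coeff i).2) (pow_mem ?_ _)
            exact X_mem_supported.2 hlt
          rw [hyeval _ hmem]
          exact hy1 _ hmem a3
      · obtain ⟨m, rfl⟩ : ∃ m, l = m + n := ⟨l - n, by omega⟩
        have hm : l₀ ≤ m := by omega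
        have he : dmin J (m + n) = dmin J m := hstab m hm
        obtain ⟨N, b1, b2, b3, b4⟩ := ih m (by omega) hm (by rw [← he]; exact htop)
        have hpow : ∀ F : MvPolynomial ℕ (ZMod p),
            aeval y (rename (fun l => l + n) F) = aeval y F ^ p ^ s := by
          intro F
          rw [aeval_rename, ← aeval_pow_card]
          congr 2
          funext l
          exact hyn l
        refine ⟨N.map (sh p n m), ?_, ?_, ?_, ?_⟩
        · rw [Polynomial.natDegree_map_eq_of_injective (sh_injective n m), b1, he]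
        · rw [aeval_map_sh, ← hS]
          exact b2
        · rw [Polynomial.leadingCoeff_map_of_injective (sh_injective n m), sh_coe, hpow]
          exact pow_ne_zero _ b3
        · rw [aeval_map_sh, hpow, b4, zero_pow (pow_ne_zero _ (Fact.out : p.Prime).ne_zero)]
  have hH : ∀ l, l₀ + n ≤ l → ∀ F ∈ PP p l, F ∈ J → aeval y F = 0 := by
    intro l hl
    induction l, hl using Nat.le_induction with
    | base =>
      intro F hF hFJ
      rw [hyeval F hF]
      exact hy1 F hF hFJ
    | succ l hl ih => exact step J l y ih (hQ l (by omega))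
  refine ⟨y, hyn, fun F hF => ?_, hD'.1⟩
  obtain ⟨N, hN⟩ := exists_supported F
  exact hH (max N (l₀ + n)) (le_max_right _ _) F (supported_le (le_max_left _ _) hN) hF

end Pool.Agent.H91.FP
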