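import Mathlib

set_option autoImplicit false

namespace Pool.Agent.H91.FP

/-- A sequence with values in a well-ordered set which does not increase along steps of length
`n` is eventually periodic with period `n`. -/
theorem stab (D : ℕ → WithTop ℕ) (n : ℕ) (hn : 0 < n) (h : ∀ l, D (l + n) ≤ D l) (N0 : ℕ) :
    ∃ l0, N0 ≤ l0 ∧ ∀ l, l0 ≤ l → D (l + n) = D l := by
  have hstep : ∀ r k j, D (r + (k + j) * n) ≤ D (r + k * n) := by
    intro r k j
    induction j with
    | zero => simp
    | succ j ih =>
      have : r + (k + (j + 1)) * n = (r + (k + j) * n) + n := by ring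
      rw [this]
      exact (h _).trans ih
  have hmin : ∀ r, ∃ K, ∀ k, K ≤ k → D (r + k * n) = D (r + K * n) := by
    intro r
    have hne : (Set.range (fun k => D (r + k * n))).Nonempty := ⟨_, ⟨0, rfl⟩⟩
    obtain ⟨K, hK⟩ := WellFounded.min_mem (wellFounded_lt (α := WithTop ℕ)) _ hne
    refine ⟨K, fun k hk => le_antisymm ?_ ?_⟩
    · obtain ⟨j, rfl⟩ := Nat.exists_eq_add_of_le hk
      exact hstep r K j
    · have h1 : ¬ D (r + k * n) < D (r + K * n) := by
        have h2 := WellFounded.not_lt_min (wellFounded_lt (α := WithTop ℕ))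
          (Set.range (fun k => D (r + k * n))) (x := D (r + k * n)) ⟨k, rfl⟩
        rw [← hK] at h2
        exact h2
      exact not_lt.mp h1
  choose K hK using hmin
  refine ⟨N0 + ((Finset.range n).sup K) * n, by omega, ?_⟩
  intro l hl
  have hr : l % n < n := Nat.mod_lt _ hn
  have hk : K (l % n) ≤ l / n := by
    refine (Finset.le_sup (f := K) (Finset.mem_range.mpr hr)).trans ?_
    rw [Nat.le_div_iff_mul_le hn]
    omega
  have hl2 : l % n + l / n * n = l := by
    rw [mul_comm]; exact Nat.mod_add_div l n
  have h1 := hK (l % n) (l / n) hk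
  have h2 := hK (l % n) (l / n + 1) (by omega)
  rw [hl2] at h1
  rw [show l % n + (l / n + 1) * n = (l % n + l / n * n) + n by ring, hl2] at h2
  rw [h1, h2]

end Pool.Agent.H91.FP
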