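import Mathlib

/-!
# Triangular families
-/

set_option autoImplicit false

namespace Pool.Agent.H91.FP

open Submodule

variable {k V α : Type*} [Field k] [AddCommGroup V] [Module k V]

theorem tri_span (e f : α → V) (deg : α → ℕ)
    (hf : ∀ a, f a - e a ∈ span k (e '' {b | deg b < deg a})) (n : ℕ) :
    span k (e '' {b | deg b < n}) ≤ span k (f '' {b | deg b < n}) := by
  induction n with
  | zero =>
    rw [span_le]
    rintro _ ⟨a, ha, rfl⟩
    exact absurd ha (Nat.not_lt_zero _)
  | succ n ih =>
    rw [span_le]
    rintro _ ⟨a, ha, rfl⟩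
    have h1 : f a ∈ span k (f '' {b | deg b < n + 1}) := subset_span ⟨a, ha, rfl⟩
    have h2 : f a - e a ∈ span k (f '' {b | deg b < n + 1}) := by
      have h3 : span k (e '' {b | deg b < deg a}) ≤ span k (e '' {b | deg b < n}) :=
        span_mono (Set.image_mono fun b hb => lt_of_lt_of_le hb (Nat.lt_succ_iff.1 ha))
      have h4 : span k (f '' {b | deg b < n}) ≤ span k (f '' {b | deg b < n + 1}) :=
        span_mono (Set.image_mono fun b hb => Nat.lt_succ_of_lt hb)
      exact h4 (ih (h3 (hf a)))
    have h3 := sub_mem h1 h2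
    rwa [sub_sub_cancel] at h3

theorem tri_indep (e f : α → V) (deg : α → ℕ) (he : LinearIndependent k e)
    (hf : ∀ a, f a - e a ∈ span k (e '' {b | deg b < deg a})) :
    LinearIndependent k f := by
  classical
  rw [linearIndependent_iff]
  intro l hl
  by_contra hne
  -- the largest degree in the support
  obtain ⟨a, ha, hmax⟩ := Finset.exists_max_image l.support deg
    (Finsupp.support_nonempty_iff.2 hne)
  -- the part of top degree
  have h1 : ∀ c ∈ l.support, f c - e c ∈ span k (e '' {b | deg b < deg a}) := fun c hc =>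
    span_mono (Set.image_mono fun b hb => lt_of_lt_of_le hb (hmax c hc)) (hf c)
  have h2 : ∑ c ∈ l.support, l c • e c ∈ span k (e '' {b | deg b < deg a}) := by
    have h3 : ∑ c ∈ l.support, l c • (f c - e c) ∈ span k (e '' {b | deg b < deg a}) :=
      sum_mem fun c hc => smul_mem _ _ (h1 c hc)
    have h4 : ∑ c ∈ l.support, l c • (f c - e c) = - ∑ c ∈ l.support, l c • e c := by
      have h5 : ∑ c ∈ l.support, l c • f c = 0 := by
        have := hl
        rwa [Finsupp.linearCombination_apply, Finsupp.sum] at this
      simp only [smul_sub, Finset.sum_sub_distrib, h5, zero_sub]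
    rw [h4] at h3
    simpa using neg_mem h3
  have h3 : Finsupp.linearCombination k e l ∈ span k (e '' {b | deg b < deg a}) := by
    rw [Finsupp.linearCombination_apply]; exact h2
  rw [Finsupp.mem_span_image_iff_linearCombination] at h3
  obtain ⟨l', hl', hll⟩ := h3
  have h4 : l' = l := he hll
  rw [h4, Finsupp.mem_supported] at hl'
  exact lt_irrefl (deg a) (hl' ha)

end Pool.Agent.H91.FP
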